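import Pool.Agent.TH856.PG.FieldSys

set_option autoImplicit false

/-!
# The places of `ℚ`
-/

namespace Pool.Agent.TH856.PG

open MvPolynomial
open Pool.Agent.H892.PGR (br Phi phi_smul)
open Pool.Agent.H892.PGK (PotGood PP fX fX_mk br_zero_iff)

/-- the prime numbers -/
abbrev Pr : Type := {p : ℕ // p.Prime}

/-- the `p`-adic absolute value -/
noncomputable def qav (p : Pr) : AbsoluteValue ℚ ℝ :=
  @Rat.AbsoluteValue.padic p.1 ⟨p.2⟩

lemma qav_eq (p : Pr) (z : ℚ) : qav p z = (padicNorm p.1 z : ℝ) := rfl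

lemma natProd (n : ℕ) (hn : n ≠ 0) : ∀ S : Finset Pr, (∀ p : Pr, p.1 ∣ n → p ∈ S) →
    ∏ p ∈ S, qav p (n : ℚ) = (n : ℝ)⁻¹ := by
  induction n using Nat.recOnMul with
  | zero => exact absurd rfl hn
  | one =>
    intro S _
    simp
  | prime q hq =>
    intro S hS
    have hmem : (⟨q, hq⟩ : Pr) ∈ S := hS ⟨q, hq⟩ dvd_rfl
    have := Fact.mk hq
    rw [Finset.prod_eq_single (⟨q, hq⟩ : Pr)]
    · rw [qav_eq]
      rw [padicNorm.padicNorm_p_of_prime]
      push_cast; rfl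
    · intro p _ hne
      have := Fact.mk p.2
      rw [qav_eq, padicNorm.padicNorm_of_prime_of_ne]
      · norm_num
      · intro h
        exact hne (Subtype.ext h)
    · intro h
      exact absurd hmem h
  | mul a b iha ihb =>
    intro S hS
    have ha : a ≠ 0 := left_ne_zero_of_mul hn
    have hb : b ≠ 0 := right_ne_zero_of_mul hn
    have h1 := iha ha S (fun p hp => hS p (hp.mul_right b))
    have h2 := ihb hb S (fun p hp => hS p (hp.mul_left a))
    push_cast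
    simp only [map_mul]
    rw [Finset.prod_mul_distrib, h1, h2, mul_inv]

lemma qav_natCast_eq_one {p : Pr} {n : ℕ} (h : ¬ p.1 ∣ n) : qav p (n : ℚ) = 1 := by
  have := Fact.mk p.2
  rw [qav_eq, (padicNorm.nat_eq_one_iff n).2 h]
  norm_num

/-- primes dividing `n` -/
def psupp (n : ℕ) : Finset Pr := (Finset.range (n + 1)).subtype Nat.Prime

lemma mem_psupp {n : ℕ} (hn : n ≠ 0) {p : Pr} (h : p.1 ∣ n) : p ∈ psupp n := by
  unfold psupp
  rw [Finset.mem_subtype, Finset.mem_range]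
  have := Nat.le_of_dvd (Nat.pos_of_ne_zero hn) h
  omega

lemma qav_split (p : Pr) (z : ℚ) :
    qav p z = qav p (z.num.natAbs : ℚ) / qav p (z.den : ℚ) := by
  have h1 : qav p (z.num.natAbs : ℚ) = qav p (z.num : ℚ) := by
    rw [Nat.cast_natAbs, Int.cast_abs]
    rcases abs_choice (z.num : ℚ) with h | h
    · rw [h]
    · rw [h, AbsoluteValue.map_neg]
  rw [h1, ← map_div₀, Rat.num_div_den]

lemma hfinQ (z : ℚ) (hz : z ≠ 0) : ∃ S0 : Finset Pr, ∀ p, qav p z ≠ 1 → p ∈ S0 := by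
  classical
  refine ⟨psupp z.num.natAbs ∪ psupp z.den, fun p hp => ?_⟩
  by_contra hcon
  rw [Finset.mem_union, not_or] at hcon
  apply hp
  rw [qav_split, qav_natCast_eq_one (fun h => hcon.1 (mem_psupp (by simpa using hz) h)),
    qav_natCast_eq_one (fun h => hcon.2 (mem_psupp z.den_nz h)), div_one]

lemma hprodQ (z : ℚ) (hz : z ≠ 0) (S0 : Finset Pr) (hS0 : ∀ p, qav p z ≠ 1 → p ∈ S0) :
    ∏ p ∈ S0, qav p z = (Rat.AbsoluteValue.real z ^ 1)⁻¹ := by
  classical
  set S1 := S0 ∪ (psupp z.num.natAbs ∪ psupp z.den) with hS1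
  have h1 : ∏ p ∈ S0, qav p z = ∏ p ∈ S1, qav p z := by
    apply Finset.prod_subset Finset.subset_union_left
    intro p _ hp
    by_contra hcon
    exact hp (hS0 p hcon)
  have hn : z.num.natAbs ≠ 0 := by simpa using hz
  have h2 := natProd z.num.natAbs hn S1 (fun p hp => Finset.mem_union_right _
    (Finset.mem_union_left _ (mem_psupp hn hp)))
  have h3 := natProd z.den z.den_nz S1 (fun p hp => Finset.mem_union_right _
    (Finset.mem_union_right _ (mem_psupp z.den_nz hp)))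
  rw [h1, Finset.prod_congr rfl (fun p _ => qav_split p z), Finset.prod_div_distrib, h2, h3,
    pow_one, Rat.AbsoluteValue.real_eq_abs]
  have h4 : (|z| : ℚ) = (z.num.natAbs : ℚ) / (z.den : ℚ) := by
    conv_lhs => rw [← Rat.num_div_den z]
    rw [abs_div, Nat.abs_cast]
    congr 1
    rw [Nat.cast_natAbs, Int.cast_abs]
  have h5 : ((|z| : ℚ) : ℝ) = (z.num.natAbs : ℝ) / (z.den : ℝ) := by
    rw [h4]; push_cast; rfl
  rw [h5, inv_div, inv_div_inv]

lemma discQ (p : Pr) (z : ℚ) (h : 1 < qav p z) : 2 ≤ qav p z := by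
  have := Fact.mk p.2
  have hz : z ≠ 0 := by
    rintro rfl
    rw [map_zero] at h
    norm_num at h
  rw [qav_eq, padicNorm.eq_zpow_of_nonzero hz] at h ⊢
  push_cast at h ⊢
  have hp : (1:ℝ) < (p.1 : ℝ) := by exact_mod_cast p.2.one_lt
  have hp2 : (2:ℝ) ≤ (p.1 : ℝ) := by exact_mod_cast p.2.two_le
  have hn : 0 < -padicValRat p.1 z := by
    by_contra hcon
    push Not at hcon
    have := zpow_le_one_of_nonpos₀ hp.le hcon
    linarith
  have h3 : (p.1 : ℝ) ^ (1 : ℤ) ≤ (p.1 : ℝ) ^ (-padicValRat p.1 z) :=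
    zpow_le_zpow_right₀ hp.le hn
  rw [zpow_one] at h3
  linarith

lemma hmuQ (z : ℚ) (hz : z ≠ 0) (h : ∀ p, qav p z = 1) : z ∈ ({1, -1} : Finset ℚ) := by
  have h1 := hprodQ z hz ∅ (fun p hp => absurd (h p) hp)
  rw [Finset.prod_empty, pow_one, Rat.AbsoluteValue.real_eq_abs] at h1
  have h2 : ((|z| : ℚ) : ℝ) = 1 := by
    rw [← inv_inv ((|z| : ℚ) : ℝ), ← h1, inv_one]
  have h3 : |z| = 1 := by exact_mod_cast h2
  rw [Finset.mem_insert, Finset.mem_singleton]
  rcases abs_eq (zero_le_one) |>.1 h3 with h4 | h4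
  · left; exact h4
  · right; exact h4

lemma packQ (s : ℝ) (hs : 0 < s) (T : Finset ℚ) (h1 : ∀ z ∈ T, Rat.AbsoluteValue.real z ≤ 2 * s)
    (h2 : ∀ z ∈ T, ∀ z' ∈ T, z ≠ z' → s ≤ Rat.AbsoluteValue.real (z - z')) : T.card ≤ 5 := by
  have hcard : (Finset.Icc (0:ℤ) 4).card = 5 := by simp
  rw [← hcard]
  apply Finset.card_le_card_of_injOn (fun z : ℚ => ⌊((z : ℝ) + 2 * s) / s⌋)
  · intro z hz
    have hz := h1 z (Finset.mem_coe.1 hz)
    rw [Rat.AbsoluteValue.real_eq_abs] at hz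
    push_cast at hz
    rw [abs_le] at hz
    rw [Finset.coe_Icc, Set.mem_Icc]
    constructor
    · apply Int.floor_nonneg.2
      apply div_nonneg _ hs.le
      linarith
    · have : ⌊((z : ℝ) + 2 * s) / s⌋ < 5 := by
        rw [Int.floor_lt, div_lt_iff₀ hs]
        push_cast
        linarith
      show ⌊((z : ℝ) + 2 * s) / s⌋ ≤ 4
      omega
  · intro z hz z' hz' hg
    by_contra hne
    have h3 := h2 z (Finset.mem_coe.1 hz) z' (Finset.mem_coe.1 hz') hne
    have hg' : ⌊((z : ℝ) + 2 * s) / s⌋ = ⌊((z' : ℝ) + 2 * s) / s⌋ := hg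
    have h4 := Int.abs_sub_lt_one_of_floor_eq_floor hg'
    rw [← sub_div, abs_div, abs_of_pos hs, div_lt_one hs] at h4
    have : (z : ℝ) + 2 * s - ((z' : ℝ) + 2 * s) = (z : ℝ) - z' := by ring
    rw [this] at h4
    rw [Rat.AbsoluteValue.real_eq_abs] at h3
    push_cast at h3
    linarith

/-- the system of a finite invariant set over `ℚ` -/
theorem exists_sysQ [DecidableEq (PP ℚ)] {d : ℕ} {F G : MvPolynomial (Fin 2) ℚ}
    (hd : 2 ≤ d) (hF : F.IsHomogeneous d) (hG : G.IsHomogeneous d) (h0 : NoZero F G)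
    (hp : ∀ p, PotGood (qav p) F G d) (T : Finset (PP ℚ))
    (hT : ∀ P ∈ T, fX F G (phi_ne_zero h0) P ∈ T) :
    ∃ S : Sys ℚ Pr {P // P ∈ T} d,
      (∀ P : {P // P ∈ T}, (S.f P : PP ℚ) = fX F G (phi_ne_zero h0) P) ∧
      S.mu.card = 2 ∧ S.e = 1 ∧ S.Bd = 5 := by
  classical
  obtain ⟨S, h1, h2, h3, h4⟩ := exists_sys (V := Pr) (av := qav)
    Rat.AbsoluteValue.real 1 one_pos {1, -1} hmuQ discQ
    hfinQ hprodQ 5 packQ hd hF hG h0 hp T hT
  refine ⟨S, h1, ?_, h3, h4⟩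
  rw [h2]
  rw [Finset.card_insert_of_notMem, Finset.card_singleton]
  rw [Finset.mem_singleton]
  norm_num

end Pool.Agent.TH856.PG
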