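import Pool.Agent.TH856.PG.Core

set_option autoImplicit false

/-!
# Strictly preperiodic points
-/

namespace Pool.Agent.TH856.PG

open Finset Function

lemma pow_le_prod_real {ι : Type*} (T : Finset ι) (g : ι → ℝ) {c : ℝ} (hc : 0 ≤ c)
    (h : ∀ x ∈ T, c ≤ g x) : c ^ T.card ≤ ∏ x ∈ T, g x := by
  rw [← Finset.prod_const]
  exact Finset.prod_le_prod (fun _ _ => hc) h

namespace Sys

variable {K : Type} [Field K] {V : Type} {ι : Type} [Fintype ι] [DecidableEq ι] {d : ℕ}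
  (S : Sys K V ι d)

/-- strictly preperiodic points in the fibre of the periodic point `R` -/
def L (R : ι) : Finset ι := univ.filter (fun x => ¬ S.Per x ∧ S.f x = S.f R)

/-- points at least two steps away from the periodic points, with shadow `R` -/
def Y (R : ι) : Finset ι := univ.filter (fun y => ¬ S.Per y ∧ ¬ S.Per (S.f y) ∧ S.ep y = R)

lemma mem_L {R x : ι} : x ∈ S.L R ↔ ¬ S.Per x ∧ S.f x = S.f R := by simp [L]

lemma mem_Y {R y : ι} : y ∈ S.Y R ↔ ¬ S.Per y ∧ ¬ S.Per (S.f y) ∧ S.ep y = R := by simp [Y]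

lemma e_of_L {R x : ι} (hR : S.Per R) (hx : x ∈ S.L R) : S.ep x = R := by
  rw [mem_L] at hx
  apply S.f_inj (S.per_e x) hR
  rw [← e_f, hx.2]
  exact S.per_f hR

lemma L_not_self {R R' : ι} (hR : S.Per R) : R ∉ S.L R' := by
  intro h
  exact (S.mem_L.1 h).1 hR

lemma Y_not_self {R R' : ι} (hR : S.Per R) : R ∉ S.Y R' := by
  intro h
  exact (S.mem_Y.1 h).1 hR

lemma card_L {R : ι} (hR : S.Per R) : (S.L R).card + 1 ≤ d := by
  rw [← Finset.card_insert_of_notMem (S.L_not_self hR)]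
  refine (Finset.card_le_card ?_).trans (S.hB (S.f R))
  intro x hx
  rcases Finset.mem_insert.1 hx with rfl | hx
  · simp
  · rw [mem_L] at hx
    simp [hx.2]

lemma non_cases {x : ι} (hx : ¬ S.Per x) : x ∈ S.L (S.ep x) ∨ x ∈ S.Y (S.ep x) := by
  rw [mem_L, mem_Y]
  by_cases h : S.Per (S.f x)
  · left
    refine ⟨hx, ?_⟩
    rw [← e_f]
    exact h.symm
  · right
    exact ⟨hx, h, rfl⟩

lemma one_L (v : V) {R R' x : ι} (hR : S.Per R) (hR' : S.Per R') (hne : R' ≠ R)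
    (hx : x ∈ S.L R) : S.δ v x R' = 1 := by
  have h1 := S.e_of_L hR hx
  rw [mem_L] at hx
  exact S.shadow v hx.1 hR' (by rw [h1]; exact hne)

lemma one_Y (v : V) {R R' y : ι} (hR' : S.Per R') (hne : R' ≠ R) (hy : y ∈ S.Y R) :
    S.δ v y R' = 1 := by
  rw [mem_Y] at hy
  exact S.shadow v hy.1 hR' (by rw [hy.2.2]; exact hne)

/-- points of `Y R` have distance one to the fibres of the other periodic points -/
lemma cross (v : V) {R R' y z : ι} (hR' : S.Per R') (hR : S.Per R) (hne : R' ≠ R)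
    (hy : y ∈ S.Y R) (hz : z ∈ S.L R') : S.δ v y z = 1 := by
  rw [mem_Y] at hy
  rw [mem_L] at hz
  have h2 := S.hA_one v (P := y) hz.2
  have h3 : S.δ v (S.f y) (S.f R') = 1 := by
    apply S.shadow v hy.2.1 (S.per_f hR')
    rw [e_f, hy.2.2]
    intro h
    exact hne (S.f_inj hR' hR h)
  rw [h3] at h2
  exact le_antisymm (S.le_one v y z) h2

lemma Y_not_mem_L {R R' y : ι} (hR' : S.Per R') (hy : y ∈ S.Y R) : y ∉ S.L R' := by
  intro h
  apply (S.mem_Y.1 hy).2.1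
  rw [(S.mem_L.1 h).2]
  exact S.per_f hR'

lemma L_not_mem_Y {R R' x : ι} (hR : S.Per R) (hx : x ∈ S.L R) : x ∉ S.Y R' :=
  fun h => S.Y_not_mem_L hR h hx

lemma L_disj {R R' x : ι} (hR : S.Per R) (hR' : S.Per R') (hne : R ≠ R') (hx : x ∈ S.L R) :
    x ∉ S.L R' := by
  intro h
  exact hne ((S.e_of_L hR hx).symm.trans (S.e_of_L hR' h))

/-- if the fibre of `R'` is large then `Y R` is empty -/
lemma Y_empty {R R' : ι} (hR' : S.Per R') (hR : S.Per R) (hne : R' ≠ R)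
    (h : S.mu.card + 1 ≤ (S.L R').card) : S.Y R = ∅ := by
  rw [Finset.eq_empty_iff_forall_notMem]
  intro y hy
  have hyR : y ≠ R := by
    rintro rfl
    exact S.Y_not_self hR hy
  have := S.card_eqdist hyR (T := S.L R') (S.Y_not_mem_L hR' hy) (S.L_not_self hR) (by
    intro z hz v
    rw [S.δ_comm v z y, S.cross v hR' hR hne hy hz, S.one_L v hR' hR hne.symm hz])
  omega

/-- if the fibre of `R'` has a strictly preperiodic point then `Y R` is small -/
lemma card_Y_le {R R' : ι} (hR' : S.Per R') (hR : S.Per R) (hne : R' ≠ R)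
    (h : (S.L R').Nonempty) : (S.Y R).card ≤ S.mu.card := by
  obtain ⟨z, hz⟩ := h
  have hzR : R' ≠ z := by
    rintro rfl
    exact S.L_not_self hR' hz
  exact S.card_eqdist hzR (T := S.Y R) (S.Y_not_self hR') (S.L_not_mem_Y hR' hz)
    (fun y hy v => by rw [S.cross v hR' hR hne hy hz, S.one_Y v hR' hne hy])

/-- local inequality at the fibre of a periodic point -/
lemma prod_L_le (v : V) {R P : ι} (hR : S.Per R) :
    S.δ v (S.f P) (S.f R) ≤ ∏ x ∈ insert R (S.L R), S.δ v P x := by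
  apply S.hA v
  intro x hx
  rcases Finset.mem_insert.1 hx with rfl | hx
  · rfl
  · exact (S.mem_L.1 hx).2

/-- two points, small products -/
lemma card_le_four {y1 y2 : ι} (hy : y1 ≠ y2) {T : Finset ι} (h1 : y1 ∉ T) (h2 : y2 ∉ T)
    (h : (∏ x ∈ T, S.D y1 x) * (∏ x ∈ T, S.D y2 x) ≤ 4) :
    T.card ≤ S.mu.card + 4 * S.e := by
  classical
  rw [← Finset.prod_mul_distrib] at h
  have hge : ∀ x ∈ T, 1 ≤ S.D y1 x ∧ 1 ≤ S.D y2 x := fun x hx =>
    ⟨S.one_le_D (fun e => h1 (e ▸ hx)), S.one_le_D (fun e => h2 (e ▸ hx))⟩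
  set T1 := T.filter (fun x => (S.D y1 x * S.D y2 x) ^ (2 * S.e) < 2) with hT1
  set T2 := T.filter (fun x => ¬ (S.D y1 x * S.D y2 x) ^ (2 * S.e) < 2) with hT2
  have hc1 : T1.card ≤ S.mu.card := by
    apply S.card_le_mu hy (fun h => h1 (Finset.mem_filter.1 h).1)
      (fun h => h2 (Finset.mem_filter.1 h).1)
    intro x hx x' hx' v
    obtain ⟨hxT, hx2⟩ := Finset.mem_filter.1 hx
    obtain ⟨hxT', hx2'⟩ := Finset.mem_filter.1 hx'
    obtain ⟨a1, a2⟩ := hge x hxT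
    obtain ⟨b1, b2⟩ := hge x' hxT'
    have hle1 : S.δ v x y1 * S.δ v x' y2 ≤ 1 := by
      have := S.le_one v x y1
      have := S.le_one v x' y2
      have := S.δ_nonneg v x y1
      have := S.δ_nonneg v x' y2
      nlinarith
    have q1 := S.one_le_Dδ v (i := x) (j := y2) (fun e => h2 (e ▸ hxT))
    have q2 := S.one_le_Dδ v (i := x') (j := y1) (fun e => h1 (e ▸ hxT'))
    rw [S.D_comm x y2] at q1
    rw [S.D_comm x' y1] at q2
    -- `(D(x,y2) D(x',y1))^e < 2`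
    have r1 : S.D y2 x ^ (2 * S.e) < 2 := by
      refine lt_of_le_of_lt ?_ hx2
      apply pow_le_pow_left₀ (by linarith)
      nlinarith
    have r2 : S.D y1 x' ^ (2 * S.e) < 2 := by
      refine lt_of_le_of_lt ?_ hx2'
      apply pow_le_pow_left₀ (by linarith)
      nlinarith
    have r3 : (S.D y2 x ^ S.e) ^ 2 < 2 := by rwa [← pow_mul, mul_comm]
    have r4 : (S.D y1 x' ^ S.e) ^ 2 < 2 := by rwa [← pow_mul, mul_comm]
    have s1 : 1 ≤ S.D y2 x ^ S.e := one_le_pow₀ a2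
    have s2 : 1 ≤ S.D y1 x' ^ S.e := one_le_pow₀ b1
    have r5 : S.D y2 x ^ S.e * S.D y1 x' ^ S.e < 2 := by nlinarith
    set X := S.D y2 x ^ S.e
    set X' := S.D y1 x' ^ S.e
    have t1 : 0 ≤ S.δ v x y2 := S.δ_nonneg v _ _
    have t2 : 0 ≤ S.δ v x' y1 := S.δ_nonneg v _ _
    have u1 : 1 ≤ (X * X') * (S.δ v x y2 * S.δ v x' y1) := by
      calc (1:ℝ) = 1 * 1 := (one_mul 1).symm
        _ ≤ (X * S.δ v x y2) * (X' * S.δ v x' y1) :=
          mul_le_mul q1 q2 zero_le_one (by positivity)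
        _ = _ := by ring
    have u2 : 0 ≤ S.δ v x y2 * S.δ v x' y1 := mul_nonneg t1 t2
    have u3 : (X * X') * (S.δ v x y2 * S.δ v x' y1) < 2 * (S.δ v x y2 * S.δ v x' y1) := by
      apply mul_lt_mul_of_pos_right r5
      rcases u2.eq_or_lt with h0 | h0
      · rw [← h0, mul_zero] at u1
        linarith
      · exact h0
    linarith
  have hc2 : T2.card ≤ 4 * S.e := by
    have h3 : (2:ℝ) ^ T2.card ≤ ∏ x ∈ T2, (S.D y1 x * S.D y2 x) ^ (2 * S.e) := by
      apply pow_le_prod_real _ _ (by norm_num)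
      intro x hx
      exact not_lt.1 (Finset.mem_filter.1 hx).2
    have h4 : ∏ x ∈ T2, (S.D y1 x * S.D y2 x) ^ (2 * S.e) ≤ 4 ^ (2 * S.e) := by
      rw [Finset.prod_pow]
      apply pow_le_pow_left₀
      · exact Finset.prod_nonneg (fun x _ => mul_nonneg (S.D_nonneg _ _) (S.D_nonneg _ _))
      · refine le_trans ?_ h
        rw [← Finset.prod_filter_mul_prod_filter_not T
          (fun x => (S.D y1 x * S.D y2 x) ^ (2 * S.e) < 2)]
        have h5 : (1:ℝ) ≤ ∏ x ∈ T with (S.D y1 x * S.D y2 x) ^ (2 * S.e) < 2,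
            S.D y1 x * S.D y2 x := by
          have := pow_le_prod_real (T.filter (fun x => (S.D y1 x * S.D y2 x) ^ (2 * S.e) < 2))
            (fun x => S.D y1 x * S.D y2 x) zero_le_one (by
              intro x hx
              obtain ⟨a1, a2⟩ := hge x (Finset.mem_filter.1 hx).1
              nlinarith)
          rwa [one_pow] at this
        have h6 : 0 ≤ ∏ x ∈ T2, S.D y1 x * S.D y2 x :=
          Finset.prod_nonneg (fun x _ => mul_nonneg (S.D_nonneg _ _) (S.D_nonneg _ _))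
        calc _ = 1 * ∏ x ∈ T2, S.D y1 x * S.D y2 x := (one_mul _).symm
          _ ≤ _ := mul_le_mul_of_nonneg_right h5 h6
    have h7 : (4:ℝ) ^ (2 * S.e) = 2 ^ (4 * S.e) := by
      rw [show (4:ℝ) = 2 ^ 2 by norm_num, ← pow_mul]
      congr 1
      ring
    rw [h7] at h4
    exact (pow_le_pow_iff_right₀ (by norm_num : (1:ℝ) < 2)).1 (h3.trans h4)
  have h6 := Finset.card_filter_add_card_filter_not (s := T)
    (fun x => (S.D y1 x * S.D y2 x) ^ (2 * S.e) < 2)
  change T1.card + T2.card = T.card at h6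
  omega

/-! ### the basin of a fixed point -/

lemma root_aux {R : ι} (hR : S.f R = R) {z : ι} (hz : ¬ S.Per z) (hez : S.ep z = R) :
    ∃ P ∈ S.L R, ∀ v, S.δ v P R ≤ S.δ v z R := by
  have key : ∀ m : ℕ, ∀ z : ι, S.Per (S.f^[m] z) → ¬ S.Per z → S.ep z = R →
      ∃ P ∈ S.L R, ∀ v, S.δ v P R ≤ S.δ v z R := by
    intro m
    induction m with
    | zero => intro z h1 h2; exact absurd h1 h2
    | succ m ih =>
      intro z h1 h2 h3
      rw [Function.iterate_succ_apply] at h1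
      by_cases hfz : S.Per (S.f z)
      · refine ⟨z, ?_, fun v => le_rfl⟩
        rw [mem_L]
        refine ⟨h2, ?_⟩
        have : S.ep (S.f z) = S.f z := hfz
        rw [← this, e_f, h3]
      · obtain ⟨P, hP, hd⟩ := ih (S.f z) h1 hfz (by rw [e_f, h3, hR])
        exact ⟨P, hP, fun v => (hd v).trans (S.hA_one v hR)⟩
  exact key S.M z (S.per_e z) hz hez

/-- the root of a point of `Y R`, for a fixed point `R` -/
lemma root {R : ι} (hR : S.f R = R) {y : ι} (hy : y ∈ S.Y R) :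
    ∃ P ∈ S.L R, ∀ v, S.δ v P R ≤ ∏ x ∈ insert R (S.L R), S.δ v y x := by
  have hy' := S.mem_Y.1 hy
  have hPR : S.Per R := by rw [← hy'.2.2]; exact S.per_e y
  obtain ⟨P, hP, hd⟩ := S.root_aux hR hy'.2.1 (by rw [e_f, hy'.2.2, hR])
  refine ⟨P, hP, fun v => (hd v).trans ?_⟩
  have := S.prod_L_le v (P := y) hPR
  rwa [hR] at this

lemma root_eq {R : ι} (hPR : S.Per R) {y P : ι} (hP : P ∈ S.L R)
    (h : ∀ v, S.δ v P R ≤ ∏ x ∈ insert R (S.L R), S.δ v y x) (v : V) :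
    S.δ v y P = S.δ v y R := by
  apply S.threepoint
  refine (h v).trans ?_
  rw [Finset.prod_insert (S.L_not_self hPR), ← Finset.mul_prod_erase _ _ hP]
  have h1 : ∏ x ∈ (S.L R).erase P, S.δ v y x ≤ 1 :=
    Finset.prod_le_one (fun x _ => S.δ_nonneg v y x) (fun x _ => S.le_one v y x)
  have h2 := S.δ_nonneg v y R
  have h3 := S.δ_nonneg v y P
  calc _ = (S.δ v y P * S.δ v y R) * ∏ x ∈ (S.L R).erase P, S.δ v y x := by ring
    _ ≤ (S.δ v y P * S.δ v y R) * 1 := mul_le_mul_of_nonneg_left h1 (by positivity)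
    _ = _ := mul_one _

/-- the global inequality at the root -/
lemma root_D {R : ι} (hPR : S.Per R) {y P : ι} (hy : y ∈ S.Y R) (hP : P ∈ S.L R)
    (h : ∀ v, S.δ v P R ≤ ∏ x ∈ insert R (S.L R), S.δ v y x) :
    S.D y R * (S.D y P * ∏ x ∈ (S.L R).erase P, S.D y x) ≤ S.D P R := by
  have h1 := S.mono (i := P) (j := R) (y := y) (T := insert R (S.L R))
    (by rintro rfl; exact S.L_not_self hPR hP) (by
      rw [Finset.mem_insert, not_or]
      exact ⟨by rintro rfl; exact S.Y_not_self hPR hy, S.Y_not_mem_L hPR hy⟩) h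
  rwa [Finset.prod_insert (S.L_not_self hPR), ← Finset.mul_prod_erase _ _ hP] at h1

lemma root_eq_D {R : ι} (hPR : S.Per R) {y P : ι} (hy : y ∈ S.Y R) (hP : P ∈ S.L R)
    (h : ∀ v, S.δ v P R ≤ ∏ x ∈ insert R (S.L R), S.δ v y x) : S.D y P = S.D y R :=
  S.D_eq (by rintro rfl; exact S.Y_not_mem_L hPR hy hP)
    (by rintro rfl; exact S.Y_not_self hPR hy) (S.root_eq hPR hP h)

lemma card_Y_le_mul {R : ι} (hR : S.f R = R) (hPR : S.Per R) :
    (S.Y R).card ≤ S.mu.card * (S.L R).card := by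
  classical
  have hsub : S.Y R ⊆ (S.L R).biUnion
      (fun P => (S.Y R).filter (fun y => ∀ v, S.δ v y P = S.δ v y R)) := by
    intro y hy
    obtain ⟨P, hP, h⟩ := S.root hR hy
    rw [Finset.mem_biUnion]
    exact ⟨P, hP, Finset.mem_filter.2 ⟨hy, S.root_eq hPR hP h⟩⟩
  refine (Finset.card_le_card hsub).trans
    ((Finset.card_biUnion_le_card_mul _ _ S.mu.card ?_).trans ?_)
  · intro P hP
    apply S.card_eqdist (A := P) (B := R)
    · rintro rfl
      exact S.L_not_self hPR hP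
    · intro h
      exact S.L_not_mem_Y hPR hP (Finset.mem_filter.1 h).1
    · intro h
      exact S.Y_not_self hPR (Finset.mem_filter.1 h).1
    · intro y hy v
      exact (Finset.mem_filter.1 hy).2 v
  · rw [mul_comm]

/-- two points of `Y R` with the same root -/
lemma same_root {R : ι} (hPR : S.Per R) {y1 y2 P : ι} (hy1 : y1 ∈ S.Y R)
    (hy2 : y2 ∈ S.Y R) (hne : y1 ≠ y2) (hP : P ∈ S.L R)
    (h1 : ∀ v, S.δ v P R ≤ ∏ x ∈ insert R (S.L R), S.δ v y1 x)
    (h2 : ∀ v, S.δ v P R ≤ ∏ x ∈ insert R (S.L R), S.δ v y2 x) :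
    (S.L R).card ≤ S.mu.card + 4 * S.e + 1 := by
  classical
  have e1 := S.root_eq_D hPR hy1 hP h1
  have e2 := S.root_eq_D hPR hy2 hP h2
  have h1' := S.root_D hPR hy1 hP h1
  have h2' := S.root_D hPR hy2 hP h2
  have hw1 : 1 ≤ S.D y1 R := S.one_le_D (by rintro rfl; exact S.Y_not_self hPR hy1)
  have hw2 : 1 ≤ S.D y2 R := S.one_le_D (by rintro rfl; exact S.Y_not_self hPR hy2)
  have hpt := S.ptolemy P R y1 y2
  rw [S.D_comm P y1, S.D_comm R y2, S.D_comm P y2, S.D_comm R y1, e1, e2] at hpt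
  have hD : 1 ≤ S.D y1 y2 := S.one_le_D hne
  rw [e1] at h1'
  rw [e2] at h2'
  have hle : (∏ x ∈ (S.L R).erase P, S.D y1 x) * (∏ x ∈ (S.L R).erase P, S.D y2 x) ≤ 4 := by
    have hp1 : 0 ≤ ∏ x ∈ (S.L R).erase P, S.D y1 x :=
      Finset.prod_nonneg (fun x _ => S.D_nonneg _ _)
    have hp2 : 0 ≤ ∏ x ∈ (S.L R).erase P, S.D y2 x :=
      Finset.prod_nonneg (fun x _ => S.D_nonneg _ _)
    set w1 := S.D y1 R
    set w2 := S.D y2 R
    set q := S.D P R
    set p1 := ∏ x ∈ (S.L R).erase P, S.D y1 x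
    set p2 := ∏ x ∈ (S.L R).erase P, S.D y2 x
    have hq0 : 0 ≤ q := S.D_nonneg P R
    have hq2 : q ≤ 2 * (w1 * w2) := by nlinarith
    have hw : 0 < w1 * w2 := by positivity
    have h3 : (w1 * (w1 * p1)) * (w2 * (w2 * p2)) ≤ (2 * (w1 * w2)) * (2 * (w1 * w2)) :=
      mul_le_mul (h1'.trans hq2) (h2'.trans hq2) (by positivity) (by positivity)
    have h4 : (w1 * w2) * (w1 * w2) * (p1 * p2) ≤ (w1 * w2) * (w1 * w2) * 4 := by
      calc _ = (w1 * (w1 * p1)) * (w2 * (w2 * p2)) := by ring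
        _ ≤ _ := h3
        _ = _ := by ring
    exact le_of_mul_le_mul_left h4 (by positivity)
  have := S.card_le_four hne (T := (S.L R).erase P)
    (fun h => S.Y_not_mem_L hPR hy1 (Finset.mem_of_mem_erase h))
    (fun h => S.Y_not_mem_L hPR hy2 (Finset.mem_of_mem_erase h)) hle
  rw [Finset.card_erase_of_mem hP] at this
  omega

/-- two points of `Y R` with different roots -/
lemma diff_root {R : ι} (hPR : S.Per R) {y1 y2 P1 P2 : ι} (hy1 : y1 ∈ S.Y R)
    (hy2 : y2 ∈ S.Y R) (hne : y1 ≠ y2) (hP1 : P1 ∈ S.L R) (hP2 : P2 ∈ S.L R) (hP : P1 ≠ P2)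
    (h1 : ∀ v, S.δ v P1 R ≤ ∏ x ∈ insert R (S.L R), S.δ v y1 x)
    (h2 : ∀ v, S.δ v P2 R ≤ ∏ x ∈ insert R (S.L R), S.δ v y2 x) :
    (S.L R).card ≤ S.mu.card + 4 * S.e + 2 := by
  classical
  have e1 := S.root_eq_D hPR hy1 hP1 h1
  have e2 := S.root_eq_D hPR hy2 hP2 h2
  have h1' := S.root_D hPR hy1 hP1 h1
  have h2' := S.root_D hPR hy2 hP2 h2
  have hw1 : 1 ≤ S.D y1 R := S.one_le_D (by rintro rfl; exact S.Y_not_self hPR hy1)
  have hw2 : 1 ≤ S.D y2 R := S.one_le_D (by rintro rfl; exact S.Y_not_self hPR hy2)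
  have hx1 : 1 ≤ S.D y1 P2 := S.one_le_D (by rintro rfl; exact S.Y_not_mem_L hPR hy1 hP2)
  have hx2 : 1 ≤ S.D y2 P1 := S.one_le_D (by rintro rfl; exact S.Y_not_mem_L hPR hy2 hP1)
  have hD : 1 ≤ S.D y1 y2 := S.one_le_D hne
  have hpt1 := S.ptolemy P1 R y1 y2
  rw [S.D_comm P1 y1, S.D_comm R y2, S.D_comm P1 y2, S.D_comm R y1, e1] at hpt1
  have hpt2 := S.ptolemy P2 R y1 y2
  rw [S.D_comm P2 y1, S.D_comm R y2, S.D_comm P2 y2, S.D_comm R y1, e2] at hpt2
  have m2 : P2 ∈ (S.L R).erase P1 := Finset.mem_erase.2 ⟨hP.symm, hP2⟩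
  have m1 : P1 ∈ (S.L R).erase P2 := Finset.mem_erase.2 ⟨hP, hP1⟩
  rw [← Finset.mul_prod_erase _ _ m2, e1] at h1'
  rw [← Finset.mul_prod_erase _ _ m1, e2, Finset.erase_right_comm] at h2'
  have hle : (∏ x ∈ ((S.L R).erase P1).erase P2, S.D y1 x) *
      (∏ x ∈ ((S.L R).erase P1).erase P2, S.D y2 x) ≤ 4 := by
    have hp1 : 0 ≤ ∏ x ∈ ((S.L R).erase P1).erase P2, S.D y1 x :=
      Finset.prod_nonneg (fun x _ => S.D_nonneg _ _)
    have hp2 : 0 ≤ ∏ x ∈ ((S.L R).erase P1).erase P2, S.D y2 x :=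
      Finset.prod_nonneg (fun x _ => S.D_nonneg _ _)
    set w1 := S.D y1 R
    set w2 := S.D y2 R
    set x1 := S.D y1 P2
    set x2 := S.D y2 P1
    set q1 := S.D P1 R
    set q2 := S.D P2 R
    set p1 := ∏ x ∈ ((S.L R).erase P1).erase P2, S.D y1 x
    set p2 := ∏ x ∈ ((S.L R).erase P1).erase P2, S.D y2 x
    have hq1 : 0 ≤ q1 := S.D_nonneg P1 R
    have hq2 : 0 ≤ q2 := S.D_nonneg P2 R
    have a1 : q1 ≤ w1 * (w2 + x2) := by nlinarith
    have a2 : q2 ≤ w2 * (w1 + x1) := by nlinarith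
    have b1 : w1 * x1 * p1 ≤ w2 + x2 := by
      apply le_of_mul_le_mul_left _ (by positivity : 0 < w1)
      calc w1 * (w1 * x1 * p1) = w1 * (w1 * (x1 * p1)) := by ring
        _ ≤ q1 := h1'
        _ ≤ _ := a1
    have b2 : w2 * x2 * p2 ≤ w1 + x1 := by
      apply le_of_mul_le_mul_left _ (by positivity : 0 < w2)
      calc w2 * (w2 * x2 * p2) = w2 * (w2 * (x2 * p2)) := by ring
        _ ≤ q2 := h2'
        _ ≤ _ := a2
    have c3 : w1 + x1 ≤ 2 * (w1 * x1) := by nlinarith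
    have c4 : w2 + x2 ≤ 2 * (w2 * x2) := by nlinarith
    have h3 : (w1 * x1 * p1) * (w2 * x2 * p2) ≤ (2 * (w2 * x2)) * (2 * (w1 * x1)) :=
      mul_le_mul (b1.trans c4) (b2.trans c3) (by positivity) (by positivity)
    have h4 : (w1 * x1) * (w2 * x2) * (p1 * p2) ≤ (w1 * x1) * (w2 * x2) * 4 := by
      calc _ = (w1 * x1 * p1) * (w2 * x2 * p2) := by ring
        _ ≤ _ := h3
        _ = _ := by ring
    exact le_of_mul_le_mul_left h4 (by positivity)
  have := S.card_le_four hne (T := ((S.L R).erase P1).erase P2)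
    (fun h => S.Y_not_mem_L hPR hy1 (Finset.mem_of_mem_erase (Finset.mem_of_mem_erase h)))
    (fun h => S.Y_not_mem_L hPR hy2 (Finset.mem_of_mem_erase (Finset.mem_of_mem_erase h))) hle
  rw [Finset.card_erase_of_mem m2, Finset.card_erase_of_mem hP1] at this
  omega

lemma card_Y_le_one {R : ι} (hR : S.f R = R) (hPR : S.Per R)
    (h : S.mu.card + 4 * S.e + 3 ≤ (S.L R).card) : (S.Y R).card ≤ 1 := by
  rw [Finset.card_le_one]
  intro y1 hy1 y2 hy2
  by_contra hne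
  obtain ⟨P1, hP1, h1⟩ := S.root hR hy1
  obtain ⟨P2, hP2, h2⟩ := S.root hR hy2
  by_cases hP : P1 = P2
  · subst hP
    have := S.same_root hPR hy1 hy2 hne hP1 h1 h2
    omega
  · have := S.diff_root hPR hy1 hy2 hne hP1 hP2 hP h1 h2
    omega

end Sys

end Pool.Agent.TH856.PG
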