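import Pool.Agent.TH856.PG.FormsR

set_option autoImplicit false

/-!
# Finite invariant sets of a map with everywhere potentially good reduction

`K` is a field with finite places `av v` and one archimedean absolute value `nrm`, with a product
formula of exponent `e` and a finite group `mu` of units.
-/

namespace Pool.Agent.TH856.PG

open Finset Function

section
variable {K : Type*} [CommRing K]

lemma dt_comm (a b : K × K) : dt a b = - dt b a := by unfold dt; ring

lemma dt_self (a : K × K) : dt a a = 0 := by unfold dt; ring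

lemma plucker (a b c e : K × K) :
    dt a b * dt c e = dt a c * dt b e - dt a e * dt b c := by unfold dt; ring

end

/-- the data -/
structure Sys (K : Type) [Field K] (V : Type) (ι : Type) [Fintype ι] [DecidableEq ι] (d : ℕ) where
  av : V → AbsoluteValue K ℝ
  S0 : Finset V
  nrm : AbsoluteValue K ℝ
  e : ℕ
  he : 0 < e
  mu : Finset K
  hmu : ∀ z : K, z ≠ 0 → (∀ v, av v z = 1) → z ∈ mu
  disc : ∀ v z, 1 < av v z → 2 ≤ av v z
  w : ι → K × K
  inj : ∀ i j, i ≠ j → dt (w i) (w j) ≠ 0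
  N : V → ι → ℝ
  N_pos : ∀ v i, 0 < N v i
  triv : ∀ v, v ∉ S0 → ∀ i j, i ≠ j → av v (dt (w i) (w j)) / (N v i * N v j) = 1
  prodf : ∀ i j, i ≠ j → ∏ v ∈ S0, av v (dt (w i) (w j)) = (nrm (dt (w i) (w j)) ^ e)⁻¹
  le_one' : ∀ v i j, av v (dt (w i) (w j)) / (N v i * N v j) ≤ 1
  ultra' : ∀ v i j k, av v (dt (w i) (w k)) / (N v i * N v k) ≤
    max (av v (dt (w i) (w j)) / (N v i * N v j)) (av v (dt (w j) (w k)) / (N v j * N v k))
  f : ι → ι
  hA' : ∀ v P Q, av v (dt (w (f P)) (w Q)) / (N v (f P) * N v Q) ≤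
    ∏ P' ∈ univ.filter (fun P' => f P' = Q), (av v (dt (w P) (w P')) / (N v P * N v P'))
  hB : ∀ Q, (univ.filter (fun P' => f P' = Q)).card ≤ d
  hC : ∀ α β γ δ : K, α * δ - β * γ ≠ 0 → ∀ s : Finset ι,
    (∀ i ∈ s, dt (w (f i)) (α * (w i).1 + β * (w i).2, γ * (w i).1 + δ * (w i).2) = 0) →
    s.card ≤ d + 1
  M : ℕ
  hM : 0 < M
  idem : ∀ x, f^[M] (f^[M] x) = f^[M] x
  Bd : ℕ
  pack : ∀ (s : ℝ), 0 < s → ∀ T : Finset K, (∀ z ∈ T, nrm z ≤ 2 * s) →
    (∀ z ∈ T, ∀ z' ∈ T, z ≠ z' → s ≤ nrm (z - z')) → T.card ≤ Bd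

namespace Sys

variable {K : Type} [Field K] {V : Type} {ι : Type} [Fintype ι] [DecidableEq ι] {d : ℕ}
  (S : Sys K V ι d)

/-- bracket -/
def c (i j : ι) : K := dt (S.w i) (S.w j)

/-- local distance -/
noncomputable def δ (v : V) (i j : ι) : ℝ := S.av v (S.c i j) / (S.N v i * S.N v j)

lemma c_ne {i j : ι} (h : i ≠ j) : S.c i j ≠ 0 := S.inj i j h

lemma c_self (i : ι) : S.c i i = 0 := dt_self _

lemma c_comm (i j : ι) : S.c i j = - S.c j i := dt_comm _ _

lemma pl (a b c e : ι) : S.c a b * S.c c e = S.c a c * S.c b e - S.c a e * S.c b c :=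
  plucker _ _ _ _

lemma δ_comm (v : V) (i j : ι) : S.δ v i j = S.δ v j i := by
  unfold δ
  rw [c_comm, AbsoluteValue.map_neg, mul_comm (S.N v i)]

lemma δ_self (v : V) (i : ι) : S.δ v i i = 0 := by
  unfold δ
  rw [c_self, map_zero, zero_div]

lemma δ_nonneg (v : V) (i j : ι) : 0 ≤ S.δ v i j := by
  unfold δ
  have := S.N_pos v i
  have := S.N_pos v j
  have := (S.av v).nonneg (S.c i j)
  positivity

lemma δ_pos (v : V) {i j : ι} (h : i ≠ j) : 0 < S.δ v i j := by
  unfold δ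
  have := S.N_pos v i
  have := S.N_pos v j
  have := (S.av v).pos (S.c_ne h)
  positivity

lemma le_one (v : V) (i j : ι) : S.δ v i j ≤ 1 := S.le_one' v i j

lemma ultra (v : V) (i j k : ι) : S.δ v i k ≤ max (S.δ v i j) (S.δ v j k) := S.ultra' v i j k

lemma av_c (v : V) (i j : ι) : S.av v (S.c i j) = S.δ v i j * (S.N v i * S.N v j) := by
  unfold δ
  have := S.N_pos v i
  have := S.N_pos v j
  field_simp

/-- (A) for a subset of a fibre -/
lemma hA (v : V) {P Q : ι} {T : Finset ι} (hT : ∀ x ∈ T, S.f x = Q) :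
    S.δ v (S.f P) Q ≤ ∏ x ∈ T, S.δ v P x := by
  refine (S.hA' v P Q).trans ?_
  have hsub : T ⊆ univ.filter (fun P' => S.f P' = Q) := fun x hx => by simpa using hT x hx
  rw [← Finset.prod_sdiff hsub]
  have h1 : ∏ x ∈ univ.filter (fun P' => S.f P' = Q) \ T, (S.av v (dt (S.w P) (S.w x)) /
      (S.N v P * S.N v x)) ≤ 1 := by
    apply Finset.prod_le_one
    · intro x _
      exact S.δ_nonneg v P x
    · intro x _
      exact S.le_one v P x
  have h2 : 0 ≤ ∏ x ∈ T, S.δ v P x := Finset.prod_nonneg (fun x _ => S.δ_nonneg v P x)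
  calc _ ≤ 1 * ∏ x ∈ T, S.δ v P x := mul_le_mul_of_nonneg_right h1 h2
    _ = _ := one_mul _

lemma hA_one (v : V) {P Q x : ι} (hx : S.f x = Q) : S.δ v (S.f P) Q ≤ S.δ v P x := by
  have := S.hA v (P := P) (Q := Q) (T := {x}) (by simpa using hx)
  simpa using this

lemma hA_two (v : V) {P Q x y : ι} (hx : S.f x = Q) (hy : S.f y = Q) (hxy : x ≠ y) :
    S.δ v (S.f P) Q ≤ S.δ v P x * S.δ v P y := by
  have := S.hA v (P := P) (Q := Q) (T := {x, y}) (by
    intro z hz
    rcases Finset.mem_insert.1 hz with rfl | hz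
    · exact hx
    · rw [Finset.mem_singleton.1 hz]; exact hy)
  rwa [Finset.prod_pair hxy] at this

/-! ### global distance -/

/-- the global weight of a point -/
noncomputable def h (i : ι) : ℝ := (∏ v ∈ S.S0, S.N v i) ^ ((S.e : ℝ)⁻¹)

lemma prodN_pos (i : ι) : 0 < ∏ v ∈ S.S0, S.N v i := Finset.prod_pos (fun v _ => S.N_pos v i)

lemma h_pos (i : ι) : 0 < S.h i := Real.rpow_pos_of_pos (S.prodN_pos i) _

lemma h_pow (i : ι) : S.h i ^ S.e = ∏ v ∈ S.S0, S.N v i :=
  Real.rpow_inv_natCast_pow (S.prodN_pos i).le S.he.ne'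

/-- the global distance -/
noncomputable def D (i j : ι) : ℝ := S.nrm (S.c i j) * (S.h i * S.h j)

lemma D_comm (i j : ι) : S.D i j = S.D j i := by
  unfold D
  rw [c_comm, AbsoluteValue.map_neg, mul_comm (S.h i)]

lemma D_pos {i j : ι} (hij : i ≠ j) : 0 < S.D i j := by
  unfold D
  have := S.h_pos i
  have := S.h_pos j
  have := S.nrm.pos (S.c_ne hij)
  positivity

lemma D_nonneg (i j : ι) : 0 ≤ S.D i j := by
  unfold D
  have := S.h_pos i
  have := S.h_pos j
  have := S.nrm.nonneg (S.c i j)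
  positivity

lemma D_pow {i j : ι} (hij : i ≠ j) : S.D i j ^ S.e * ∏ v ∈ S.S0, S.δ v i j = 1 := by
  unfold D δ
  rw [Finset.prod_div_distrib, Finset.prod_mul_distrib, ← S.h_pow, ← S.h_pow,
    show ∏ v ∈ S.S0, S.av v (S.c i j) = (S.nrm (S.c i j) ^ S.e)⁻¹ from S.prodf i j hij,
    mul_pow, mul_pow]
  have h1 : 0 < S.h i ^ S.e := pow_pos (S.h_pos i) _
  have h2 : 0 < S.h j ^ S.e := pow_pos (S.h_pos j) _
  have h3 : 0 < S.nrm (S.c i j) ^ S.e := pow_pos (S.nrm.pos (S.c_ne hij)) _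
  field_simp

lemma one_le_D {i j : ι} (hij : i ≠ j) : 1 ≤ S.D i j := by
  have h1 := S.D_pow hij
  have h2 : ∏ v ∈ S.S0, S.δ v i j ≤ 1 :=
    Finset.prod_le_one (fun v _ => S.δ_nonneg v i j) (fun v _ => S.le_one v i j)
  have h3 : 0 ≤ S.D i j ^ S.e := pow_nonneg (S.D_nonneg i j) _
  have h4 : 1 ≤ S.D i j ^ S.e := by
    calc (1:ℝ) = S.D i j ^ S.e * ∏ v ∈ S.S0, S.δ v i j := h1.symm
      _ ≤ S.D i j ^ S.e * 1 := mul_le_mul_of_nonneg_left h2 h3
      _ = _ := mul_one _
  by_contra hlt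
  push Not at hlt
  have := pow_lt_one₀ (S.D_nonneg i j) hlt S.he.ne'
  linarith

/-- local distances are bounded below by the global one -/
lemma one_le_Dδ (v : V) {i j : ι} (hij : i ≠ j) : 1 ≤ S.D i j ^ S.e * S.δ v i j := by
  classical
  by_cases hv : v ∈ S.S0
  · rw [← S.D_pow hij, ← Finset.mul_prod_erase _ _ hv]
    have h1 : ∏ x ∈ S.S0.erase v, S.δ x i j ≤ 1 :=
      Finset.prod_le_one (fun v _ => S.δ_nonneg v i j) (fun v _ => S.le_one v i j)
    have h2 : 0 ≤ S.D i j ^ S.e := pow_nonneg (S.D_nonneg i j) _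
    apply mul_le_mul_of_nonneg_left _ h2
    calc _ ≤ S.δ v i j * 1 := mul_le_mul_of_nonneg_left h1 (S.δ_nonneg v i j)
      _ = _ := mul_one _
  · have h1 : S.δ v i j = 1 := S.triv v hv i j hij
    rw [h1, mul_one]
    exact one_le_pow₀ (S.one_le_D hij)

/-- local to global -/
lemma mono {i j y : ι} (hij : i ≠ j) {T : Finset ι} (hy : y ∉ T)
    (hl : ∀ v, S.δ v i j ≤ ∏ x ∈ T, S.δ v y x) : ∏ x ∈ T, S.D y x ≤ S.D i j := by
  have hne : ∀ x ∈ T, y ≠ x := fun x hx e => hy (e ▸ hx)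
  have h1 : ∏ v ∈ S.S0, S.δ v i j ≤ ∏ v ∈ S.S0, ∏ x ∈ T, S.δ v y x :=
    Finset.prod_le_prod (fun v _ => S.δ_nonneg v i j) (fun v _ => hl v)
  rw [Finset.prod_comm] at h1
  have h2 : (∏ x ∈ T, S.D y x) ^ S.e * ∏ x ∈ T, ∏ v ∈ S.S0, S.δ v y x = 1 := by
    rw [← Finset.prod_pow, ← Finset.prod_mul_distrib]
    exact Finset.prod_eq_one (fun x hx => S.D_pow (hne x hx))
  have h3 := S.D_pow hij
  have h4 : 0 < ∏ v ∈ S.S0, S.δ v i j := Finset.prod_pos (fun v _ => S.δ_pos v hij)
  have h5 : 0 ≤ (∏ x ∈ T, S.D y x) ^ S.e :=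
    pow_nonneg (Finset.prod_nonneg (fun x _ => S.D_nonneg y x)) _
  have h6 : (∏ x ∈ T, S.D y x) ^ S.e ≤ S.D i j ^ S.e := by
    have h7 : (∏ x ∈ T, S.D y x) ^ S.e * ∏ v ∈ S.S0, S.δ v i j ≤
        S.D i j ^ S.e * ∏ v ∈ S.S0, S.δ v i j := by
      rw [h3, ← h2]
      exact mul_le_mul_of_nonneg_left h1 h5
    exact le_of_mul_le_mul_right h7 h4
  exact le_of_pow_le_pow_left₀ S.he.ne' (S.D_nonneg i j) h6

lemma D_eq {i j k l : ι} (hij : i ≠ j) (hkl : k ≠ l) (hl : ∀ v, S.δ v i j = S.δ v k l) :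
    S.D i j = S.D k l := by
  have h1 := S.D_pow hij
  have h2 := S.D_pow hkl
  have h3 : ∏ v ∈ S.S0, S.δ v i j = ∏ v ∈ S.S0, S.δ v k l :=
    Finset.prod_congr rfl (fun v _ => hl v)
  rw [h3] at h1
  have h4 : 0 < ∏ v ∈ S.S0, S.δ v k l := Finset.prod_pos (fun v _ => S.δ_pos v hkl)
  have h5 : S.D i j ^ S.e = S.D k l ^ S.e := mul_right_cancel₀ h4.ne' (h1.trans h2.symm)
  exact (pow_left_inj₀ (S.D_nonneg i j) (S.D_nonneg k l) S.he.ne').1 h5

lemma D_eq_one {i j : ι} (hij : i ≠ j) (hl : ∀ v, S.δ v i j = 1) : S.D i j = 1 := by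
  have h1 := S.D_pow hij
  have h3 : ∏ v ∈ S.S0, S.δ v i j = 1 := Finset.prod_eq_one (fun v _ => hl v)
  rw [h3, mul_one] at h1
  exact (pow_eq_one_iff_of_nonneg (S.D_nonneg i j) S.he.ne').1 h1

/-- Ptolemy's inequality -/
lemma ptolemy (a b c e : ι) :
    S.D a b * S.D c e ≤ S.D a c * S.D b e + S.D a e * S.D b c := by
  unfold D
  have h1 := S.h_pos a
  have h2 := S.h_pos b
  have h3 := S.h_pos c
  have h4 := S.h_pos e
  have key : S.nrm (S.c a b) * S.nrm (S.c c e) ≤
      S.nrm (S.c a c) * S.nrm (S.c b e) + S.nrm (S.c a e) * S.nrm (S.c b c) := by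
    rw [← map_mul, ← map_mul, ← map_mul, S.pl]
    rw [sub_eq_add_neg]
    refine (S.nrm.add_le _ _).trans (le_of_eq ?_)
    rw [AbsoluteValue.map_neg]
  have h5 : 0 < S.h a * S.h b * S.h c * S.h e := by positivity
  have := mul_le_mul_of_nonneg_right key h5.le
  calc _ = S.nrm (S.c a b) * S.nrm (S.c c e) * (S.h a * S.h b * S.h c * S.h e) := by ring
    _ ≤ _ := this
    _ = _ := by ring

/-- the main counting lemma -/
lemma card_le_mu {A B : ι} (hAB : A ≠ B) {T : Finset ι} (hAT : A ∉ T) (hBT : B ∉ T)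
    (hl : ∀ y ∈ T, ∀ y' ∈ T, ∀ v, S.δ v y A * S.δ v y' B < 2 * (S.δ v y B * S.δ v y' A)) :
    T.card ≤ S.mu.card := by
  classical
  rcases T.eq_empty_or_nonempty with rfl | ⟨y0, hy0⟩
  · simp
  have hA : ∀ y ∈ T, y ≠ A := fun y hy e => hAT (e ▸ hy)
  have hB : ∀ y ∈ T, y ≠ B := fun y hy e => hBT (e ▸ hy)
  let φ : ι → K := fun y => S.c y A * S.c y0 B / (S.c y B * S.c y0 A)
  have hφ0 : ∀ y ∈ T, φ y ≠ 0 := fun y hy =>
    div_ne_zero (mul_ne_zero (S.c_ne (hA y hy)) (S.c_ne (hB y0 hy0)))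
      (mul_ne_zero (S.c_ne (hB y hy)) (S.c_ne (hA y0 hy0)))
  have hav : ∀ y ∈ T, ∀ v, S.av v (φ y) =
      S.δ v y A * S.δ v y0 B / (S.δ v y B * S.δ v y0 A) := by
    intro y hy v
    simp only [φ]
    rw [map_div₀, map_mul, map_mul, S.av_c, S.av_c, S.av_c, S.av_c]
    have h1 := S.N_pos v y
    have h2 := S.N_pos v y0
    have h3 := S.N_pos v A
    have h4 := S.N_pos v B
    have h5 := S.δ_pos v (hB y hy)
    have h6 := S.δ_pos v (hA y0 hy0)
    field_simp
  have hmem : ∀ y ∈ T, φ y ∈ S.mu := by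
    intro y hy
    apply S.hmu _ (hφ0 y hy)
    intro v
    have h5 := S.δ_pos v (hB y hy)
    have h6 := S.δ_pos v (hA y0 hy0)
    have h7 := S.δ_pos v (hA y hy)
    have h8 := S.δ_pos v (hB y0 hy0)
    apply le_antisymm
    · by_contra hlt
      push Not at hlt
      have h1 := S.disc v _ hlt
      rw [hav y hy, le_div_iff₀ (by positivity)] at h1
      have h2 := hl y hy y0 hy0 v
      linarith
    · by_contra hlt
      push Not at hlt
      have hinv : 1 < S.av v (φ y)⁻¹ := by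
        rw [map_inv₀]
        exact (one_lt_inv₀ ((S.av v).pos (hφ0 y hy))).2 hlt
      have h1 := S.disc v _ hinv
      rw [map_inv₀, hav y hy, inv_div, le_div_iff₀ (by positivity)] at h1
      have h2 := hl y0 hy0 y hy v
      linarith
  apply Finset.card_le_card_of_injOn φ (fun y hy => hmem y (Finset.mem_coe.1 hy))
  intro y hy y' hy' hyy
  have hy := Finset.mem_coe.1 hy
  have hy' := Finset.mem_coe.1 hy'
  by_contra hne
  simp only [φ] at hyy
  rw [div_eq_div_iff (mul_ne_zero (S.c_ne (hB y hy)) (S.c_ne (hA y0 hy0)))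
    (mul_ne_zero (S.c_ne (hB y' hy')) (S.c_ne (hA y0 hy0)))] at hyy
  have h1 : S.c y A * S.c y' B = S.c y' A * S.c y B := by
    apply mul_right_cancel₀ (mul_ne_zero (S.c_ne (hB y0 hy0)) (S.c_ne (hA y0 hy0)))
    linear_combination hyy
  have h2 := S.pl y y' A B
  have h3 : S.c y y' * S.c A B = 0 := by rw [h2, h1]; ring
  rcases mul_eq_zero.1 h3 with h3 | h3
  · exact S.c_ne hne h3
  · exact S.c_ne hAB h3

/-- points with equal distances to two points -/
lemma card_eqdist {A B : ι} (hAB : A ≠ B) {T : Finset ι} (hAT : A ∉ T) (hBT : B ∉ T)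
    (hT : ∀ y ∈ T, ∀ v, S.δ v y A = S.δ v y B) : T.card ≤ S.mu.card := by
  apply S.card_le_mu hAB hAT hBT
  intro y hy y' hy' v
  rw [hT y hy v, hT y' hy' v]
  have h1 : 0 < S.δ v y B := S.δ_pos v (fun e => hBT (e ▸ hy))
  have h2 : 0 < S.δ v y' B := S.δ_pos v (fun e => hBT (e ▸ hy'))
  have := mul_pos h1 h2
  linarith

/-- three point lemma -/
lemma threepoint {y A B : ι} {v : V} (hl : S.δ v A B ≤ S.δ v y A * S.δ v y B) :
    S.δ v y A = S.δ v y B := by
  have h1 := S.δ_nonneg v y A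
  have h2 := S.δ_nonneg v y B
  have h3 := S.le_one v y A
  have h4 := S.le_one v y B
  have h5 : S.δ v A B ≤ S.δ v y A := hl.trans (by nlinarith)
  have h6 : S.δ v A B ≤ S.δ v y B := hl.trans (by nlinarith)
  apply le_antisymm
  · refine (S.ultra v y B A).trans (max_le le_rfl ?_)
    rw [S.δ_comm v B A]; exact h6
  · exact (S.ultra v y A B).trans (max_le le_rfl h5)

/-! ### periodic points -/

/-- the idempotent power of `f` -/
def ep (x : ι) : ι := S.f^[S.M] x

/-- periodic points -/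
def Per (x : ι) : Prop := S.ep x = x

instance : DecidablePred S.Per := fun x => by unfold Per; infer_instance

lemma e_e (x : ι) : S.ep (S.ep x) = S.ep x := S.idem x

lemma per_e (x : ι) : S.Per (S.ep x) := S.e_e x

lemma e_f (x : ι) : S.ep (S.f x) = S.f (S.ep x) := by
  unfold ep
  rw [← Function.iterate_succ_apply, Function.iterate_succ_apply']

lemma per_f {x : ι} (h : S.Per x) : S.Per (S.f x) := by
  unfold Per at *
  rw [e_f, h]

lemma f_inj {x y : ι} (hx : S.Per x) (hy : S.Per y) (h : S.f x = S.f y) : x = y := by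
  unfold Per ep at hx hy
  obtain ⟨n, hn⟩ := Nat.exists_eq_succ_of_ne_zero S.hM.ne'
  rw [hn, Function.iterate_succ_apply] at hx hy
  rw [← hx, ← hy, h]

lemma δ_f_le (v : V) (x y : ι) : S.δ v (S.f x) (S.f y) ≤ S.δ v x y := S.hA_one v rfl

lemma δ_iter_le (v : V) (x y : ι) (n : ℕ) : S.δ v (S.f^[n] x) (S.f^[n] y) ≤ S.δ v x y := by
  induction n with
  | zero => exact le_rfl
  | succ n ih =>
    rw [Function.iterate_succ_apply', Function.iterate_succ_apply']
    exact (S.δ_f_le v _ _).trans ih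

lemma δ_f (v : V) {x y : ι} (hx : S.Per x) (hy : S.Per y) :
    S.δ v (S.f x) (S.f y) = S.δ v x y := by
  apply le_antisymm (S.δ_f_le v x y)
  obtain ⟨n, hn⟩ := Nat.exists_eq_succ_of_ne_zero S.hM.ne'
  have := S.δ_iter_le v (S.f x) (S.f y) n
  rw [← Function.iterate_succ_apply, ← Function.iterate_succ_apply, ← hn] at this
  unfold Per ep at hx hy
  rwa [hx, hy] at this

/-- a strictly preperiodic point has distance one to every periodic point except its shadow -/
lemma shadow (v : V) {x R : ι} (hx : ¬ S.Per x) (hR : S.Per R) (hne : R ≠ S.ep x) :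
    S.δ v x R = 1 := by
  have key : ∀ m : ℕ, ∀ x R : ι, S.Per (S.f^[m] x) → ¬ S.Per x → S.Per R → R ≠ S.ep x →
      S.δ v x R = 1 := by
    intro m
    induction m with
    | zero => intro x R h1 h2; exact absurd h1 h2
    | succ m ih =>
      intro x R h1 h2 hR hne
      rw [Function.iterate_succ_apply] at h1
      have hfR : S.f R ≠ S.ep (S.f x) := by
        rw [e_f]
        intro h
        exact hne (S.f_inj hR (S.per_e x) h)
      apply le_antisymm (S.le_one v x R)
      by_cases hfx : S.Per (S.f x)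
      · have e1 : S.f (S.ep x) = S.f x := by rw [← e_f]; exact hfx
        have hxe : x ≠ S.ep x := fun h => h2 h.symm
        have h4 := S.hA_two v (P := R) (Q := S.f x) rfl e1 hxe
        rw [← e1, S.δ_f v hR (S.per_e x)] at h4
        have hpos : 0 < S.δ v R (S.ep x) := S.δ_pos v hne
        rw [S.δ_comm v x R]
        by_contra hlt
        push Not at hlt
        nlinarith
      · have h4 := S.hA_one v (P := R) (Q := S.f x) (x := x) rfl
        have h5 := ih (S.f x) (S.f R) h1 hfx (S.per_f hR) hfR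
        rw [S.δ_comm v (S.f R) (S.f x), h5] at h4
        rwa [S.δ_comm v x R]
  refine key S.M x R ?_ hx hR hne
  exact S.per_e x

/-- the set of periodic points -/
def per : Finset ι := univ.filter S.Per

/-- the set of strictly preperiodic points -/
def non : Finset ι := univ.filter (fun x => ¬ S.Per x)

lemma mem_per {x : ι} : x ∈ S.per ↔ S.Per x := by simp [per]

lemma mem_non {x : ι} : x ∈ S.non ↔ ¬ S.Per x := by simp [non]

lemma card_split : Fintype.card ι = S.per.card + S.non.card := by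
  unfold per non
  rw [Finset.card_filter_add_card_filter_not, Finset.card_univ]

lemma non_card_le_one (h : S.mu.card + 3 ≤ S.per.card) : S.non.card ≤ 1 := by
  by_contra hcon
  push Not at hcon
  obtain ⟨x, hx, y, hy, hxy⟩ := Finset.one_lt_card.1 hcon
  rw [mem_non] at hx hy
  have h1 : (S.per \ {S.ep x, S.ep y}).card ≤ S.mu.card := by
    apply S.card_eqdist hxy
    · intro h; exact hx (S.mem_per.1 (Finset.mem_sdiff.1 h).1)
    · intro h; exact hy (S.mem_per.1 (Finset.mem_sdiff.1 h).1)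
    intro R hR v
    simp only [mem_sdiff, mem_per, mem_insert, mem_singleton, not_or] at hR
    rw [S.δ_comm v R x, S.δ_comm v R y, S.shadow v hx hR.1 hR.2.1, S.shadow v hy hR.1 hR.2.2]
  have h2 := Finset.le_card_sdiff {S.ep x, S.ep y} S.per
  have h3 : ({S.ep x, S.ep y} : Finset ι).card ≤ 2 := Finset.card_le_two
  omega

lemma non_card_le (h : 3 ≤ S.per.card) : S.non.card ≤ 3 * S.mu.card := by
  obtain ⟨T, hT, hT3⟩ := Finset.exists_subset_card_eq h
  obtain ⟨A, B, C, hAB, hAC, hBC, rfl⟩ := Finset.card_eq_three.1 hT3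
  have hA : S.Per A := S.mem_per.1 (hT (by simp))
  have hB : S.Per B := S.mem_per.1 (hT (by simp))
  have hC : S.Per C := S.mem_per.1 (hT (by simp))
  have hsub : S.non ⊆ (S.non.filter (fun y => y ∉ ({A, B, C} : Finset ι) ∧ A ≠ S.ep y ∧
      B ≠ S.ep y)) ∪ ((S.non.filter (fun y => A ≠ S.ep y ∧ C ≠ S.ep y)) ∪
        (S.non.filter (fun y => B ≠ S.ep y ∧ C ≠ S.ep y))) := by
    intro x hx
    have hx' := S.mem_non.1 hx
    simp only [mem_union, mem_filter, hx, true_and]
    by_cases h1 : A = S.ep x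
    · right; right
      exact ⟨fun h => hAB (h1.trans h.symm), fun h => hAC (h1.trans h.symm)⟩
    · by_cases h2 : B = S.ep x
      · right; left
        exact ⟨h1, fun h => hBC (h2.trans h.symm)⟩
      · left
        refine ⟨?_, h1, h2⟩
        intro h
        simp only [mem_insert, mem_singleton] at h
        rcases h with rfl | rfl | rfl
        · exact hx' hA
        · exact hx' hB
        · exact hx' hC
  have hnm : ∀ (R : ι) (p : ι → Prop) [DecidablePred p], S.Per R → R ∉ S.non.filter p := by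
    intro R p _ hR h
    exact S.mem_non.1 (Finset.mem_filter.1 h).1 hR
  calc _ ≤ _ := Finset.card_le_card hsub
    _ ≤ _ := Finset.card_union_le _ _
    _ ≤ S.mu.card + (S.mu.card + S.mu.card) := by
      refine Nat.add_le_add ?_ ((Finset.card_union_le _ _).trans (Nat.add_le_add ?_ ?_))
      · apply S.card_eqdist hAB (hnm _ _ hA) (hnm _ _ hB)
        intro y hy v
        obtain ⟨h1, _, h2, h3⟩ := Finset.mem_filter.1 hy
        rw [S.shadow v (S.mem_non.1 h1) hA h2, S.shadow v (S.mem_non.1 h1) hB h3]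
      · apply S.card_eqdist hAC (hnm _ _ hA) (hnm _ _ hC)
        intro y hy v
        obtain ⟨h1, h2, h3⟩ := Finset.mem_filter.1 hy
        rw [S.shadow v (S.mem_non.1 h1) hA h2, S.shadow v (S.mem_non.1 h1) hC h3]
      · apply S.card_eqdist hBC (hnm _ _ hB) (hnm _ _ hC)
        intro y hy v
        obtain ⟨h1, h2, h3⟩ := Finset.mem_filter.1 hy
        rw [S.shadow v (S.mem_non.1 h1) hB h2, S.shadow v (S.mem_non.1 h1) hC h3]
    _ = _ := by ring

end Sys

end Pool.Agent.TH856.PG
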