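import Pool.Agent.TH856.PG.Core

set_option autoImplicit false

/-!
# The number of periodic points
-/

namespace Pool.Agent.TH856.PG

open Finset Function

namespace Sys

variable {K : Type} [Field K] {V : Type} {ι : Type} [Fintype ι] [DecidableEq ι] {d : ℕ}
  (S : Sys K V ι d)

lemma av_four (v : V) {A B C E : ι} :
    S.av v (S.c A B * S.c C E) = (S.δ v A B * S.δ v C E) *
      (S.N v A * S.N v B * S.N v C * S.N v E) := by
  rw [map_mul, S.av_c, S.av_c]; ring

/-- images of a product of brackets: the local factor is the same for the three products -/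
lemma av_four_f (v : V) {A B C E : ι} (hA : S.Per A) (hB : S.Per B) (hC : S.Per C)
    (hE : S.Per E) :
    S.av v (S.c (S.f A) (S.f B) * S.c (S.f C) (S.f E)) = (S.δ v A B * S.δ v C E) *
      (S.N v (S.f A) * S.N v (S.f B) * S.N v (S.f C) * S.N v (S.f E)) := by
  rw [S.av_four, S.δ_f v hA hB, S.δ_f v hC hE]

/-- algebra of the unit equation -/
lemma unit_alg {K : Type} [Field K] {x y z x' y' z' : K} (hx : x ≠ 0) (hy : y ≠ 0) (hz : z ≠ 0)
    (hx' : x' ≠ 0) (h : x = y - z) (h' : x' = y' - z')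
    (hbad : y * z' - z * y' ≠ 0) :
    let ζ := y' * x / (y * x'); let ζ' := z' * x / (z * x')
    ζ ≠ 1 ∧ ζ' ≠ 1 ∧ ζ ≠ ζ' ∧ y / x = (1 - ζ') / (ζ - ζ') := by
  intro ζ ζ'
  have e1 : ζ * (y * x') = y' * x := by
    simp only [ζ]
    rw [div_mul_cancel₀ _ (mul_ne_zero hy hx')]
  have e2 : ζ' * (z * x') = z' * x := by
    simp only [ζ']
    rw [div_mul_cancel₀ _ (mul_ne_zero hz hx')]
  have hne : ζ ≠ ζ' := by
    intro he
    apply hbad
    rw [← he] at e2
    have h3 : (y * z' - z * y') * x = 0 := by linear_combination y * (-e2) + z * e1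
    exact (mul_eq_zero.1 h3).resolve_right hx
  -- `x x' = ζ y x' - ζ' z x'`
  have e3 : x = ζ * y - ζ' * z := by
    apply mul_right_cancel₀ hx'
    linear_combination x * h' - e1 + e2
  refine ⟨?_, ?_, hne, ?_⟩
  · intro h1
    rw [h1, one_mul] at e3
    have : (ζ' - 1) * z = 0 := by linear_combination e3 - h
    rcases mul_eq_zero.1 this with h2 | h2
    · apply hne
      rw [h1]
      linear_combination -h2
    · exact hz h2
  · intro h1
    rw [h1, one_mul] at e3
    have : (ζ - 1) * y = 0 := by linear_combination h - e3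
    rcases mul_eq_zero.1 this with h2 | h2
    · apply hne
      rw [h1]
      linear_combination h2
    · exact hy h2
  · rw [div_eq_div_iff hx (sub_ne_zero.2 hne)]
    -- `y (ζ - ζ') = (1 - ζ') x`
    linear_combination -e3 + ζ' * h

/-- the number of periodic points -/
theorem per_card_le (h3 : 3 ≤ S.per.card) :
    S.per.card ≤ d + 1 + (S.mu.card - 1) * (S.mu.card - 2) := by
  classical
  obtain ⟨T, hT, hT3⟩ := Finset.exists_subset_card_eq h3
  obtain ⟨A, B, C, hAB, hAC, hBC, rfl⟩ := Finset.card_eq_three.1 hT3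
  have hA : S.Per A := S.mem_per.1 (hT (by simp))
  have hB : S.Per B := S.mem_per.1 (hT (by simp))
  have hC : S.Per C := S.mem_per.1 (hT (by simp))
  set a := S.w A with ha
  set b := S.w B with hb
  set c := S.w C with hc
  set a' := S.w (S.f A) with ha'
  set b' := S.w (S.f B) with hb'
  set c' := S.w (S.f C) with hc'
  have hfne : ∀ {X Y : ι}, S.Per X → S.Per Y → X ≠ Y → S.f X ≠ S.f Y :=
    fun hX hY h e => h (S.f_inj hX hY e)
  set l := dt c a * dt b' c' with hl
  set m := - (dt c b * dt a' c') with hm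
  have hl0 : l ≠ 0 := mul_ne_zero (S.inj C A hAC.symm) (S.inj _ _ (hfne hB hC hBC))
  have hm0 : m ≠ 0 := neg_ne_zero.2 (mul_ne_zero (S.inj C B hBC.symm) (S.inj _ _ (hfne hA hC hAC)))
  set α := l * b.2 * a'.1 + m * a.2 * b'.1 with hα
  set β := -(l * b.1 * a'.1 + m * a.1 * b'.1) with hβ
  set γ := l * b.2 * a'.2 + m * a.2 * b'.2 with hγ
  set δ' := -(l * b.1 * a'.2 + m * a.1 * b'.2) with hδ
  set W : ι → K := fun E => dt (S.w (S.f E)) (α * (S.w E).1 + β * (S.w E).2,
    γ * (S.w E).1 + δ' * (S.w E).2) with hW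
  have hgood : (S.per.filter (fun E => W E = 0)).card ≤ d + 1 := by
    refine S.hC α β γ δ' ?_ _ (fun i hi => (Finset.mem_filter.1 hi).2)
    have : α * δ' - β * γ = - (l * m * dt a b * dt a' b') := by
      simp only [hα, hβ, hγ, hδ]
      unfold dt; ring
    rw [this]
    exact neg_ne_zero.2 (mul_ne_zero (mul_ne_zero (mul_ne_zero hl0 hm0) (S.inj A B hAB))
      (S.inj _ _ (hfne hA hB hAB)))
  have hWeq : ∀ E, W E = - (S.c A C * S.c B E * (S.c (S.f A) (S.f E) * S.c (S.f B) (S.f C))) +
      S.c A E * S.c B C * (S.c (S.f A) (S.f C) * S.c (S.f B) (S.f E)) := by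
    intro E
    simp only [hW, hα, hβ, hγ, hδ, hl, hm, ha, hb, hc, ha', hb', hc', Sys.c, dt]
    ring
  -- bad points
  set bad := S.per.filter (fun E => ¬ W E = 0) with hbad
  have hbne : ∀ E ∈ bad, S.Per E ∧ E ≠ A ∧ E ≠ B ∧ E ≠ C ∧
      S.c A C * S.c B E * (S.c (S.f A) (S.f E) * S.c (S.f B) (S.f C)) -
      S.c A E * S.c B C * (S.c (S.f A) (S.f C) * S.c (S.f B) (S.f E)) ≠ 0 := by
    intro E hE
    obtain ⟨h1, h2⟩ := Finset.mem_filter.1 hE
    rw [hWeq] at h2
    refine ⟨S.mem_per.1 h1, ?_, ?_, ?_, ?_⟩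
    · rintro rfl
      apply h2
      rw [S.c_self, S.c_self]; ring
    · rintro rfl
      apply h2
      rw [S.c_self, S.c_self]; ring
    · rintro rfl
      apply h2
      ring
    · intro h3
      apply h2
      linear_combination -h3
  let x : ι → K := fun E => S.c A B * S.c C E
  let y : ι → K := fun E => S.c A C * S.c B E
  let z : ι → K := fun E => S.c A E * S.c B C
  let x' : ι → K := fun E => S.c (S.f A) (S.f B) * S.c (S.f C) (S.f E)
  let y' : ι → K := fun E => S.c (S.f A) (S.f C) * S.c (S.f B) (S.f E)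
  let z' : ι → K := fun E => S.c (S.f A) (S.f E) * S.c (S.f B) (S.f C)
  have hdata : ∀ E ∈ bad, x E ≠ 0 ∧ y E ≠ 0 ∧ z E ≠ 0 ∧ x' E ≠ 0 ∧ y' E ≠ 0 ∧ z' E ≠ 0 := by
    intro E hE
    obtain ⟨hE1, hEA, hEB, hEC, _⟩ := hbne E hE
    exact ⟨mul_ne_zero (S.c_ne hAB) (S.c_ne hEC.symm), mul_ne_zero (S.c_ne hAC) (S.c_ne hEB.symm),
      mul_ne_zero (S.c_ne hEA.symm) (S.c_ne hBC),
      mul_ne_zero (S.c_ne (hfne hA hB hAB)) (S.c_ne (hfne hC hE1 hEC.symm)),
      mul_ne_zero (S.c_ne (hfne hA hC hAC)) (S.c_ne (hfne hB hE1 hEB.symm)),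
      mul_ne_zero (S.c_ne (hfne hA hE1 hEA.symm)) (S.c_ne (hfne hB hC hBC))⟩
  let g : ι → K × K := fun E => (y' E * x E / (y E * x' E), z' E * x E / (z E * x' E))
  have hg : ∀ E ∈ bad, g E ∈ (S.mu.erase 1).offDiag ∧
      y E / x E = (1 - (g E).2) / ((g E).1 - (g E).2) := by
    intro E hE
    obtain ⟨hE1, hEA, hEB, hEC, hEW⟩ := hbne E hE
    obtain ⟨hx, hy, hz, hx', hy', hz'⟩ := hdata E hE
    have ha1 := unit_alg hx hy hz hx' (S.pl A B C E) (S.pl (S.f A) (S.f B) (S.f C) (S.f E)) hEW
    obtain ⟨q1, q2, q3, q4⟩ := ha1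
    have hpos : ∀ v X, 0 < S.N v X := S.N_pos
    have m1 : (g E).1 ∈ S.mu := by
      apply S.hmu _ (div_ne_zero (mul_ne_zero hy' hx) (mul_ne_zero hy hx'))
      intro v
      have e1 := S.av_four v (A := A) (B := B) (C := C) (E := E)
      have e2 := S.av_four v (A := A) (B := C) (C := B) (E := E)
      have e3 := S.av_four_f v hA hB hC hE1
      have e4 := S.av_four_f v hA hC hB hE1
      simp only [x, y, x', y']
      rw [map_div₀, (S.av v).map_mul (S.c (S.f A) (S.f C) * S.c (S.f B) (S.f E)),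
        (S.av v).map_mul (S.c A C * S.c B E), e1, e2, e3, e4]
      have := S.δ_pos v hAB
      have := S.δ_pos v hAC
      have := S.δ_pos v hEB.symm
      have := S.δ_pos v hEC.symm
      have := hpos v A
      have := hpos v B
      have := hpos v C
      have := hpos v E
      have := hpos v (S.f A)
      have := hpos v (S.f B)
      have := hpos v (S.f C)
      have := hpos v (S.f E)
      field_simp
    have m2 : (g E).2 ∈ S.mu := by
      apply S.hmu _ (div_ne_zero (mul_ne_zero hz' hx) (mul_ne_zero hz hx'))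
      intro v
      have e1 := S.av_four v (A := A) (B := B) (C := C) (E := E)
      have e2 := S.av_four v (A := A) (B := E) (C := B) (E := C)
      have e3 := S.av_four_f v hA hB hC hE1
      have e4 := S.av_four_f v hA hE1 hB hC
      simp only [x, z, x', z']
      rw [map_div₀, (S.av v).map_mul (S.c (S.f A) (S.f E) * S.c (S.f B) (S.f C)),
        (S.av v).map_mul (S.c A E * S.c B C), e1, e2, e3, e4]
      have := S.δ_pos v hAB
      have := S.δ_pos v hBC
      have := S.δ_pos v hEA.symm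
      have := S.δ_pos v hEC.symm
      have := hpos v A
      have := hpos v B
      have := hpos v C
      have := hpos v E
      have := hpos v (S.f A)
      have := hpos v (S.f B)
      have := hpos v (S.f C)
      have := hpos v (S.f E)
      field_simp
    refine ⟨?_, q4⟩
    rw [Finset.mem_offDiag]
    exact ⟨Finset.mem_erase.2 ⟨q1, m1⟩, Finset.mem_erase.2 ⟨q2, m2⟩, q3⟩
  have hbadcard : bad.card ≤ ((S.mu.erase 1).offDiag).card := by
    apply Finset.card_le_card_of_injOn g (fun E hE => (hg E (Finset.mem_coe.1 hE)).1)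
    intro E hE E' hE' hEE
    have hE := Finset.mem_coe.1 hE
    have hE' := Finset.mem_coe.1 hE'
    by_contra hne
    have e1 := (hg E hE).2
    have e2 := (hg E' hE').2
    rw [hEE, ← e2] at e1
    obtain ⟨hx, hy, _⟩ := hdata E hE
    obtain ⟨hx2, hy2, _⟩ := hdata E' hE'
    rw [div_eq_div_iff hx hx2] at e1
    simp only [x, y] at e1
    have h1 : S.c B E * S.c C E' = S.c B E' * S.c C E := by
      apply mul_right_cancel₀ (mul_ne_zero (S.c_ne hAC) (S.c_ne hAB))
      linear_combination e1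
    have h2 := S.pl B C E E'
    have h3 : S.c B C * S.c E E' = 0 := by rw [h2, h1]; ring
    rcases mul_eq_zero.1 h3 with h3 | h3
    · exact S.c_ne hBC h3
    · exact S.c_ne hne h3
  have h1mem : (1 : K) ∈ S.mu := S.hmu 1 one_ne_zero (fun v => map_one _)
  have hoff : ((S.mu.erase 1).offDiag).card = (S.mu.card - 1) * (S.mu.card - 2) := by
    rw [Finset.offDiag_card, Finset.card_erase_of_mem h1mem]
    rcases Nat.eq_zero_or_pos (S.mu.card - 1) with h | h
    · rw [h]; simp
    · obtain ⟨t, ht⟩ : ∃ t, S.mu.card = t + 2 := ⟨S.mu.card - 2, by omega⟩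
      rw [ht]
      simp only [Nat.add_sub_cancel, show t + 2 - 1 = t + 1 by omega]
      rw [Nat.sub_eq_iff_eq_add (by nlinarith)]
      ring
  have hsplit := Finset.card_filter_add_card_filter_not (s := S.per) (fun E => W E = 0)
  rw [hoff] at hbadcard
  change (S.per.filter (fun E => ¬ W E = 0)).card ≤ _ at hbadcard
  omega

end Sys

end Pool.Agent.TH856.PG
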