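import Pool.Agent.TH856.PG.Pair
import Pool.Agent.TH856.PG.PerCount

set_option autoImplicit false

/-!
# Counting
-/

namespace Pool.Agent.TH856.PG

open Finset Function

namespace Sys

variable {K : Type} [Field K] {V : Type} {ι : Type} [Fintype ι] [DecidableEq ι] {d : ℕ}
  (S : Sys K V ι d)

lemma exists_level_two {z : ι} (hz : ¬ S.Per z) (hfz : ¬ S.Per (S.f z)) :
    ∃ u, ¬ S.Per u ∧ ¬ S.Per (S.f u) ∧ S.Per (S.f (S.f u)) := by
  have key : ∀ m : ℕ, ∀ z : ι, S.Per (S.f^[m] z) → ¬ S.Per z → ¬ S.Per (S.f z) →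
      ∃ u, ¬ S.Per u ∧ ¬ S.Per (S.f u) ∧ S.Per (S.f (S.f u)) := by
    intro m
    induction m with
    | zero => intro z h1 h2; exact absurd h1 h2
    | succ m ih =>
      intro z h1 h2 h3
      rw [Function.iterate_succ_apply] at h1
      by_cases h : S.Per (S.f (S.f z))
      · exact ⟨z, h2, h3, h⟩
      · exact ih _ h1 h3 h
  exact key S.M z (S.per_e z) hz hfz

lemma level_one_mem {u : ι} (hu : ¬ S.Per u) (hfu : S.Per (S.f u)) : u ∈ S.L (S.ep u) := by
  rcases S.non_cases hu with h | h
  · exact h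
  · exact absurd hfu (S.mem_Y.1 h).2.1

lemma Y_empty_of_L_empty {R : ι} (hR : S.f R = R) (hL : S.L R = ∅) : S.Y R = ∅ := by
  rw [Finset.eq_empty_iff_forall_notMem]
  intro y hy
  obtain ⟨P, hP, _⟩ := S.root hR hy
  rw [hL] at hP
  simp at hP

/-- two-cycle, one of the fibres being trivial -/
lemma card_Y_cycle {R1 R2 : ι} (h1 : S.Per R1) (h2 : S.Per R2) (hne : R1 ≠ R2)
    (f1 : S.f R1 = R2) (hall : ∀ x, S.Per x → x = R1 ∨ x = R2) (hL : S.L R2 = ∅) :
    (S.Y R1).card ≤ S.mu.card := by
  rcases (S.Y R1).eq_empty_or_nonempty with h | ⟨y0, hy0⟩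
  · rw [h]; simp
  · have hy0' := S.mem_Y.1 hy0
    obtain ⟨u, hu, hfu, hffu⟩ := S.exists_level_two hy0'.1 hy0'.2.1
    have hmem := S.level_one_mem hfu hffu
    have hR1 : S.ep (S.f u) = R1 := by
      rcases hall _ (S.per_e (S.f u)) with h | h
      · exact h
      · rw [h, hL] at hmem
        simp at hmem
    rw [hR1] at hmem
    have huR2 : R2 ≠ u := by
      rintro rfl
      exact hu h2
    have key : ∀ y ∈ S.Y R1, S.f u ≠ S.f y ∧ S.f y ∈ S.Y R2 := by
      intro y hy
      have hy' := S.mem_Y.1 hy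
      have hey : S.ep (S.f y) = R2 := by rw [e_f, hy'.2.2, f1]
      refine ⟨?_, ?_⟩
      · intro h
        rw [h, hey] at hR1
        exact hne hR1.symm
      · have := S.non_cases hy'.2.1
        rw [hey, hL] at this
        simpa using this
    apply S.card_eqdist huR2 (T := S.Y R1) (S.Y_not_self h2)
    · intro h
      exact (key u h).1 rfl
    intro y hy v
    rw [S.one_Y v h2 hne.symm hy]
    have h4 := S.hA_one v (P := y) (rfl : S.f u = S.f u)
    rw [S.cross v h1 h2 hne (key y hy).2 hmem] at h4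
    exact (le_antisymm (S.le_one v y u) h4).symm

variable {M : ℕ}

/-- both fibres small -/
lemma two_small {R1 R2 : ι} (h1 : S.Per R1) (h2 : S.Per R2) (hne : R1 ≠ R2)
    (hall : ∀ x, S.Per x → x = R1 ∨ x = R2)
    (hf : (S.f R1 = R1 ∧ S.f R2 = R2) ∨ (S.f R1 = R2 ∧ S.f R2 = R1))
    (hM : 2 ≤ M) (ha : (S.L R1).card ≤ M) (hb : (S.L R2).card = 0) :
    2 + (S.L R1).card + (S.L R2).card + (S.Y R1).card + (S.Y R2).card ≤
      (S.mu.card + 1) * M + 2 := by
  have hb' : S.L R2 = ∅ := Finset.card_eq_zero.1 hb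
  rcases hf with ⟨f1, f2⟩ | ⟨f1, f2⟩
  · have e2 := S.Y_empty_of_L_empty f2 hb'
    have e1 := S.card_Y_le_mul f1 h1
    rw [e2, hb, Finset.card_empty]
    nlinarith
  · have e1 := S.card_Y_cycle h1 h2 hne f1 hall hb'
    have e2 : (S.Y R2).card ≤ S.mu.card := by
      rcases (S.L R1).eq_empty_or_nonempty with h | h
      · have hall' : ∀ x, S.Per x → x = R2 ∨ x = R1 := fun x hx => (hall x hx).symm
        exact S.card_Y_cycle h2 h1 hne.symm f2 hall' h
      · exact S.card_Y_le h1 h2 hne h
    nlinarith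

/-- a big fibre -/
lemma two_big {R1 R2 : ι} (h1 : S.Per R1) (h2 : S.Per R2) (hne : R1 ≠ R2)
    (hf : (S.f R1 = R1 ∧ S.f R2 = R2) ∨ (S.f R1 = R2 ∧ S.f R2 = R1))
    (hM1 : S.mu.card + 4 * S.e + 2 ≤ M) (hM2 : S.Bd ≤ M)
    (ha : M + 1 ≤ (S.L R1).card) :
    2 + (S.L R1).card + (S.L R2).card + (S.Y R1).card + (S.Y R2).card ≤ d + 2 := by
  have he := S.he
  have hY2 : S.Y R2 = ∅ := S.Y_empty h1 h2 hne (by omega)
  have hb : (S.L R2).card ≤ 1 := by
    by_contra hcon
    have := S.card_L_le_B h2 h1 hne.symm (by omega)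
    omega
  have had := S.card_L h1
  rw [hY2, Finset.card_empty]
  rcases hf with ⟨f1, f2⟩ | ⟨f1, f2⟩
  · rcases (S.L R2).eq_empty_or_nonempty with h | h
    · rw [h, Finset.card_empty]
      have := S.card_Y_le_one f1 h1 (by omega)
      omega
    · rw [S.Y_empty_fixed h1 h2 hne f1 h (by omega), Finset.card_empty]
      omega
  · rw [S.Y_empty_cycle h1 h2 hne f1 hY2 (by omega) (by omega), Finset.card_empty]
    omega

lemma two_all {R1 R2 : ι} (h1 : S.Per R1) (h2 : S.Per R2) (hne : R1 ≠ R2)
    (hall : ∀ x, S.Per x → x = R1 ∨ x = R2)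
    (hf : (S.f R1 = R1 ∧ S.f R2 = R2) ∨ (S.f R1 = R2 ∧ S.f R2 = R1))
    (hu : 2 ≤ S.mu.card) (hM1 : S.mu.card + 4 * S.e + 2 ≤ M) (hM2 : S.Bd ≤ M) :
    2 + (S.L R1).card + (S.L R2).card + (S.Y R1).card + (S.Y R2).card ≤
      max (d + 2) ((S.mu.card + 1) * M + 2) := by
  have he := S.he
  have hf' : (S.f R2 = R2 ∧ S.f R1 = R1) ∨ (S.f R2 = R1 ∧ S.f R1 = R2) := by
    rcases hf with h | h
    · exact Or.inl h.symm
    · exact Or.inr h.symm
  have hall' : ∀ x, S.Per x → x = R2 ∨ x = R1 := fun x hx => (hall x hx).symm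
  rcases Nat.lt_or_ge M (S.L R1).card with ha | ha
  · exact (S.two_big h1 h2 hne hf hM1 hM2 ha).trans (le_max_left _ _)
  rcases Nat.lt_or_ge M (S.L R2).card with hb | hb
  · have := S.two_big h2 h1 hne.symm hf' hM1 hM2 hb
    refine le_trans ?_ (le_max_left _ _)
    omega
  refine le_trans ?_ (le_max_right _ _)
  rcases (S.L R1).eq_empty_or_nonempty with h | h
  · have := S.two_small h2 h1 hne.symm hall' hf' (by omega) hb (by rw [h, Finset.card_empty])
    omega
  · rcases (S.L R2).eq_empty_or_nonempty with h' | h'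
    · exact S.two_small h1 h2 hne hall hf (by omega) ha (by rw [h', Finset.card_empty])
    · have e1 := S.card_Y_le h1 h2 hne h
      have e2 := S.card_Y_le h2 h1 hne.symm h'
      have h3 : S.mu.card + 6 ≤ M := by omega
      nlinarith

include S in
/-- the total bound -/
theorem card_le (hu : 2 ≤ S.mu.card) (hM1 : S.mu.card + 4 * S.e + 2 ≤ M) (hM2 : S.Bd ≤ M) :
    Fintype.card ι ≤ max (d + 2 + (S.mu.card - 1) * (S.mu.card - 2))
      ((S.mu.card + 1) * M + 2) := by
  have he := S.he
  have hsplit := S.card_split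
  have hnon : ∀ x, ¬ S.Per x → S.ep x ∈ S.per ∧ (x ∈ S.L (S.ep x) ∨ x ∈ S.Y (S.ep x)) :=
    fun x hx => ⟨S.mem_per.2 (S.per_e x), S.non_cases hx⟩
  have hbig : ∀ n, n ≤ d + 2 → n ≤ max (d + 2 + (S.mu.card - 1) * (S.mu.card - 2))
      ((S.mu.card + 1) * M + 2) := fun n hn =>
    (hn.trans (Nat.le_add_right _ _)).trans (le_max_left _ _)
  rcases Nat.lt_or_ge S.per.card (S.mu.card + 3) with h5 | h5
  · rcases Nat.lt_or_ge S.per.card 3 with h3 | h3
    · interval_cases h : S.per.card
      · -- no periodic point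
        have : S.non = ∅ := by
          rw [Finset.eq_empty_iff_forall_notMem]
          intro x _
          have := S.mem_per.2 (S.per_e x)
          rw [Finset.card_eq_zero.1 h] at this
          simp at this
        rw [this, Finset.card_empty] at hsplit
        omega
      · obtain ⟨R, hR⟩ := Finset.card_eq_one.1 h
        have hPR : S.Per R := S.mem_per.1 (by rw [hR]; simp)
        have hfR : S.f R = R := by
          have := S.mem_per.2 (S.per_f hPR)
          rw [hR, Finset.mem_singleton] at this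
          exact this
        have hsub : S.non ⊆ S.L R ∪ S.Y R := by
          intro x hx
          obtain ⟨q1, q2⟩ := hnon x (S.mem_non.1 hx)
          rw [hR, Finset.mem_singleton] at q1
          rw [q1] at q2
          exact Finset.mem_union.2 q2
        have hle := (Finset.card_le_card hsub).trans (Finset.card_union_le _ _)
        have had := S.card_L hPR
        rcases Nat.lt_or_ge M (S.L R).card with h7 | h7
        · have := S.card_Y_le_one hfR hPR (by omega)
          apply hbig
          omega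
        · have := S.card_Y_le_mul hfR hPR
          refine le_trans ?_ (le_max_right _ _)
          nlinarith
      · obtain ⟨R1, R2, hne, hR⟩ := Finset.card_eq_two.1 h
        have h1 : S.Per R1 := S.mem_per.1 (by rw [hR]; simp)
        have h2 : S.Per R2 := S.mem_per.1 (by rw [hR]; simp)
        have hall : ∀ x, S.Per x → x = R1 ∨ x = R2 := by
          intro x hx
          have := S.mem_per.2 hx
          rw [hR] at this
          simpa using this
        have hf : (S.f R1 = R1 ∧ S.f R2 = R2) ∨ (S.f R1 = R2 ∧ S.f R2 = R1) := by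
          have hff : S.f R1 ≠ S.f R2 := fun h => hne (S.f_inj h1 h2 h)
          rcases hall _ (S.per_f h1) with q1 | q1 <;> rcases hall _ (S.per_f h2) with q2 | q2
          · exact absurd (q1.trans q2.symm) hff
          · exact Or.inl ⟨q1, q2⟩
          · exact Or.inr ⟨q1, q2⟩
          · exact absurd (q1.trans q2.symm) hff
        have hsub : S.non ⊆ (S.L R1 ∪ S.L R2) ∪ (S.Y R1 ∪ S.Y R2) := by
          intro x hx
          obtain ⟨q1, q2⟩ := hnon x (S.mem_non.1 hx)
          simp only [Finset.mem_union]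
          rw [hR, Finset.mem_insert, Finset.mem_singleton] at q1
          rcases q1 with q1 | q1 <;> rw [q1] at q2 <;> tauto
        have hle := (Finset.card_le_card hsub).trans (Finset.card_union_le _ _)
        have hle1 := Finset.card_union_le (S.L R1) (S.L R2)
        have hle2 := Finset.card_union_le (S.Y R1) (S.Y R2)
        have := S.two_all h1 h2 hne hall hf hu hM1 hM2
        rcases le_max_iff.1 this with h9 | h9
        · apply hbig
          omega
        · refine le_trans ?_ (le_max_right _ _)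
          omega
    · have := S.non_card_le h3
      refine le_trans ?_ (le_max_right _ _)
      have h3 : S.mu.card + 6 ≤ M := by omega
      nlinarith
  · have h6 := S.non_card_le_one h5
    have h7 := S.per_card_le (by omega)
    refine le_trans ?_ (le_max_left _ _)
    omega

end Sys

end Pool.Agent.TH856.PG
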