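import Mathlib

set_option autoImplicit false

/-!
# Preperiodic points of a pair of binary forms
-/

namespace Pool.Agent.TH856.PG

variable {K : Type} [Field K]

/-- The self-map of `K²` given by two binary forms. -/
noncomputable def homMap (F G : MvPolynomial (Fin 2) K) (w : Fin 2 → K) : Fin 2 → K :=
  ![MvPolynomial.eval w F, MvPolynomial.eval w G]

/-- the point `P` of `ℙ¹(K)` is preperiodic for `[F : G]` -/
def IsPreper (F G : MvPolynomial (Fin 2) K) (P : Projectivization K (Fin 2 → K)) : Prop :=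
  ∃ v : Fin 2 → K, ∃ hv : v ≠ 0, Projectivization.mk K v hv = P ∧
    ∃ m n : ℕ, m < n ∧ ∃ c : K, c ≠ 0 ∧ (homMap F G)^[n] v = c • (homMap F G)^[m] v

/-- the point `P` of `ℙ¹(K)` is periodic for `[F : G]` -/
def IsPer (F G : MvPolynomial (Fin 2) K) (P : Projectivization K (Fin 2 → K)) : Prop :=
  ∃ v : Fin 2 → K, ∃ hv : v ≠ 0, Projectivization.mk K v hv = P ∧
    ∃ n : ℕ, 0 < n ∧ ∃ c : K, c ≠ 0 ∧ (homMap F G)^[n] v = c • v

/-- the point `P` of `ℙ¹(K)` is fixed by `[F : G]` -/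
def IsFix (F G : MvPolynomial (Fin 2) K) (P : Projectivization K (Fin 2 → K)) : Prop :=
  ∃ v : Fin 2 → K, ∃ hv : v ≠ 0, Projectivization.mk K v hv = P ∧
    ∃ c : K, c ≠ 0 ∧ homMap F G v = c • v

end Pool.Agent.TH856.PG
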