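import Pool.Agent.TH856.PG.FormsR

set_option autoImplicit false

/-!
# Pairs of binary forms without common zero
-/

namespace Pool.Agent.TH856.PG

open MvPolynomial

/-- a binary form of positive degree over an algebraically closed field has a zero -/
lemma exists_zero {L : Type*} [Field L] [IsAlgClosed L] {H : MvPolynomial (Fin 2) L} {n : ℕ}
    (hn : 1 ≤ n) (hH : H.IsHomogeneous n) : ∃ x : Fin 2 → L, x ≠ 0 ∧ eval x H = 0 := by
  set f : Polynomial L := MvPolynomial.aeval ![Polynomial.X, Polynomial.C 1] H with hf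
  have hev : ∀ t : L, f.eval t = eval ![t, 1] H := by
    intro t
    rw [hf, ← Polynomial.coe_evalRingHom, ← RingHom.coe_coe (MvPolynomial.aeval _),
      ← RingHom.comp_apply]
    congr 1
    apply MvPolynomial.ringHom_ext
    · intro r
      simp
    · intro i
      fin_cases i <;> simp
  by_cases hd : f.degree = 0
  · -- `f` constant
    refine ⟨![1, 0], ?_, ?_⟩
    · intro h
      exact one_ne_zero (congrFun h 0)
    · have h1 : f.coeff n = eval ![1, 0] H := by
        rw [hf, MvPolynomial.aeval_def, MvPolynomial.eval₂_eq', MvPolynomial.eval_eq',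
          Polynomial.finsetSum_coeff]
        apply Finset.sum_congr rfl
        intro m hm
        have hd' := hom_deg hH hm
        simp only [Fin.prod_univ_two, Matrix.cons_val_zero, Matrix.cons_val_one, map_one,
          one_pow, mul_one, one_mul, Polynomial.algebraMap_eq, Polynomial.coeff_C_mul,
          Polynomial.coeff_X_pow]
        by_cases hm1 : m 1 = 0
        · rw [hm1, pow_zero, if_pos (by omega)]
        · rw [if_neg (by omega), zero_pow hm1]
      rw [← h1]
      apply Polynomial.coeff_eq_zero_of_degree_lt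
      rw [hd]
      exact_mod_cast hn
  · obtain ⟨t, ht⟩ := IsAlgClosed.exists_root f hd
    refine ⟨![t, 1], ?_, ?_⟩
    · intro h
      exact one_ne_zero (congrFun h 1)
    · rw [← hev]; exact ht

section
variable {K : Type*} [Field K] {d : ℕ} {F G : MvPolynomial (Fin 2) K}

/-- no common zero over the algebraic closure -/
def NoZero (F G : MvPolynomial (Fin 2) K) : Prop :=
  ∀ x : Fin 2 → AlgebraicClosure K, x ≠ 0 →
    ¬ (MvPolynomial.aeval x F = 0 ∧ MvPolynomial.aeval x G = 0)

lemma exists_zero' {H : MvPolynomial (Fin 2) K} {n : ℕ} (hn : 1 ≤ n) (hH : H.IsHomogeneous n) :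
    ∃ x : Fin 2 → AlgebraicClosure K, x ≠ 0 ∧ MvPolynomial.aeval x H = 0 := by
  obtain ⟨x, hx, h⟩ := exists_zero hn (hH.map (algebraMap K (AlgebraicClosure K)))
  refine ⟨x, hx, ?_⟩
  rw [MvPolynomial.eval_map] at h
  rwa [MvPolynomial.aeval_def]

lemma fibre_ne_zero (hd : 1 ≤ d) (hF : F.IsHomogeneous d) (hG : G.IsHomogeneous d)
    (h0 : NoZero F G) {q : K × K} (hq : q ≠ 0) : C q.2 * F - C q.1 * G ≠ 0 := by
  intro h
  have key : ∀ x : Fin 2 → AlgebraicClosure K,
      algebraMap K _ q.2 * MvPolynomial.aeval x F = algebraMap K _ q.1 * MvPolynomial.aeval x G := by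
    intro x
    have := congrArg (MvPolynomial.aeval x) h
    simp only [map_sub, map_mul, map_zero, MvPolynomial.algHom_C] at this
    exact sub_eq_zero.1 this
  by_cases hq1 : q.1 = 0
  · have hq2 : q.2 ≠ 0 := fun h2 => hq (Prod.ext hq1 h2)
    obtain ⟨x, hx, hx0⟩ := exists_zero' hd hG
    refine h0 x hx ⟨?_, hx0⟩
    have := key x
    rw [hq1, map_zero, zero_mul] at this
    exact (mul_eq_zero.1 this).resolve_left ((map_ne_zero _).2 hq2)
  · obtain ⟨x, hx, hx0⟩ := exists_zero' hd hF
    refine h0 x hx ⟨hx0, ?_⟩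
    have := key x
    rw [hx0, mul_zero] at this
    exact (mul_eq_zero.1 this.symm).resolve_left ((map_ne_zero _).2 hq1)

lemma coprime_of_ne_zero {v : K × K} (hv : v ≠ 0) : IsCoprime v.1 v.2 := by
  by_cases h : v.1 = 0
  · have h2 : v.2 ≠ 0 := fun h2 => hv (Prod.ext h h2)
    exact ⟨0, v.2⁻¹, by rw [zero_mul, zero_add, inv_mul_cancel₀ h2]⟩
  · exact ⟨v.1⁻¹, 0, by rw [zero_mul, add_zero, inv_mul_cancel₀ h]⟩

lemma lin_ne_zero {v : K × K} (hv : v ≠ 0) : lin v ≠ 0 := by
  intro h
  apply hv
  have h1 : dt (1, 0) v = 0 := by rw [← ev_lin, h]; simp [ev]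
  have h2 : dt (0, 1) v = 0 := by rw [← ev_lin, h]; simp [ev]
  unfold dt at h1 h2
  simp at h1 h2
  exact Prod.ext h2 h1

/-- agreement with a Möbius map is a proper condition -/
lemma moebius_ne_zero (hd : 2 ≤ d) (hF : F.IsHomogeneous d)
    (h0 : NoZero F G) {α β γ δ : K} (hΔ : α * δ - β * γ ≠ 0) :
    F * (C γ * X 0 + C δ * X 1) - G * (C α * X 0 + C β * X 1) ≠ 0 := by
  intro h
  set v : K × K := (-δ, γ) with hv
  set v' : K × K := (-β, α) with hv'
  have hl : (C γ * X 0 + C δ * X 1 : MvPolynomial (Fin 2) K) = lin v := by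
    simp only [lin, hv, map_neg]; ring
  have hl' : (C α * X 0 + C β * X 1 : MvPolynomial (Fin 2) K) = lin v' := by
    simp only [lin, hv', map_neg]; ring
  rw [hl, hl'] at h
  have hne : dt v v' ≠ 0 := by
    intro h1
    apply hΔ
    simp only [dt, hv, hv'] at h1
    linear_combination -h1
  have hne' : dt v' v ≠ 0 := by
    intro h1
    apply hΔ
    simp only [dt, hv, hv'] at h1
    linear_combination h1
  have hv0 : v ≠ 0 := by
    intro h1; rw [h1] at hne; simp [dt] at hne
  have hv0' : v' ≠ 0 := by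
    intro h1; rw [h1] at hne; simp [dt] at hne
  have hGv : psi v G = 0 := by
    have := congrArg (psi v) h
    rw [map_sub, map_mul, map_mul, psi_lin, psi_lin, map_zero] at this
    have hvv : dt v v = 0 := by unfold dt; ring
    rw [hvv] at this
    simp only [map_zero, zero_mul, mul_zero, zero_sub, neg_eq_zero] at this
    rcases mul_eq_zero.1 this with h | h
    · exact h
    · exfalso
      rcases mul_eq_zero.1 h with h | h
      · rw [Polynomial.C_eq_zero] at h
        exact hne h
      · exact Polynomial.X_ne_zero h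
  have hFv : psi v' F = 0 := by
    have := congrArg (psi v') h
    rw [map_sub, map_mul, map_mul, psi_lin, psi_lin, map_zero] at this
    have hvv : dt v' v' = 0 := by unfold dt; ring
    rw [hvv] at this
    simp only [map_zero, zero_mul, mul_zero, sub_zero] at this
    rcases mul_eq_zero.1 this with h | h
    · exact h
    · exfalso
      rcases mul_eq_zero.1 h with h | h
      · rw [Polynomial.C_eq_zero] at h
        exact hne' h
      · exact Polynomial.X_ne_zero h
  obtain ⟨G', hG'⟩ := lin_dvd (coprime_of_ne_zero hv0) hGv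
  obtain ⟨F', hF'⟩ := lin_dvd (coprime_of_ne_zero hv0') hFv
  have hfg : F' = G' := by
    have h1 : (lin v * lin v') * (F' - G') = 0 := by
      rw [hF', hG'] at h
      linear_combination h
    rcases mul_eq_zero.1 h1 with h | h
    · exact absurd h (mul_ne_zero (lin_ne_zero hv0) (lin_ne_zero hv0'))
    · exact sub_eq_zero.1 h
  have hhom : F'.IsHomogeneous (d - 1) := by
    apply quot_hom (m := 1) _ (lin_hom v') (lin_ne_zero hv0') hF'
    rwa [show 1 + (d - 1) = d by omega]
  obtain ⟨x, hx, hx0⟩ := exists_zero' (by omega : 1 ≤ d - 1) hhom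
  refine h0 x hx ⟨?_, ?_⟩
  · rw [hF', map_mul, hx0, mul_zero]
  · rw [hG', ← hfg, map_mul, hx0, mul_zero]

end

end Pool.Agent.TH856.PG
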