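import Mathlib

set_option autoImplicit false

/-!
# Number fields with one archimedean place
-/

namespace Pool.Agent.TH856.PG

open NumberField IsDedekindDomain

/-! ### packing in the plane and on the circle -/

/-- at most 49 points of the disc of radius `2 s` with mutual distances at least `s` -/
lemma pack_complex {s : ℝ} (hs : 0 < s) (T : Finset ℂ) (h1 : ∀ z ∈ T, ‖z‖ ≤ 2 * s)
    (h2 : ∀ z ∈ T, ∀ z' ∈ T, z ≠ z' → s ≤ ‖z - z'‖) : T.card ≤ 49 := by
  classical
  let g : ℂ → ℤ × ℤ := fun z => (⌊(z.re + 2 * s) / (2 * s / 3)⌋, ⌊(z.im + 2 * s) / (2 * s / 3)⌋)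
  have hpos : 0 < 2 * s / 3 := by positivity
  have hb : ∀ t : ℝ, |t| ≤ 2 * s → ⌊(t + 2 * s) / (2 * s / 3)⌋ ∈ Finset.Icc (0:ℤ) 6 := by
    intro t ht
    rw [abs_le] at ht
    rw [Finset.mem_Icc]
    constructor
    · apply Int.floor_nonneg.2
      apply div_nonneg _ hpos.le
      linarith
    · have : ⌊(t + 2 * s) / (2 * s / 3)⌋ < 7 := by
        rw [Int.floor_lt, div_lt_iff₀ hpos]
        push_cast
        linarith
      omega
  have hcard : (Finset.Icc (0:ℤ) 6 ×ˢ Finset.Icc (0:ℤ) 6).card = 49 := by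
    simp
  rw [← hcard]
  apply Finset.card_le_card_of_injOn g
  · intro z hz
    have hz := h1 z (Finset.mem_coe.1 hz)
    rw [Finset.mem_coe, Finset.mem_product]
    exact ⟨hb _ ((Complex.abs_re_le_norm z).trans hz), hb _ ((Complex.abs_im_le_norm z).trans hz)⟩
  · intro z hz z' hz' hg
    by_contra hne
    have h3 := h2 z (Finset.mem_coe.1 hz) z' (Finset.mem_coe.1 hz') hne
    have hf : ∀ t t' : ℝ, ⌊(t + 2 * s) / (2 * s / 3)⌋ = ⌊(t' + 2 * s) / (2 * s / 3)⌋ →
        |t - t'| < 2 * s / 3 := by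
      intro t t' h
      have h4 := Int.abs_sub_lt_one_of_floor_eq_floor h
      rw [← sub_div, abs_div, abs_of_pos hpos, div_lt_one hpos] at h4
      have : t + 2 * s - (t' + 2 * s) = t - t' := by ring
      rwa [this] at h4
    have e1 := hf _ _ (congrArg Prod.fst hg)
    have e2 := hf _ _ (congrArg Prod.snd hg)
    have h5 : ‖z - z'‖ ^ 2 = (z.re - z'.re) ^ 2 + (z.im - z'.im) ^ 2 := by
      rw [Complex.sq_norm, Complex.normSq_apply]
      simp; ring
    have e3 : (z.re - z'.re) ^ 2 < (2 * s / 3) ^ 2 := by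
      rw [← sq_abs (z.re - z'.re)]
      exact pow_lt_pow_left₀ e1 (abs_nonneg _) (by norm_num)
    have e4 : (z.im - z'.im) ^ 2 < (2 * s / 3) ^ 2 := by
      rw [← sq_abs (z.im - z'.im)]
      exact pow_lt_pow_left₀ e2 (abs_nonneg _) (by norm_num)
    have h6 : s ^ 2 ≤ ‖z - z'‖ ^ 2 := pow_le_pow_left₀ hs.le h3 2
    nlinarith

/-- at most six points of the unit circle with mutual distances at least one -/
lemma pack_circle (T : Finset ℂ) (h1 : ∀ z ∈ T, ‖z‖ = 1)
    (h2 : ∀ z ∈ T, ∀ z' ∈ T, z ≠ z' → 1 ≤ ‖z - z'‖) : T.card ≤ 6 := by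
  classical
  have hpi := Real.pi_pos
  let g : ℂ → ℤ := fun z => ⌈z.arg / (Real.pi / 3)⌉
  have hcard : (Finset.Icc (-2:ℤ) 3).card = 6 := by simp
  rw [← hcard]
  apply Finset.card_le_card_of_injOn g
  · intro z _
    have ha := Complex.neg_pi_lt_arg z
    have hb := Complex.arg_le_pi z
    rw [Finset.coe_Icc, Set.mem_Icc]
    constructor
    · have : (-3:ℤ) < ⌈z.arg / (Real.pi / 3)⌉ := by
        rw [Int.lt_ceil, lt_div_iff₀ (by positivity)]
        push_cast
        linarith
      show (-2:ℤ) ≤ ⌈z.arg / (Real.pi / 3)⌉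
      omega
    · show ⌈z.arg / (Real.pi / 3)⌉ ≤ 3
      rw [Int.ceil_le, div_le_iff₀ (by positivity)]
      push_cast
      linarith
  · intro z hz z' hz' hg
    by_contra hne
    have h3 := h2 z (Finset.mem_coe.1 hz) z' (Finset.mem_coe.1 hz') hne
    have n1 := h1 z (Finset.mem_coe.1 hz)
    have n2 := h1 z' (Finset.mem_coe.1 hz')
    have hg' : ⌈z.arg / (Real.pi / 3)⌉ = ⌈z'.arg / (Real.pi / 3)⌉ := hg
    have h4 : |z.arg - z'.arg| < Real.pi / 3 := by
      have c1 := Int.ceil_lt_add_one (z.arg / (Real.pi / 3))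
      have c2 := Int.ceil_lt_add_one (z'.arg / (Real.pi / 3))
      have c3 := Int.le_ceil (z.arg / (Real.pi / 3))
      have c4 := Int.le_ceil (z'.arg / (Real.pi / 3))
      rw [hg'] at c1 c3
      have : |z.arg / (Real.pi / 3) - z'.arg / (Real.pi / 3)| < 1 := by
        rw [abs_lt]; constructor <;> linarith
      rw [← sub_div, abs_div, abs_of_pos (by positivity : 0 < Real.pi / 3),
        div_lt_one (by positivity)] at this
      exact this
    have e1 := Complex.norm_mul_cos_arg z
    have e2 := Complex.norm_mul_sin_arg z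
    have e3 := Complex.norm_mul_cos_arg z'
    have e4 := Complex.norm_mul_sin_arg z'
    rw [n1, one_mul] at e1 e2
    rw [n2, one_mul] at e3 e4
    have h5 : ‖z - z'‖ ^ 2 = 2 - 2 * Real.cos (z.arg - z'.arg) := by
      rw [Complex.sq_norm, Complex.normSq_apply]
      simp only [Complex.sub_re, Complex.sub_im]
      rw [← e1, ← e2, ← e3, ← e4, Real.cos_sub]
      have s1 := Real.sin_sq_add_cos_sq z.arg
      have s2 := Real.sin_sq_add_cos_sq z'.arg
      linear_combination s1 + s2
    have h6 : 1 / 2 < Real.cos (z.arg - z'.arg) := by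
      rw [← Real.cos_abs (z.arg - z'.arg), ← Real.cos_pi_div_three]
      apply Real.cos_lt_cos_of_nonneg_of_le_pi (abs_nonneg _) (by linarith) h4
    have h7 : 1 ≤ ‖z - z'‖ ^ 2 := one_le_pow₀ h3
    linarith

/-! ### the field -/

variable (K : Type) [Field K] [NumberField K]

lemma disc (v : HeightOneSpectrum (𝓞 K)) (x : K)
    (h : 1 < NumberField.HeightOneSpectrum.adicAbv K v x) :
    2 ≤ NumberField.HeightOneSpectrum.adicAbv K v x := by
  rw [NumberField.HeightOneSpectrum.adicAbv_def] at h ⊢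
  have hN := HeightOneSpectrum.one_lt_absNorm (v := v)
  by_cases h0 : v.valuation K x = 0
  · rw [h0, map_zero] at h
    norm_num at h
  · rw [WithZeroMulInt.toNNReal_neg_apply _ h0] at h ⊢
    set n := Multiplicative.toAdd (WithZero.unzero h0)
    have hN1 : (1 : ℝ) < (Ideal.absNorm v.asIdeal : ℝ) := by exact_mod_cast hN
    push_cast at h ⊢
    have hn : 0 < n := by
      by_contra hcon
      push Not at hcon
      have := zpow_le_one_of_nonpos₀ hN1.le hcon
      linarith
    have h3 : (Ideal.absNorm v.asIdeal : ℝ) ^ (1 : ℤ) ≤ (Ideal.absNorm v.asIdeal : ℝ) ^ n :=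
      zpow_le_zpow_right₀ hN1.le hn
    rw [zpow_one] at h3
    have h4 : (2 : ℝ) ≤ (Ideal.absNorm v.asIdeal : ℝ) := by exact_mod_cast hN
    linarith

lemma finite_supp {x : K} (hx : x ≠ 0) :
    (Function.mulSupport
      (fun v : HeightOneSpectrum (𝓞 K) => NumberField.HeightOneSpectrum.adicAbv K v x)).Finite := by
  have h := FinitePlace.hasFiniteMulSupport hx
  have h2 : (Function.mulSupport (fun w : FinitePlace K => w x)).Finite := h
  have : Function.mulSupport (fun v : HeightOneSpectrum (𝓞 K) =>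
      NumberField.HeightOneSpectrum.adicAbv K v x) =
      FinitePlace.mk ⁻¹' (Function.mulSupport (fun w : FinitePlace K => w x)) := by
    ext v
    simp only [Function.mem_mulSupport, Set.mem_preimage]
    rw [FinitePlace.mk_apply, FinitePlace.norm_embedding]
  rw [this]
  apply h2.preimage
  intro a _ b _ hab
  exact (FinitePlace.mk_eq_iff).1 hab

lemma prod_formula {w : InfinitePlace K} (hw : ∀ w' : InfinitePlace K, w' = w) {x : K}
    (hx : x ≠ 0) : ∏ᶠ v : HeightOneSpectrum (𝓞 K),
      NumberField.HeightOneSpectrum.adicAbv K v x = (w x ^ w.mult)⁻¹ := by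
  have h1 := FinitePlace.prod_eq_inv_abs_norm hx
  rw [← finprod_comp_equiv FinitePlace.equivHeightOneSpectrum.symm] at h1
  simp only [FinitePlace.equivHeightOneSpectrum_symm_apply] at h1
  have h2 : ∏ᶠ v : HeightOneSpectrum (𝓞 K), NumberField.HeightOneSpectrum.adicAbv K v x =
      |((Algebra.norm ℚ) x : ℝ)|⁻¹ := by
    have h3 : ∀ v : HeightOneSpectrum (𝓞 K), ‖FinitePlace.embedding v x‖ =
      NumberField.HeightOneSpectrum.adicAbv K v x := fun v => FinitePlace.norm_embedding v x
    simp only [h3] at h1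
    rw [h1]
    push_cast
    rfl
  rw [h2]
  have h4 := InfinitePlace.prod_eq_abs_norm x
  have h5 : (Finset.univ : Finset (InfinitePlace K)) = {w} := by
    ext w'
    simp [hw w']
  rw [h5, Finset.prod_singleton] at h4
  rw [h4]
  push_cast
  rfl

end Pool.Agent.TH856.PG
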