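import Pool.Agent.H892.PGK.Glob
import Pool.Agent.TH856.PG.Endo

set_option autoImplicit false

/-!
# Potentially good reduction: the distance to a fibre
-/

namespace Pool.Agent.TH856.PG

open MvPolynomial
open Pool.Agent.H892.PGR (br nm dL nm_pos nm_smul br_smul dL_smul dL_ultra Phi phi_smul)
open Pool.Agent.H892.PGK (PotGood PP fX br_zero_iff)

section L
variable {L : Type*} [Field L] (w : AbsoluteValue L ℝ)
  (hna : ∀ x y : L, w (x + y) ≤ max (w x) (w y))

include hna in
lemma dL_le_one {u v : Fin 2 → L} (hu : u ≠ 0) (hv : v ≠ 0) : dL w u v ≤ 1 := by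
  have h1 := nm_pos w hu
  have h2 := nm_pos w hv
  unfold dL
  rw [div_le_one (by positivity)]
  unfold br
  have h3 : w (u 0 * v 1 - u 1 * v 0) ≤ max (w (u 0 * v 1)) (w (u 1 * v 0)) := by
    have := hna (u 0 * v 1) (-(u 1 * v 0))
    rwa [AbsoluteValue.map_neg, ← sub_eq_add_neg] at this
  refine h3.trans (max_le ?_ ?_)
  · rw [map_mul]
    exact mul_le_mul (le_max_left _ _) (le_max_right _ _) (w.nonneg _) h1.le
  · rw [map_mul]
    exact mul_le_mul (le_max_right _ _) (le_max_left _ _) (w.nonneg _) h1.le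

/-- the valuation ring -/
def O : Subring L where
  carrier := {x | w x ≤ 1}
  mul_mem' := by
    intro a b ha hb
    simp only [Set.mem_ofPred_eq] at *
    rw [map_mul]
    exact mul_le_one₀ ha (w.nonneg _) hb
  one_mem' := by simp
  add_mem' := by
    intro a b ha hb
    simp only [Set.mem_ofPred_eq] at *
    exact (hna a b).trans (max_le ha hb)
  zero_mem' := by simp
  neg_mem' := by
    intro a ha
    simp only [Set.mem_ofPred_eq] at *
    rwa [AbsoluteValue.map_neg]

lemma mem_O {x : L} : x ∈ O w hna ↔ w x ≤ 1 := Iff.rfl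

/-- a vector of norm one as a vector over the valuation ring -/
def uv (u : Fin 2 → L) (hu : nm w u = 1) : O w hna × O w hna :=
  (⟨u 0, (le_max_left _ _).trans hu.le⟩, ⟨u 1, (le_max_right _ _).trans hu.le⟩)

lemma isUnit_O {x : L} (hx : w x = 1) (h : x ∈ O w hna) : IsUnit (⟨x, h⟩ : O w hna) := by
  have hx0 : x ≠ 0 := by
    rintro rfl
    rw [map_zero] at hx
    exact zero_ne_one hx
  have h2 : x⁻¹ ∈ O w hna := by
    rw [mem_O, map_inv₀, hx, inv_one]
  refine IsUnit.of_mul_eq_one ⟨x⁻¹, h2⟩ ?_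
  apply Subtype.ext
  exact mul_inv_cancel₀ hx0

lemma uv_coprime (u : Fin 2 → L) (hu : nm w u = 1) :
    IsCoprime (uv w hna u hu).1 (uv w hna u hu).2 := by
  rcases le_total (w (u 0)) (w (u 1)) with h | h
  · have h1 : w (u 1) = 1 := by rw [← hu]; exact (max_eq_right h).symm
    obtain ⟨r, hr⟩ := (isUnit_O w hna h1 ((le_max_right _ _).trans hu.le)).exists_left_inv
    exact ⟨0, r, by rw [zero_mul, zero_add]; exact hr⟩
  · have h1 : w (u 0) = 1 := by rw [← hu]; exact (max_eq_left h).symm
    obtain ⟨r, hr⟩ := (isUnit_O w hna h1 ((le_max_left _ _).trans hu.le)).exists_left_inv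
    exact ⟨r, 0, by rw [zero_mul, add_zero]; exact hr⟩

lemma exists_lift {F : MvPolynomial (Fin 2) L} (hF : ∀ s, w (F.coeff s) ≤ 1) :
    ∃ F' : MvPolynomial (Fin 2) (O w hna), F'.map (O w hna).subtype = F := by
  classical
  refine ⟨∑ s ∈ F.support, MvPolynomial.monomial s (⟨F.coeff s, hF s⟩ : O w hna), ?_⟩
  rw [map_sum]
  conv_rhs => rw [F.as_sum]
  apply Finset.sum_congr rfl
  intro s _
  rw [MvPolynomial.map_monomial]
  rfl

lemma ev_lift {F : MvPolynomial (Fin 2) L} {F' : MvPolynomial (Fin 2) (O w hna)}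
    (h : F'.map (O w hna).subtype = F) (u : Fin 2 → L) (hu : nm w u = 1) :
    ((ev F' (uv w hna u hu) : O w hna) : L) = eval u F := by
  rw [← h, MvPolynomial.eval_map]
  unfold ev
  have : u = (O w hna).subtype ∘ ![(uv w hna u hu).1, (uv w hna u hu).2] := by
    ext i
    fin_cases i <;> rfl
  conv_rhs => rw [this]
  exact MvPolynomial.eval₂_comp (O w hna).subtype _ F'

end L

variable {K : Type} [Field K]

/-- local data at a place of potentially good reduction -/
theorem local_data {F G : MvPolynomial (Fin 2) K} {d : ℕ} {a : AbsoluteValue K ℝ}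
    (h : ∀ v : Fin 2 → K, v ≠ 0 → Phi F G v ≠ 0) (hp : PotGood a F G d) :
    ∃ N : PP K → ℝ, (∀ x, 0 < N x) ∧
      (∀ x y : PP K, a (br x.rep y.rep) / (N x * N y) ≤ 1) ∧
      (∀ x y z : PP K, a (br x.rep z.rep) / (N x * N z) ≤
        max (a (br x.rep y.rep) / (N x * N y))
          (a (br y.rep z.rep) / (N y * N z))) ∧
      (∀ (P Q : PP K) (T : Finset (PP K)), (∀ x ∈ T, fX F G h x = Q) →
        a (br (fX F G h P).rep Q.rep) / (N (fX F G h P) * N Q) ≤
          ∏ x ∈ T, (a (br P.rep x.rep) / (N P * N x))) := by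
  classical
  obtain ⟨L, _, _, w, A, c, F₁, G₁, hna, hw, hA, hc, hF₁, hG₁, hFi, hGi, hR, hconj⟩ := hp
  let ι : (Fin 2 → K) → (Fin 2 → L) := fun v i => algebraMap K L (v i)
  have hι : ∀ v, v ≠ 0 → ι v ≠ 0 := by
    intro v hv h0
    apply hv
    ext i
    have : algebraMap K L (v i) = 0 := congrFun h0 i
    exact (map_eq_zero _).mp this
  let B : PP K → (Fin 2 → L) := fun x => A.mulVec (ι x.rep)
  have hA0 : ∀ u : Fin 2 → L, u ≠ 0 → A.mulVec u ≠ 0 := by
    intro u hu h0
    exact hu (Matrix.eq_zero_of_mulVec_eq_zero hA h0)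
  have hB : ∀ x, B x ≠ 0 := fun x => hA0 _ (hι _ x.rep_nonzero)
  have hD : 0 < w A.det := w.pos hA
  have hbrA : ∀ u v : Fin 2 → L, br (A.mulVec u) (A.mulVec v) = A.det * br u v := by
    intro u v
    unfold br
    rw [Matrix.det_fin_two]
    simp only [Matrix.mulVec, dotProduct, Fin.sum_univ_two]
    ring
  have hbrι : ∀ u v : Fin 2 → K, br (ι u) (ι v) = algebraMap K L (br u v) := by
    intro u v
    unfold br
    simp only [ι, map_sub, map_mul]
  have hδ : ∀ x y : PP K, a (br x.rep y.rep) /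
      (nm w (B x) / Real.sqrt (w A.det) * (nm w (B y) / Real.sqrt (w A.det))) =
        dL w (B x) (B y) := by
    intro x y
    unfold dL
    simp only [B]
    rw [hbrA, hbrι, map_mul, hw]
    have h1 := nm_pos w (hB x)
    have h2 := nm_pos w (hB y)
    simp only [B] at h1 h2
    have h3 : Real.sqrt (w A.det) * Real.sqrt (w A.det) = w A.det := Real.mul_self_sqrt hD.le
    have h4 : 0 < Real.sqrt (w A.det) := Real.sqrt_pos.mpr hD
    rw [div_mul_div_comm, h3]
    field_simp
  refine ⟨fun x => nm w (B x) / Real.sqrt (w A.det), ?_, ?_, ?_, ?_⟩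
  · intro x
    have h1 := nm_pos w (hB x)
    have h4 : 0 < Real.sqrt (w A.det) := Real.sqrt_pos.mpr hD
    positivity
  · intro x y
    simp only
    rw [hδ]
    exact dL_le_one w hna (hB x) (hB y)
  · intro x y z
    simp only
    rw [hδ, hδ, hδ]
    exact dL_ultra w hna (hB x) (hB y) (hB z)
  · intro P Q T hT
    simp only
    rw [hδ]
    simp only [hδ]
    have hrep : ∀ x : PP K, ∃ μ : L, μ ≠ 0 ∧ B (fX F G h x) = μ • Phi F₁ G₁ (B x) := by
      intro x
      obtain ⟨b, ha⟩ := Projectivization.exists_smul_eq_mk_rep K (Phi F G x.rep)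
        (h _ x.rep_nonzero)
      refine ⟨algebraMap K L (b : K) * c,
        mul_ne_zero ((map_ne_zero (algebraMap K L)).mpr b.ne_zero) hc, ?_⟩
      have h1 : (fX F G h x).rep = (b : K) • Phi F G x.rep := by
        unfold fX
        rw [← ha]; rfl
      have h2 : ι ((b : K) • Phi F G x.rep) = algebraMap K L (b : K) •
          Phi (F.map (algebraMap K L)) (G.map (algebraMap K L)) (ι x.rep) := by
        have hev : ∀ H : MvPolynomial (Fin 2) K,
            algebraMap K L (eval x.rep H) = eval (ι x.rep) (H.map (algebraMap K L)) := by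
          intro H
          rw [eval_map]
          exact eval₂_comp (algebraMap K L) x.rep H
        ext i
        fin_cases i
        · change algebraMap K L ((b : K) * eval x.rep F) = algebraMap K L (b : K) *
            eval (ι x.rep) (F.map (algebraMap K L))
          rw [map_mul, hev]
        · change algebraMap K L ((b : K) * eval x.rep G) = algebraMap K L (b : K) *
            eval (ι x.rep) (G.map (algebraMap K L))
          rw [map_mul, hev]
      simp only [B]
      rw [h1, h2, Matrix.mulVec_smul, hconj, smul_smul]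
    -- unit vectors
    have hscale : ∀ x : PP K, ∃ c : L, c ≠ 0 ∧ nm w (c • B x) = 1 := by
      intro x
      have h := nm_pos w (hB x)
      rcases le_total (w (B x 0)) (w (B x 1)) with h1 | h1
      · have h2 : nm w (B x) = w (B x 1) := max_eq_right h1
        have h3 : B x 1 ≠ 0 := by
          intro h0; rw [h2, h0, map_zero] at h; exact lt_irrefl _ h
        refine ⟨(B x 1)⁻¹, inv_ne_zero h3, ?_⟩
        rw [nm_smul, h2, map_inv₀]
        exact inv_mul_cancel₀ (w.ne_zero h3)
      · have h2 : nm w (B x) = w (B x 0) := max_eq_left h1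
        have h3 : B x 0 ≠ 0 := by
          intro h0; rw [h2, h0, map_zero] at h; exact lt_irrefl _ h
        refine ⟨(B x 0)⁻¹, inv_ne_zero h3, ?_⟩
        rw [nm_smul, h2, map_inv₀]
        exact inv_mul_cancel₀ (w.ne_zero h3)
    choose k hk0 hk1 using hscale
    set u : PP K → (Fin 2 → L) := fun x => k x • B x with hu
    obtain ⟨F', hF'⟩ := exists_lift w hna hFi
    obtain ⟨G', hG'⟩ := exists_lift w hna hGi
    have hsub : Function.Injective (O w hna).subtype := Subtype.val_injective
    have hF'h : F'.IsHomogeneous d := by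
      apply MvPolynomial.IsHomogeneous.of_map hsub
      rw [hF']; exact hF₁
    have hG'h : G'.IsHomogeneous d := by
      apply MvPolynomial.IsHomogeneous.of_map hsub
      rw [hG']; exact hG₁
    let U : PP K → O w hna × O w hna := fun x => uv w hna (u x) (hk1 x)
    have hdtU : ∀ x y : PP K, ((dt (U x) (U y) : O w hna) : L) = br (u x) (u y) := by
      intro x y
      rfl
    have hw1 : ∀ x y : PP K, w (br (u x) (u y)) = dL w (B x) (B y) := by
      intro x y
      rw [← dL_smul w (hk0 x) (hk0 y) (B x) (B y)]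
      unfold dL
      rw [hk1, hk1, mul_one, div_one]
    -- the form
    set H : MvPolynomial (Fin 2) (O w hna) := C (U Q).2 * F' - C (U Q).1 * G' with hH
    have hHh : H.IsHomogeneous d := by
      apply MvPolynomial.IsHomogeneous.sub
      · simpa using (MvPolynomial.isHomogeneous_C (Fin 2) (U Q).2).mul hF'h
      · simpa using (MvPolynomial.isHomogeneous_C (Fin 2) (U Q).1).mul hG'h
    have hHev : ∀ x : PP K, ((ev H (U x) : O w hna) : L) = br (Phi F₁ G₁ (u x)) (u Q) := by
      intro x
      rw [hH, ev_sub, ev_mul, ev_mul, ev_C, ev_C]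
      have e1 := ev_lift w hna hF' (u x) (hk1 x)
      have e2 := ev_lift w hna hG' (u x) (hk1 x)
      have e3 : (((U Q).2 * ev F' (U x) - (U Q).1 * ev G' (U x) : O w hna) : L) =
        u Q 1 * ((ev F' (U x) : O w hna) : L) - u Q 0 * ((ev G' (U x) : O w hna) : L) := rfl
      rw [e3, e1, e2]
      unfold br Phi
      simp
      ring
    have hpar : ∀ x : PP K, ∃ ν : L, ν ≠ 0 ∧ u (fX F G h x) = ν • Phi F₁ G₁ (u x) := by
      intro x
      obtain ⟨μ, hμ, e⟩ := hrep x
      refine ⟨k (fX F G h x) * μ * (k x ^ d)⁻¹, ?_, ?_⟩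
      · exact mul_ne_zero (mul_ne_zero (hk0 _) hμ) (inv_ne_zero (pow_ne_zero _ (hk0 x)))
      · have e2 : Phi F₁ G₁ (u x) = k x ^ d • Phi F₁ G₁ (B x) := phi_smul hF₁ hG₁ _ _
        rw [e2, smul_smul, mul_assoc, inv_mul_cancel₀ (pow_ne_zero _ (hk0 x)), mul_one]
        simp only [hu]
        rw [e, smul_smul]
    have hzero : ∀ x ∈ T, ev H (U x) = 0 := by
      intro x hx
      apply hsub
      change ((ev H (U x) : O w hna) : L) = _
      rw [hHev]
      obtain ⟨ν, hν, e⟩ := hpar x
      rw [hT x hx] at e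
      rw [e]
      unfold br
      simp
      ring
    have hcop : ∀ x ∈ T, IsCoprime (U x).1 (U x).2 := fun x _ => uv_coprime w hna _ _
    have hne : ∀ x ∈ T, ∀ y ∈ T, x ≠ y → dt (U x) (U y) ≠ 0 := by
      intro x _ y _ hxy h0
      apply hxy
      have h1 : br (u x) (u y) = 0 := by
        rw [← hdtU, h0]; rfl
      simp only [hu] at h1
      rw [br_smul] at h1
      have h2 : br (B x) (B y) = 0 :=
        (mul_eq_zero.1 h1).resolve_left (mul_ne_zero (hk0 x) (hk0 y))
      simp only [B] at h2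
      rw [hbrA, hbrι] at h2
      have h3 : algebraMap K L (br x.rep y.rep) = 0 := (mul_eq_zero.1 h2).resolve_left hA
      have h4 : br x.rep y.rep = 0 := (map_eq_zero _).1 h3
      have h5 := (br_zero_iff x.rep_nonzero y.rep_nonzero).1 h4
      rwa [x.mk_rep, y.mk_rep] at h5
    obtain ⟨r, hr⟩ := prod_dt_dvd T U hcop hne hHh hzero (U P)
    have hr' : br (Phi F₁ G₁ (u P)) (u Q) = (∏ x ∈ T, br (u P) (u x)) * (r : L) := by
      rw [← hHev, hr]
      push_cast
      rfl
    have hle : w (br (Phi F₁ G₁ (u P)) (u Q)) ≤ ∏ x ∈ T, dL w (B P) (B x) := by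
      rw [hr', map_mul, map_prod]
      have h1 : w (r : L) ≤ 1 := r.2
      have h2 : ∏ x ∈ T, w (br (u P) (u x)) = ∏ x ∈ T, dL w (B P) (B x) :=
        Finset.prod_congr rfl (fun x _ => hw1 P x)
      rw [h2]
      have h3 : 0 ≤ ∏ x ∈ T, dL w (B P) (B x) := by
        apply Finset.prod_nonneg
        intro x _
        unfold dL
        have := nm_pos w (hB P)
        have := nm_pos w (hB x)
        have := w.nonneg (br (B P) (B x))
        positivity
      calc _ ≤ (∏ x ∈ T, dL w (B P) (B x)) * 1 := mul_le_mul_of_nonneg_left h1 h3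
        _ = _ := mul_one _
    refine le_trans (le_of_eq ?_) hle
    -- `dL (B (f P)) (B Q) = w (br (Phi (u P)) (u Q))`
    obtain ⟨ν, hν, e⟩ := hpar P
    have e1 : dL w (B (fX F G h P)) (B Q) = dL w (u (fX F G h P)) (u Q) := by
      simp only [hu]
      rw [dL_smul w (hk0 _) (hk0 _)]
    have e2 : dL w (u (fX F G h P)) (u Q) = dL w (Phi F₁ G₁ (u P)) (u Q) := by
      rw [e]
      have := dL_smul w hν (one_ne_zero : (1 : L) ≠ 0) (Phi F₁ G₁ (u P)) (u Q)
      rwa [one_smul] at this
    rw [e1, e2]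
    unfold dL
    rw [hR _ (hk1 P), hk1, mul_one, div_one]

end Pool.Agent.TH856.PG
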