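import Pool.Agent.TH856.PG.Field
import Pool.Agent.TH856.PG.Local
import Pool.Agent.TH856.PG.Count

set_option autoImplicit false

/-!
# The system of a map with everywhere potentially good reduction
-/

namespace Pool.Agent.TH856.PG

open NumberField IsDedekindDomain MvPolynomial
open Pool.Agent.H892.PGR (br nm dL nm_pos nm_smul br_smul dL_smul dL_ultra Phi phi_smul)
open Pool.Agent.H892.PGK (PotGood PP fX fX_mk br_zero_iff)

section units
variable (K : Type) [Field K] [NumberField K]

/-- the elements with all finite absolute values equal to one -/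
def U1 : Set K := {z | z ≠ 0 ∧ ∀ v : HeightOneSpectrum (𝓞 K),
  NumberField.HeightOneSpectrum.adicAbv K v z = 1}

lemma integral_of_le {z : K} (h : ∀ v : HeightOneSpectrum (𝓞 K),
    NumberField.HeightOneSpectrum.adicAbv K v z ≤ 1) : IsIntegral ℤ z := by
  have h1 : ∀ v : HeightOneSpectrum (𝓞 K), v.valuation K z ≤ 1 := by
    intro v
    have h2 := h v
    rw [NumberField.HeightOneSpectrum.adicAbv_def] at h2
    exact ((WithZeroMulInt.toNNReal_le_one_iff (HeightOneSpectrum.one_lt_absNorm_nnreal v)).mp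
      (by exact_mod_cast h2))
  obtain ⟨r, hr⟩ := HeightOneSpectrum.mem_integers_of_valuation_le_one K z h1
  rw [← hr]
  exact RingOfIntegers.isIntegral_coe r

variable {K} {w : InfinitePlace K} (hw : ∀ w' : InfinitePlace K, w' = w)

include hw in
lemma U1_norm {z : K} (hz : z ∈ U1 K) : w z = 1 := by
  have h1 := prod_formula K hw hz.1
  rw [finprod_eq_one_of_forall_eq_one hz.2] at h1
  have h2 : w z ^ w.mult = 1 := by
    rw [← inv_inv (w z ^ w.mult), ← h1, inv_one]
  exact (pow_eq_one_iff_of_nonneg (apply_nonneg _ _) InfinitePlace.mult_ne_zero).1 h2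

include hw in
lemma U1_finite : (U1 K).Finite := by
  apply (NumberField.Embeddings.finite_of_norm_le K ℂ 1).subset
  intro z hz
  refine ⟨integral_of_le K (fun v => (hz.2 v).le), fun φ => ?_⟩
  have h1 := U1_norm hw hz
  rw [← hw (InfinitePlace.mk φ), InfinitePlace.apply] at h1
  exact h1.le

include hw in
lemma one_le_of_integral {z : K} (hz : z ≠ 0) (h : ∀ v : HeightOneSpectrum (𝓞 K),
    NumberField.HeightOneSpectrum.adicAbv K v z ≤ 1) : 1 ≤ w z := by
  have h1 := prod_formula K hw hz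
  have h2 : ∏ᶠ v : HeightOneSpectrum (𝓞 K), NumberField.HeightOneSpectrum.adicAbv K v z ≤ 1 := by
    rw [finprod_eq_prod_of_mulSupport_subset _
      (s := (finite_supp K hz).toFinset) (by simp)]
    exact Finset.prod_le_one (fun v _ => (NumberField.HeightOneSpectrum.adicAbv K v).nonneg z)
      (fun v _ => h v)
  rw [h1] at h2
  have h3 : 0 < w z := InfinitePlace.pos_iff.2 hz
  have h4 : 1 ≤ w z ^ w.mult := by
    rw [inv_le_one₀ (pow_pos h3 _)] at h2
    exact h2
  by_contra hlt
  push Not at hlt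
  have := pow_lt_one₀ h3.le hlt (InfinitePlace.mult_ne_zero (w := w))
  linarith

include hw in
lemma card_U1_le (T : Finset K) (hT : ∀ z ∈ T, z ∈ U1 K) : T.card ≤ 6 := by
  classical
  have hinj : Function.Injective w.embedding := w.embedding.injective
  rw [← Finset.card_image_of_injective T hinj]
  apply pack_circle
  · intro z hz
    obtain ⟨x, hx, rfl⟩ := Finset.mem_image.1 hz
    rw [InfinitePlace.norm_embedding_eq]
    exact U1_norm hw (hT x hx)
  · intro z hz z' hz' hne
    obtain ⟨x, hx, rfl⟩ := Finset.mem_image.1 hz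
    obtain ⟨x', hx', rfl⟩ := Finset.mem_image.1 hz'
    rw [← map_sub, InfinitePlace.norm_embedding_eq]
    apply one_le_of_integral hw
    · intro h0
      exact hne (by rw [sub_eq_zero.1 h0])
    · intro v
      rw [sub_eq_add_neg]
      refine (NumberField.HeightOneSpectrum.adicAbv_add_le_max K v x (-x')).trans ?_
      rw [AbsoluteValue.map_neg, (hT x hx).2 v, (hT x' hx').2 v, max_self]

end units

section sys
variable {K : Type} [Field K]

lemma phi_ne_zero {F G : MvPolynomial (Fin 2) K} (h0 : NoZero F G) (v : Fin 2 → K) (hv : v ≠ 0) :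
    Phi F G v ≠ 0 := by
  intro h
  have h1 : eval v F = 0 := congrFun h 0
  have h2 : eval v G = 0 := congrFun h 1
  apply h0 (fun i => algebraMap K _ (v i))
  · intro h3
    apply hv
    ext i
    have := congrFun h3 i
    exact (map_eq_zero _).1 this
  · have key : ∀ H : MvPolynomial (Fin 2) K, eval v H = 0 →
        MvPolynomial.aeval (fun i => algebraMap K (AlgebraicClosure K) (v i)) H = 0 := by
      intro H hH
      have : MvPolynomial.aeval (fun i => algebraMap K (AlgebraicClosure K) (v i)) H =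
          algebraMap K (AlgebraicClosure K) (eval v H) := by
        rw [MvPolynomial.aeval_def]
        exact (MvPolynomial.eval₂_comp (algebraMap K (AlgebraicClosure K)) v H).symm
      rw [this, hH, map_zero]
    exact ⟨key F h1, key G h2⟩

/-- the vector of a point -/
noncomputable def wv (P : PP K) : K × K := (P.rep 0, P.rep 1)

lemma wv_ne_zero (P : PP K) : wv P ≠ 0 := by
  intro h
  apply P.rep_nonzero
  ext i
  fin_cases i
  · exact congrArg Prod.fst h
  · exact congrArg Prod.snd h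

lemma dt_wv (P Q : PP K) : dt (wv P) (wv Q) = br P.rep Q.rep := rfl

lemma dt_wv_ne {P Q : PP K} (h : P ≠ Q) : dt (wv P) (wv Q) ≠ 0 := by
  intro h0
  apply h
  rw [dt_wv] at h0
  have := (br_zero_iff P.rep_nonzero Q.rep_nonzero).1 h0
  rwa [P.mk_rep, Q.mk_rep] at this

lemma ev_wv (H : MvPolynomial (Fin 2) K) (P : PP K) : ev H (wv P) = eval P.rep H := by
  unfold ev wv
  congr 2
  ext i
  fin_cases i <;> rfl

lemma rep_fX {F G : MvPolynomial (Fin 2) K} (h : ∀ v : Fin 2 → K, v ≠ 0 → Phi F G v ≠ 0)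
    (P : PP K) : ∃ b : K, b ≠ 0 ∧ (fX F G h P).rep = b • Phi F G P.rep := by
  obtain ⟨b, hb⟩ := Projectivization.exists_smul_eq_mk_rep K (Phi F G P.rep) (h _ P.rep_nonzero)
  refine ⟨b, b.ne_zero, ?_⟩
  unfold fX
  rw [← hb]
  rfl

/-- determinants with the image -/
lemma dt_fX {F G : MvPolynomial (Fin 2) K} (h : ∀ v : Fin 2 → K, v ≠ 0 → Phi F G v ≠ 0)
    (P : PP K) (q : K × K) : ∃ b : K, b ≠ 0 ∧ dt (wv (fX F G h P)) q =
      b * dt (ev F (wv P), ev G (wv P)) q := by
  obtain ⟨b, hb, hr⟩ := rep_fX h P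
  refine ⟨b, hb, ?_⟩
  have e0 : (fX F G h P).rep 0 = b * eval P.rep F := by rw [hr]; rfl
  have e1 : (fX F G h P).rep 1 = b * eval P.rep G := by rw [hr]; rfl
  rw [ev_wv, ev_wv]
  unfold dt wv
  rw [e0, e1]
  ring

variable {V : Type} {av : V → AbsoluteValue K ℝ} {d : ℕ} {F G : MvPolynomial (Fin 2) K}

lemma exists_idem {ι : Type} [Finite ι] (f : ι → ι) :
    ∃ N, 0 < N ∧ ∀ x, f^[N] (f^[N] x) = f^[N] x := by
  classical
  obtain ⟨a, b, hab, h⟩ := Finite.exists_ne_map_eq_of_infinite (fun n : ℕ => (f^[n] : ι → ι))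
  wlog hlt : a < b generalizing a b
  · exact this b a hab.symm h.symm (lt_of_le_of_ne (not_lt.1 hlt) hab.symm)
  obtain ⟨p, hp, rfl⟩ : ∃ p, 0 < p ∧ b = a + p := ⟨b - a, by omega, by omega⟩
  have key : ∀ k n, a ≤ n → ∀ x, f^[n + p * k] x = f^[n] x := by
    intro k
    induction k with
    | zero => intro n _ x; rfl
    | succ k ih =>
      intro n hn x
      obtain ⟨t, rfl⟩ := Nat.exists_eq_add_of_le hn
      have : a + t + p * (k + 1) = (t + p * k) + (a + p) := by ring
      rw [this, Function.iterate_add_apply, ← h, ← Function.iterate_add_apply]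
      have : t + p * k + a = a + t + p * k := by ring
      rw [this]
      exact ih _ hn x
  refine ⟨p * (a + 1), by positivity, fun x => ?_⟩
  rw [← Function.iterate_add_apply]
  apply key
  nlinarith

/-- a finite set of points with finite orbits lies in a finite invariant set -/
lemma exists_invariant {X : Type*} [DecidableEq X] (f : X → X) (T : Finset X)
    (hT : ∀ P ∈ T, ∃ m n : ℕ, m < n ∧ f^[n] P = f^[m] P) :
    ∃ T' : Finset X, T ⊆ T' ∧ ∀ P ∈ T', f P ∈ T' := by
  classical
  choose! m n hmn h using hT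
  refine ⟨T.biUnion (fun P => (Finset.range (n P)).image (fun k => f^[k] P)), ?_, ?_⟩
  · intro P hP
    rw [Finset.mem_biUnion]
    refine ⟨P, hP, Finset.mem_image.2 ⟨0, ?_, rfl⟩⟩
    have := hmn P hP
    exact Finset.mem_range.2 (by omega)
  · intro Q hQ
    rw [Finset.mem_biUnion] at hQ ⊢
    obtain ⟨P, hP, hQ⟩ := hQ
    obtain ⟨k, hk, rfl⟩ := Finset.mem_image.1 hQ
    rw [Finset.mem_range] at hk
    refine ⟨P, hP, ?_⟩
    rw [← Function.iterate_succ_apply' f k P]
    rcases Nat.lt_or_ge (k + 1) (n P) with h1 | h1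
    · exact Finset.mem_image.2 ⟨k + 1, Finset.mem_range.2 h1, rfl⟩
    · have h2 : k + 1 = n P := by omega
      refine Finset.mem_image.2 ⟨m P, Finset.mem_range.2 (hmn P hP), ?_⟩
      show f^[m P] P = f^[k + 1] P
      rw [h2, h P hP]

/-- The system of a finite invariant set of points, for a field with given places. -/
theorem exists_sys [DecidableEq (PP K)] [DecidableEq V]
    (nrm : AbsoluteValue K ℝ) (e : ℕ) (he : 0 < e) (mu : Finset K)
    (hmu : ∀ z : K, z ≠ 0 → (∀ v, av v z = 1) → z ∈ mu)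
    (disc : ∀ v z, 1 < av v z → 2 ≤ av v z)
    (hfin : ∀ z : K, z ≠ 0 → ∃ S0 : Finset V, ∀ v, av v z ≠ 1 → v ∈ S0)
    (hprod : ∀ z : K, z ≠ 0 → ∀ S0 : Finset V, (∀ v, av v z ≠ 1 → v ∈ S0) →
      ∏ v ∈ S0, av v z = (nrm z ^ e)⁻¹)
    (Bd : ℕ) (pack : ∀ (s : ℝ), 0 < s → ∀ T : Finset K, (∀ z ∈ T, nrm z ≤ 2 * s) →
      (∀ z ∈ T, ∀ z' ∈ T, z ≠ z' → s ≤ nrm (z - z')) → T.card ≤ Bd)
    (hd : 2 ≤ d) (hF : F.IsHomogeneous d) (hG : G.IsHomogeneous d) (h0 : NoZero F G)
    (hp : ∀ v, PotGood (av v) F G d) (T : Finset (PP K))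
    (hT : ∀ P ∈ T, fX F G (phi_ne_zero h0) P ∈ T) :
    ∃ S : Sys K V {P // P ∈ T} d, (∀ P : {P // P ∈ T}, (S.f P : PP K) = fX F G (phi_ne_zero h0) P) ∧
      S.mu = mu ∧ S.e = e ∧ S.Bd = Bd := by
  classical
  set hne := phi_ne_zero h0
  let f : {P // P ∈ T} → {P // P ∈ T} := fun P => ⟨fX F G hne P, hT P P.2⟩
  obtain ⟨M, hM, hidem⟩ := exists_idem f
  choose N hN1 hN2 hN3 hN4 using fun (v : V) => local_data hne (hp v)
  -- a finite set of places
  have hinj : ∀ i j : {P // P ∈ T}, i ≠ j → dt (wv (i : PP K)) (wv (j : PP K)) ≠ 0 :=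
    fun i j h => dt_wv_ne (fun e => h (Subtype.ext e))
  have hS0 : ∃ S0 : Finset V, ∀ i j : {P // P ∈ T}, i ≠ j → ∀ v,
      av v (dt (wv (i : PP K)) (wv (j : PP K))) ≠ 1 → v ∈ S0 := by
    have : ∀ p : {P // P ∈ T} × {P // P ∈ T}, ∃ S0 : Finset V, p.1 ≠ p.2 → ∀ v,
        av v (dt (wv (p.1 : PP K)) (wv (p.2 : PP K))) ≠ 1 → v ∈ S0 := by
      intro p
      by_cases h : p.1 = p.2
      · exact ⟨∅, fun h' => absurd h h'⟩
      · obtain ⟨S0, hS0⟩ := hfin _ (hinj p.1 p.2 h)
        exact ⟨S0, fun _ => hS0⟩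
    choose S0 hS0 using this
    refine ⟨Finset.univ.biUnion S0, fun i j hij v hv => ?_⟩
    rw [Finset.mem_biUnion]
    exact ⟨(i, j), Finset.mem_univ _, hS0 (i, j) hij v hv⟩
  obtain ⟨S0, hS0⟩ := hS0
  let N' : V → {P // P ∈ T} → ℝ := fun v i => if v ∈ S0 then N v i else 1
  have hN'1 : ∀ v ∈ S0, ∀ i, N' v i = N v i := fun v hv i => if_pos hv
  have hN'0 : ∀ v, v ∉ S0 → ∀ i, N' v i = 1 := fun v hv i => if_neg hv
  have hδ0 : ∀ v, v ∉ S0 → ∀ i j : {P // P ∈ T},
      av v (dt (wv (i : PP K)) (wv (j : PP K))) / (N' v i * N' v j) = if i = j then 0 else 1 := by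
    intro v hv i j
    rw [hN'0 v hv, hN'0 v hv, mul_one, div_one]
    by_cases hij : i = j
    · rw [if_pos hij, hij, dt_self, map_zero]
    · rw [if_neg hij]
      by_contra hcon
      exact hv (hS0 i j hij v hcon)
  have hhom : ∀ q : K × K, (C q.2 * F - C q.1 * G).IsHomogeneous d := by
    intro q
    apply MvPolynomial.IsHomogeneous.sub
    · simpa using (MvPolynomial.isHomogeneous_C (Fin 2) q.2).mul hF
    · simpa using (MvPolynomial.isHomogeneous_C (Fin 2) q.1).mul hG
  have hevf : ∀ (q v : K × K), ev (C q.2 * F - C q.1 * G) v = dt (ev F v, ev G v) q := by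
    intro q v
    simp only [ev_sub, ev_mul, ev_C, dt]
    ring
  refine ⟨{
    av := av
    S0 := S0
    nrm := nrm
    e := e
    he := he
    mu := mu
    hmu := hmu
    disc := disc
    w := fun i => wv i
    inj := hinj
    N := N'
    N_pos := ?_
    triv := ?_
    prodf := ?_
    le_one' := ?_
    ultra' := ?_
    f := f
    hA' := ?_
    hB := ?_
    hC := ?_
    M := M
    hM := hM
    idem := hidem
    Bd := Bd
    pack := pack }, fun P => rfl, rfl, rfl, rfl⟩
  · intro v i
    simp only [N']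
    split_ifs
    · exact hN1 v _
    · exact zero_lt_one
  · intro v hv i j hij
    rw [hδ0 v hv, if_neg hij]
  · intro i j hij
    exact hprod _ (hinj i j hij) S0 (hS0 i j hij)
  · intro v i j
    by_cases hv : v ∈ S0
    · rw [hN'1 v hv, hN'1 v hv]
      exact hN2 v i j
    · rw [hδ0 v hv]
      split_ifs <;> norm_num
  · intro v i j k
    by_cases hv : v ∈ S0
    · rw [hN'1 v hv, hN'1 v hv, hN'1 v hv]
      exact hN3 v i j k
    · rw [hδ0 v hv, hδ0 v hv, hδ0 v hv]
      by_cases h1 : i = j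
      · subst h1
        rw [if_pos rfl]
        exact le_max_right _ _
      · rw [if_neg h1]
        refine le_trans ?_ (le_max_left _ _)
        split_ifs <;> norm_num
  · intro v P Q
    by_cases hv : v ∈ S0
    · rw [hN'1 v hv, hN'1 v hv]
      have h1 := hN4 v P Q ((Finset.univ.filter (fun P' => f P' = Q)).image
        (fun x : {P // P ∈ T} => (x : PP K))) (by
          intro x hx
          obtain ⟨x', hx', rfl⟩ := Finset.mem_image.1 hx
          exact congrArg Subtype.val (Finset.mem_filter.1 hx').2)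
      rw [Finset.prod_image (fun x _ y _ h => Subtype.ext h)] at h1
      refine le_trans h1 (le_of_eq ?_)
      apply Finset.prod_congr rfl
      intro x _
      rw [hN'1 v hv, hN'1 v hv]
      rfl
    · rw [hδ0 v hv]
      simp only [hδ0 v hv]
      by_cases hPQ : f P = Q
      · rw [if_pos hPQ]
        apply Finset.prod_nonneg
        intro x _
        split_ifs <;> norm_num
      · rw [if_neg hPQ, Finset.prod_eq_one]
        intro x hx
        rw [if_neg]
        rintro rfl
        exact hPQ (Finset.mem_filter.1 hx).2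
  · intro Q
    apply card_zeros_le _ (fun P' : {P // P ∈ T} => wv (P' : PP K))
      (fun i _ => coprime_of_ne_zero (wv_ne_zero _)) (fun i _ j _ h => hinj i j h)
      (hhom (wv (Q : PP K))) (fibre_ne_zero (by omega) hF hG h0 (wv_ne_zero _))
    intro i hi
    have hi' : (fX F G hne i : PP K) = Q := congrArg Subtype.val (Finset.mem_filter.1 hi).2
    rw [hevf]
    obtain ⟨b, hb, e1⟩ := dt_fX hne (i : PP K) (wv (Q : PP K))
    rw [hi', dt_self] at e1
    exact (mul_eq_zero.1 e1.symm).resolve_left hb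
  · intro α β γ δ hΔ s hs
    apply card_zeros_le s (fun P' : {P // P ∈ T} => wv (P' : PP K))
      (fun i _ => coprime_of_ne_zero (wv_ne_zero _)) (fun i _ j _ h => hinj i j h)
      (F := F * (C γ * X 0 + C δ * X 1) - G * (C α * X 0 + C β * X 1))
      ?_ (moebius_ne_zero hd hF h0 hΔ) ?_
    · have hlin : ∀ a b : K, (C a * X 0 + C b * X 1 : MvPolynomial (Fin 2) K).IsHomogeneous 1 := by
        intro a b
        apply MvPolynomial.IsHomogeneous.add
        · simpa using (MvPolynomial.isHomogeneous_C (Fin 2) a).mul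
            (MvPolynomial.isHomogeneous_X K (0 : Fin 2))
        · simpa using (MvPolynomial.isHomogeneous_C (Fin 2) b).mul
            (MvPolynomial.isHomogeneous_X K (1 : Fin 2))
      exact MvPolynomial.IsHomogeneous.sub (hF.mul (hlin _ _)) (hG.mul (hlin _ _))
    · intro i hi
      have e0 := hs i hi
      obtain ⟨b, hb, e1⟩ := dt_fX hne (i : PP K) (α * (wv (i : PP K)).1 + β * (wv (i : PP K)).2,
        γ * (wv (i : PP K)).1 + δ * (wv (i : PP K)).2)
      have e2 : dt (wv (fX F G hne i)) (α * (wv (i : PP K)).1 + β * (wv (i : PP K)).2,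
        γ * (wv (i : PP K)).1 + δ * (wv (i : PP K)).2) = 0 := e0
      rw [e2] at e1
      have e3 := (mul_eq_zero.1 e1.symm).resolve_left hb
      rw [← e3]
      simp only [ev_sub, ev_mul, dt]
      simp [ev]

end sys

end Pool.Agent.TH856.PG
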