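import Mathlib

set_option autoImplicit false

/-!
# Binary forms over an integral domain and their primitive zeros
-/

namespace Pool.Agent.TH856.PG

open MvPolynomial

variable {R : Type*} [CommRing R]

/-- the determinant of two vectors -/
def dt (a b : R × R) : R := a.1 * b.2 - a.2 * b.1

/-- value of a binary form at a vector -/
noncomputable def ev (F : MvPolynomial (Fin 2) R) (v : R × R) : R :=
  MvPolynomial.eval ![v.1, v.2] F

/-- the linear form vanishing at `a`; its value at `v` is `dt v a` -/
noncomputable def lin (a : R × R) : MvPolynomial (Fin 2) R := C a.2 * X 0 - C a.1 * X 1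

lemma ev_lin (a v : R × R) : ev (lin a) v = dt v a := by
  simp [ev, lin, dt]; ring

lemma ev_mul (F G : MvPolynomial (Fin 2) R) (v : R × R) : ev (F * G) v = ev F v * ev G v := by
  simp [ev]

lemma ev_sub (F G : MvPolynomial (Fin 2) R) (v : R × R) : ev (F - G) v = ev F v - ev G v := by
  simp [ev]

lemma ev_C (c : R) (v : R × R) : ev (C c) v = c := by
  simp [ev]

lemma ev_prod {ι : Type*} (s : Finset ι) (F : ι → MvPolynomial (Fin 2) R) (v : R × R) :
    ev (∏ i ∈ s, F i) v = ∏ i ∈ s, ev (F i) v := by
  simp [ev, map_prod]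

lemma lin_hom (a : R × R) : (lin a).IsHomogeneous 1 := by
  unfold lin
  refine MvPolynomial.IsHomogeneous.sub ?_ ?_
  · simpa using (MvPolynomial.isHomogeneous_C (Fin 2) a.2).mul
      (MvPolynomial.isHomogeneous_X R (0 : Fin 2))
  · simpa using (MvPolynomial.isHomogeneous_C (Fin 2) a.1).mul
      (MvPolynomial.isHomogeneous_X R (1 : Fin 2))

/-- restriction of a polynomial to the line through `a` -/
noncomputable def psi (a : R × R) : MvPolynomial (Fin 2) R →ₐ[R] Polynomial R :=
  MvPolynomial.aeval ![Polynomial.C a.1 * Polynomial.X, Polynomial.C a.2 * Polynomial.X]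

lemma psi_lin (a b : R × R) : psi a (lin b) = Polynomial.C (dt a b) * Polynomial.X := by
  simp [psi, lin, dt]
  ring

lemma hom_deg {F : MvPolynomial (Fin 2) R} {n : ℕ} (hF : F.IsHomogeneous n) {m : Fin 2 →₀ ℕ}
    (hm : m ∈ F.support) : m 0 + m 1 = n := by
  by_contra hne
  have := hF.coeff_eq_zero (d := m) (by
    rw [Finsupp.degree_eq_sum]; simpa using hne)
  exact (MvPolynomial.mem_support_iff.1 hm) this

/-- for homogeneous `F` the restriction is a monomial -/
lemma psi_hom {F : MvPolynomial (Fin 2) R} {n : ℕ} (hF : F.IsHomogeneous n) (a : R × R) :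
    psi a F = Polynomial.C (ev F a) * Polynomial.X ^ n := by
  rw [psi, ev, MvPolynomial.aeval_def, MvPolynomial.eval₂_eq', MvPolynomial.eval_eq', map_sum,
    Finset.sum_mul]
  apply Finset.sum_congr rfl
  intro m hm
  have hd' := hom_deg hF hm
  simp only [Fin.prod_univ_two, Matrix.cons_val_zero, Matrix.cons_val_one, mul_pow, map_mul,
    map_pow, ← hd', pow_add]
  simp
  ring

/-- a polynomial whose restriction to the line through the primitive vector `a` vanishes is
divisible by the linear form of `a` -/
lemma lin_dvd {a : R × R} (ha : IsCoprime a.1 a.2) {F : MvPolynomial (Fin 2) R}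
    (h : psi a F = 0) : lin a ∣ F := by
  obtain ⟨u, w, huw⟩ := ha
  rw [← Ideal.mem_span_singleton, ← Ideal.Quotient.eq_zero_iff_mem]
  set q := Ideal.Quotient.mk (Ideal.span {lin a}) with hq
  -- `m = u X + w Y`
  set m : MvPolynomial (Fin 2) R := C u * X 0 + C w * X 1 with hm
  have hl : q (lin a) = 0 := by
    rw [hq, Ideal.Quotient.eq_zero_iff_mem]; exact Ideal.mem_span_singleton_self _
  have hone : (C u * C a.1 + C w * C a.2 : MvPolynomial (Fin 2) R) = 1 := by
    rw [← C_mul, ← C_mul, ← C_add, huw, C_1]
  have e0 : X 0 = C a.1 * m + C w * lin a := by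
    rw [hm, lin]
    linear_combination (-(X 0 : MvPolynomial (Fin 2) R)) * hone
  have e1 : X 1 = C a.2 * m - C u * lin a := by
    rw [hm, lin]
    linear_combination (-(X 1 : MvPolynomial (Fin 2) R)) * hone
  -- the ring hom `Z[T] → quotient`, `T ↦ m`
  let g : Polynomial R →+* (MvPolynomial (Fin 2) R ⧸ Ideal.span {lin a}) :=
    Polynomial.eval₂RingHom (q.comp C) (q m)
  have hcomp : g.comp (psi a : MvPolynomial (Fin 2) R →+* Polynomial R) = q := by
    apply MvPolynomial.ringHom_ext
    · intro r
      simp [g, psi]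
    · intro i
      have h0 : q (X 0) = q (C a.1) * q m := by
        rw [← map_mul, ← sub_eq_zero, ← map_sub, show (X 0 : MvPolynomial (Fin 2) R) - C a.1 * m
          = C w * lin a by linear_combination e0, map_mul, hl, mul_zero]
      have h1 : q (X 1) = q (C a.2) * q m := by
        rw [← map_mul, ← sub_eq_zero, ← map_sub, show (X 1 : MvPolynomial (Fin 2) R) - C a.2 * m
          = - (C u * lin a) by linear_combination e1, map_neg, map_mul, hl, mul_zero, neg_zero]
      fin_cases i
      · simp only [Fin.zero_eta, RingHom.comp_apply, RingHom.coe_coe, psi, aeval_X,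
          Matrix.cons_val_zero, g, Polynomial.coe_eval₂RingHom, Polynomial.eval₂_mul,
          Polynomial.eval₂_C, Polynomial.eval₂_X]
        exact h0.symm
      · have : g ((psi a) (X 1)) = g (Polynomial.C a.2 * Polynomial.X) := by
          congr 1
          simp [psi]
        simp only [Fin.mk_one, RingHom.comp_apply, RingHom.coe_coe]
        rw [this]
        simp only [g, Polynomial.coe_eval₂RingHom, Polynomial.eval₂_mul,
          Polynomial.eval₂_C, Polynomial.eval₂_X, RingHom.comp_apply]
        exact h1.symm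
  have := congrArg (fun φ => φ F) hcomp
  simp only [RingHom.comp_apply, RingHom.coe_coe] at this
  rw [← this, h, map_zero]

section domain
variable [IsDomain R]

/-- the product of the linear forms of pairwise non-parallel primitive zeros divides -/
lemma prod_lin_dvd {ι : Type*} [DecidableEq ι] (s : Finset ι) (v : ι → R × R)
    (hc : ∀ i ∈ s, IsCoprime (v i).1 (v i).2)
    (hne : ∀ i ∈ s, ∀ j ∈ s, i ≠ j → dt (v i) (v j) ≠ 0) {F : MvPolynomial (Fin 2) R}
    (h : ∀ i ∈ s, psi (v i) F = 0) : (∏ i ∈ s, lin (v i)) ∣ F := by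
  classical
  induction s using Finset.induction_on generalizing F with
  | empty => simp
  | insert a s ha ih =>
    obtain ⟨F', hF'⟩ := lin_dvd (hc a (Finset.mem_insert_self _ _))
      (h a (Finset.mem_insert_self _ _))
    have h' : ∀ i ∈ s, psi (v i) F' = 0 := by
      intro i hi
      have hi' := h i (Finset.mem_insert_of_mem hi)
      rw [hF', map_mul, psi_lin] at hi'
      rcases mul_eq_zero.1 hi' with h0 | h0
      · exfalso
        rcases mul_eq_zero.1 h0 with h1 | h1
        · rw [Polynomial.C_eq_zero] at h1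
          exact hne i (Finset.mem_insert_of_mem hi) a (Finset.mem_insert_self _ _)
            (fun e => ha (e ▸ hi)) h1
        · exact Polynomial.X_ne_zero h1
      · exact h0
    have := ih (fun i hi => hc i (Finset.mem_insert_of_mem hi))
      (fun i hi j hj => hne i (Finset.mem_insert_of_mem hi) j (Finset.mem_insert_of_mem hj)) h'
    rw [Finset.prod_insert ha, hF']
    exact mul_dvd_mul_left _ this

/-- a nonzero form of degree `n` has at most `n` primitive zeros -/
lemma card_zeros_le {ι : Type*} [DecidableEq ι] (s : Finset ι) (v : ι → R × R)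
    (hc : ∀ i ∈ s, IsCoprime (v i).1 (v i).2)
    (hne : ∀ i ∈ s, ∀ j ∈ s, i ≠ j → dt (v i) (v j) ≠ 0) {F : MvPolynomial (Fin 2) R} {n : ℕ}
    (hF : F.IsHomogeneous n) (hF0 : F ≠ 0) (h : ∀ i ∈ s, ev F (v i) = 0) : s.card ≤ n := by
  obtain ⟨G, hG⟩ := prod_lin_dvd s v hc hne (F := F) (fun i hi => by
    rw [psi_hom hF, h i hi, map_zero, zero_mul])
  have hhom : (∏ i ∈ s, lin (v i)).IsHomogeneous s.card := by
    have := MvPolynomial.IsHomogeneous.prod s (fun i => lin (v i)) (fun _ => 1)
      (fun i _ => lin_hom _)
    simpa using this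
  have hp0 : (∏ i ∈ s, lin (v i)) ≠ 0 := by
    rintro h0
    rw [h0, zero_mul] at hG
    exact hF0 hG
  have hG0 : G ≠ 0 := by
    rintro rfl
    rw [mul_zero] at hG
    exact hF0 hG
  have h1 := hF.totalDegree hF0
  have h2 := hhom.totalDegree hp0
  have h3 : F.totalDegree = (∏ i ∈ s, lin (v i)).totalDegree + G.totalDegree := by
    rw [hG, MvPolynomial.totalDegree_mul_of_isDomain hp0 hG0]
  omega

/-- divisibility of the value by the product of the determinants -/
lemma prod_dt_dvd {ι : Type*} [DecidableEq ι] (s : Finset ι) (v : ι → R × R)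
    (hc : ∀ i ∈ s, IsCoprime (v i).1 (v i).2)
    (hne : ∀ i ∈ s, ∀ j ∈ s, i ≠ j → dt (v i) (v j) ≠ 0) {F : MvPolynomial (Fin 2) R} {n : ℕ}
    (hF : F.IsHomogeneous n) (h : ∀ i ∈ s, ev F (v i) = 0) (P : R × R) :
    (∏ i ∈ s, dt P (v i)) ∣ ev F P := by
  obtain ⟨G, hG⟩ := prod_lin_dvd s v hc hne (F := F) (fun i hi => by
    rw [psi_hom hF, h i hi, map_zero, zero_mul])
  rw [hG, ev_mul, ev_prod]
  simp only [ev_lin]
  exact dvd_mul_right _ _

end domain

lemma ev_smul {F : MvPolynomial (Fin 2) R} {n : ℕ} (hF : F.IsHomogeneous n) (c : R)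
    (v : R × R) : ev F (c * v.1, c * v.2) = c ^ n * ev F v := by
  unfold ev
  rw [MvPolynomial.eval_eq', MvPolynomial.eval_eq', Finset.mul_sum]
  apply Finset.sum_congr rfl
  intro m hm
  have hd' := hom_deg hF hm
  simp only [Fin.prod_univ_two, Matrix.cons_val_zero, Matrix.cons_val_one, mul_pow, ← hd', pow_add]
  ring

/-- a factor of a homogeneous polynomial by a homogeneous one can be taken homogeneous -/
lemma quot_hom [IsDomain R] {F l G : MvPolynomial (Fin 2) R} {n m : ℕ}
    (hF : F.IsHomogeneous (m + n)) (hl : l.IsHomogeneous m) (hl0 : l ≠ 0) (h : F = l * G) :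
    G.IsHomogeneous n := by
  classical
  -- all other components vanish
  have key : ∀ k, k ≠ n → MvPolynomial.homogeneousComponent k G = 0 := by
    intro k hk
    have h1 : F = ∑ i ∈ Finset.range (G.totalDegree + 1),
        l * MvPolynomial.homogeneousComponent i G := by
      rw [← Finset.mul_sum, MvPolynomial.sum_homogeneousComponent, h]
    have h2 : MvPolynomial.homogeneousComponent (m + k) F = 0 := by
      rw [MvPolynomial.homogeneousComponent_of_mem hF, if_neg (by omega)]
    rw [h1, map_sum] at h2
    have h3 : ∀ i ∈ Finset.range (G.totalDegree + 1),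
        MvPolynomial.homogeneousComponent (m + k) (l * MvPolynomial.homogeneousComponent i G) =
          if i = k then l * MvPolynomial.homogeneousComponent k G else 0 := by
      intro i _
      have hi : (l * MvPolynomial.homogeneousComponent i G).IsHomogeneous (m + i) :=
        hl.mul (MvPolynomial.homogeneousComponent_isHomogeneous i G)
      rw [MvPolynomial.homogeneousComponent_of_mem hi]
      by_cases hik : i = k
      · rw [if_pos hik, if_pos (by omega), hik]
      · rw [if_neg hik, if_neg (by omega)]
    rw [Finset.sum_congr rfl h3, Finset.sum_ite_eq'] at h2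
    by_cases hmem : k ∈ Finset.range (G.totalDegree + 1)
    · rw [if_pos hmem] at h2
      exact (mul_eq_zero.1 h2).resolve_left hl0
    · apply MvPolynomial.homogeneousComponent_eq_zero
      simpa using hmem
  have h4 := MvPolynomial.sum_homogeneousComponent G
  rw [← h4]
  apply MvPolynomial.IsHomogeneous.sum
  intro i _
  by_cases hi : i = n
  · rw [hi]; exact MvPolynomial.homogeneousComponent_isHomogeneous n G
  · rw [key i hi]; exact MvPolynomial.isHomogeneous_zero _ _ _

end Pool.Agent.TH856.PG
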