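import Pool.Agent.TH856.PG.Maps

set_option autoImplicit false

/-!
# Number fields with one archimedean place
-/

namespace Pool.Agent.TH856.PG

open NumberField IsDedekindDomain MvPolynomial
open Pool.Agent.H892.PGR (br nm Phi phi_smul)
open Pool.Agent.H892.PGK (PotGood PP fX fX_mk br_zero_iff)

/-- at most 36 points of the disc of radius `2 s` with mutual distances at least `s` -/
lemma pack_complex' {s : ℝ} (hs : 0 < s) (T : Finset ℂ) (h1 : ∀ z ∈ T, ‖z‖ ≤ 2 * s)
    (h2 : ∀ z ∈ T, ∀ z' ∈ T, z ≠ z' → s ≤ ‖z - z'‖) : T.card ≤ 36 := by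
  classical
  let g : ℂ → ℤ × ℤ := fun z => (⌊(z.re + 2 * s) / (7 * s / 10)⌋, ⌊(z.im + 2 * s) / (7 * s / 10)⌋)
  have hpos : 0 < 7 * s / 10 := by positivity
  have hb : ∀ t : ℝ, |t| ≤ 2 * s → ⌊(t + 2 * s) / (7 * s / 10)⌋ ∈ Finset.Icc (0:ℤ) 5 := by
    intro t ht
    rw [abs_le] at ht
    rw [Finset.mem_Icc]
    constructor
    · apply Int.floor_nonneg.2
      apply div_nonneg _ hpos.le
      linarith
    · have : ⌊(t + 2 * s) / (7 * s / 10)⌋ < 6 := by
        rw [Int.floor_lt, div_lt_iff₀ hpos]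
        push_cast
        linarith
      omega
  have hcard : (Finset.Icc (0:ℤ) 5 ×ˢ Finset.Icc (0:ℤ) 5).card = 36 := by
    simp
  rw [← hcard]
  apply Finset.card_le_card_of_injOn g
  · intro z hz
    have hz := h1 z (Finset.mem_coe.1 hz)
    rw [Finset.mem_coe, Finset.mem_product]
    exact ⟨hb _ ((Complex.abs_re_le_norm z).trans hz), hb _ ((Complex.abs_im_le_norm z).trans hz)⟩
  · intro z hz z' hz' hg
    by_contra hne
    have h3 := h2 z (Finset.mem_coe.1 hz) z' (Finset.mem_coe.1 hz') hne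
    have hf : ∀ t t' : ℝ, ⌊(t + 2 * s) / (7 * s / 10)⌋ = ⌊(t' + 2 * s) / (7 * s / 10)⌋ →
        |t - t'| < 7 * s / 10 := by
      intro t t' h
      have h4 := Int.abs_sub_lt_one_of_floor_eq_floor h
      rw [← sub_div, abs_div, abs_of_pos hpos, div_lt_one hpos] at h4
      have : t + 2 * s - (t' + 2 * s) = t - t' := by ring
      rwa [this] at h4
    have e1 := hf _ _ (congrArg Prod.fst hg)
    have e2 := hf _ _ (congrArg Prod.snd hg)
    have h5 : ‖z - z'‖ ^ 2 = (z.re - z'.re) ^ 2 + (z.im - z'.im) ^ 2 := by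
      rw [Complex.sq_norm, Complex.normSq_apply]
      simp; ring
    have e3 : (z.re - z'.re) ^ 2 < (7 * s / 10) ^ 2 := by
      rw [← sq_abs (z.re - z'.re)]
      exact pow_lt_pow_left₀ e1 (abs_nonneg _) (by norm_num)
    have e4 : (z.im - z'.im) ^ 2 < (7 * s / 10) ^ 2 := by
      rw [← sq_abs (z.im - z'.im)]
      exact pow_lt_pow_left₀ e2 (abs_nonneg _) (by norm_num)
    have h6 : s ^ 2 ≤ ‖z - z'‖ ^ 2 := pow_le_pow_left₀ hs.le h3 2
    nlinarith

section field
variable {K : Type} [Field K] [NumberField K]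

/-- an imaginary quadratic field has one archimedean place -/
lemma unique_place (h2 : Module.finrank ℚ K = 2) (hc : ∀ w : InfinitePlace K, w.IsComplex)
    (w w' : InfinitePlace K) : w' = w := by
  classical
  have h := InfinitePlace.card_add_two_mul_card_eq_rank K
  have h' := InfinitePlace.card_eq_nrRealPlaces_add_nrComplexPlaces K
  have h3 : InfinitePlace.nrRealPlaces K = 0 := by
    refine (@Fintype.card_eq_zero_iff _ (_)).2 ⟨fun ⟨w, hw⟩ => ?_⟩
    exact InfinitePlace.not_isReal_iff_isComplex.2 (hc w) hw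
  rw [h2, h3] at h
  have h4 : Fintype.card (InfinitePlace K) ≤ 1 := by omega
  exact Fintype.card_le_one_iff.1 h4 w' w

lemma av_unit (u : (𝓞 K)ˣ) (v : HeightOneSpectrum (𝓞 K)) :
    NumberField.HeightOneSpectrum.adicAbv K v (algebraMap (𝓞 K) K u) = 1 := by
  have h1 : NumberField.HeightOneSpectrum.adicAbv K v (algebraMap (𝓞 K) K u) ≤ 1 :=
    HeightOneSpectrum.adicAbv_coe_le_one (K := K) v
      (HeightOneSpectrum.one_lt_absNorm_nnreal v) (u : 𝓞 K)
  have h2 : NumberField.HeightOneSpectrum.adicAbv K v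
      (algebraMap (𝓞 K) K ((u⁻¹ : (𝓞 K)ˣ) : 𝓞 K)) ≤ 1 :=
    HeightOneSpectrum.adicAbv_coe_le_one (K := K) v
      (HeightOneSpectrum.one_lt_absNorm_nnreal v) ((u⁻¹ : (𝓞 K)ˣ) : 𝓞 K)
  have h3 : NumberField.HeightOneSpectrum.adicAbv K v (algebraMap (𝓞 K) K u) *
      NumberField.HeightOneSpectrum.adicAbv K v (algebraMap (𝓞 K) K ((u⁻¹ : (𝓞 K)ˣ) : 𝓞 K)) = 1 := by
    rw [← map_mul, ← map_mul, Units.mul_inv, map_one, map_one]
  have h4 := (NumberField.HeightOneSpectrum.adicAbv K v).nonneg (algebraMap (𝓞 K) K u)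
  nlinarith

/-- units as elements of `U1` -/
lemma bij_U1 : Function.Bijective (fun u : (𝓞 K)ˣ =>
    (⟨algebraMap (𝓞 K) K u, (map_ne_zero_iff _ (FaithfulSMul.algebraMap_injective (𝓞 K) K)).2
      u.ne_zero, av_unit u⟩ : U1 K)) := by
  constructor
  · intro u u' h
    have := congrArg Subtype.val h
    exact Units.ext (FaithfulSMul.algebraMap_injective (𝓞 K) K this)
  · rintro ⟨z, hz0, hz⟩
    have h1 : IsIntegral ℤ z := integral_of_le K (fun v => (hz v).le)
    have h2 : IsIntegral ℤ z⁻¹ := integral_of_le K (fun v => by rw [map_inv₀, hz v, inv_one])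
    let r : 𝓞 K := ⟨z, h1⟩
    let s : 𝓞 K := ⟨z⁻¹, h2⟩
    have hr : algebraMap (𝓞 K) K r = z := rfl
    have hs : algebraMap (𝓞 K) K s = z⁻¹ := rfl
    have hrs : r * s = 1 := by
      apply FaithfulSMul.algebraMap_injective (𝓞 K) K
      rw [map_mul, hr, hs, map_one]
      exact mul_inv_cancel₀ hz0
    refine ⟨Units.mk r s hrs (by rw [mul_comm]; exact hrs), ?_⟩
    apply Subtype.ext
    exact hr

variable {w : InfinitePlace K} (hw : ∀ w' : InfinitePlace K, w' = w)

/-- the number of units -/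
lemma card_units : (U1_finite hw).toFinset.card = Nat.card (𝓞 K)ˣ := by
  rw [Nat.card_congr (Equiv.ofBijective _ (bij_U1 (K := K)))]
  rw [Nat.card_coe_set_eq, Set.ncard_eq_toFinset_card _ (U1_finite hw)]

include hw in
lemma card_units_le : Nat.card (𝓞 K)ˣ ≤ 6 := by
  rw [← card_units hw]
  exact card_U1_le hw _ (fun z hz => (Set.Finite.mem_toFinset _).1 hz)

include hw in
lemma two_le_card_units : 2 ≤ Nat.card (𝓞 K)ˣ := by
  classical
  rw [← card_units hw]
  have h1 : ({1, -1} : Finset K) ⊆ (U1_finite hw).toFinset := by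
    intro z hz
    rw [Set.Finite.mem_toFinset]
    rcases Finset.mem_insert.1 hz with rfl | hz
    · exact ⟨one_ne_zero, fun v => map_one _⟩
    · rw [Finset.mem_singleton.1 hz]
      exact ⟨neg_ne_zero.2 one_ne_zero, fun v => by rw [AbsoluteValue.map_neg, map_one]⟩
  have h2 : ({1, -1} : Finset K).card = 2 := by
    rw [Finset.card_insert_of_notMem, Finset.card_singleton]
    rw [Finset.mem_singleton]
    intro h
    have : (2 : K) = 0 := by linear_combination h
    exact two_ne_zero this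
  rw [← h2]
  exact Finset.card_le_card h1

include hw in
/-- the system of a finite invariant set -/
theorem exists_sysK [DecidableEq (PP K)] {d : ℕ} {F G : MvPolynomial (Fin 2) K}
    (hd : 2 ≤ d) (hF : F.IsHomogeneous d) (hG : G.IsHomogeneous d) (h0 : NoZero F G)
    (hp : ∀ v : HeightOneSpectrum (𝓞 K),
      PotGood (NumberField.HeightOneSpectrum.adicAbv K v) F G d) (T : Finset (PP K))
    (hT : ∀ P ∈ T, fX F G (phi_ne_zero h0) P ∈ T) :
    ∃ S : Sys K (HeightOneSpectrum (𝓞 K)) {P // P ∈ T} d,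
      (∀ P : {P // P ∈ T}, (S.f P : PP K) = fX F G (phi_ne_zero h0) P) ∧
      S.mu.card = Nat.card (𝓞 K)ˣ ∧ S.e = w.mult ∧ S.Bd = 36 := by
  classical
  obtain ⟨S, h1, h2, h3, h4⟩ := exists_sys (V := HeightOneSpectrum (𝓞 K))
    (av := fun v => NumberField.HeightOneSpectrum.adicAbv K v)
    w.1 w.mult (InfinitePlace.mult_pos) (U1_finite hw).toFinset
    (fun z hz h => (Set.Finite.mem_toFinset _).2 ⟨hz, h⟩)
    (fun v z h => disc K v z h)
    (fun z hz => ⟨(finite_supp K hz).toFinset, fun v hv => by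
      rw [Set.Finite.mem_toFinset]; exact hv⟩)
    (fun z hz S0 hS0 => by
      rw [← finprod_eq_prod_of_mulSupport_subset]
      · exact prod_formula K hw hz
      · intro v hv
        exact Finset.mem_coe.2 (hS0 v hv))
    36 (fun s hs T h1 h2 => by
      rw [← Finset.card_image_of_injective T w.embedding.injective]
      apply pack_complex' hs
      · intro z hz
        obtain ⟨x, hx, rfl⟩ := Finset.mem_image.1 hz
        rw [InfinitePlace.norm_embedding_eq]
        exact h1 x hx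
      · intro z hz z' hz' hne
        obtain ⟨x, hx, rfl⟩ := Finset.mem_image.1 hz
        obtain ⟨x', hx', rfl⟩ := Finset.mem_image.1 hz'
        rw [← map_sub, InfinitePlace.norm_embedding_eq]
        exact h2 x hx x' hx' (fun e => hne (by rw [e])))
    hd hF hG h0 hp T hT
  refine ⟨S, h1, ?_, h3, h4⟩
  rw [h2, card_units hw]

end field

end Pool.Agent.TH856.PG
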