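import Pool.Agent.TH856.PG.FieldSys
import Pool.Agent.TH856.PG.Defs

set_option autoImplicit false

/-!
# Preperiodic points of a pair of binary forms, and an example
-/

namespace Pool.Agent.TH856.PG

open MvPolynomial
open Pool.Agent.H892.PGR (br nm Phi phi_smul)
open Pool.Agent.H892.PGK (PotGood PP fX fX_mk br_zero_iff)

section
variable {K : Type} [Field K]

lemma homMap_eq (F G : MvPolynomial (Fin 2) K) : homMap F G = Phi F G := rfl

lemma fX_iter {F G : MvPolynomial (Fin 2) K} {d : ℕ} (hF : F.IsHomogeneous d)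
    (hG : G.IsHomogeneous d) (h0 : ∀ v : Fin 2 → K, v ≠ 0 → Phi F G v ≠ 0) (v : Fin 2 → K)
    (hv : v ≠ 0) (k : ℕ) :
    ∃ hk : (Phi F G)^[k] v ≠ 0, (fX F G h0)^[k] (Projectivization.mk K v hv) =
      Projectivization.mk K ((Phi F G)^[k] v) hk := by
  induction k with
  | zero => exact ⟨hv, rfl⟩
  | succ k ih =>
    obtain ⟨hk, ih⟩ := ih
    have e : (Phi F G)^[k + 1] v = Phi F G ((Phi F G)^[k] v) :=
      Function.iterate_succ_apply' _ _ _
    refine ⟨by rw [e]; exact h0 _ hk, ?_⟩
    rw [Function.iterate_succ_apply', ih, fX_mk hF hG h0 _ hk]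
    simp only [e]

variable {d : ℕ} {F G : MvPolynomial (Fin 2) K}

lemma preper_iter (hF : F.IsHomogeneous d) (hG : G.IsHomogeneous d)
    (h0 : ∀ v : Fin 2 → K, v ≠ 0 → Phi F G v ≠ 0) {P : PP K} (h : IsPreper F G P) :
    ∃ m n : ℕ, m < n ∧ (fX F G h0)^[n] P = (fX F G h0)^[m] P := by
  obtain ⟨v, hv, rfl, m, n, hmn, c, hc0, h⟩ := h
  refine ⟨m, n, hmn, ?_⟩
  obtain ⟨h1, h2⟩ := fX_iter hF hG h0 v hv n
  obtain ⟨h3, h4⟩ := fX_iter hF hG h0 v hv m
  rw [h2, h4, Projectivization.mk_eq_mk_iff']
  exact ⟨c, h.symm⟩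

lemma per_iter (hF : F.IsHomogeneous d) (hG : G.IsHomogeneous d)
    (h0 : ∀ v : Fin 2 → K, v ≠ 0 → Phi F G v ≠ 0) {P : PP K} (h : IsPer F G P) :
    ∃ n : ℕ, 0 < n ∧ (fX F G h0)^[n] P = P := by
  obtain ⟨v, hv, rfl, n, hn, c, hc0, h⟩ := h
  refine ⟨n, hn, ?_⟩
  obtain ⟨h1, h2⟩ := fX_iter hF hG h0 v hv n
  rw [h2, Projectivization.mk_eq_mk_iff']
  exact ⟨c, h.symm⟩

lemma preper_of_per {P : PP K} (h : IsPer F G P) : IsPreper F G P := by
  obtain ⟨v, hv, rfl, n, hn, c, hc0, h⟩ := h
  exact ⟨v, hv, rfl, 0, n, hn, c, hc0, h⟩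

/-- from invariant sets to sets of preperiodic points -/
theorem card_preper_le [DecidableEq (PP K)] (h0 : NoZero F G) (hF : F.IsHomogeneous d)
    (hG : G.IsHomogeneous d) {B : ℕ}
    (H : ∀ T : Finset (PP K), (∀ P ∈ T, fX F G (phi_ne_zero h0) P ∈ T) → T.card ≤ B)
    (S : Finset (PP K)) (hS : ∀ P ∈ S, IsPreper F G P) : S.card ≤ B := by
  obtain ⟨T, hST, hT⟩ := exists_invariant (fX F G (phi_ne_zero h0)) S
    (fun P hP => preper_iter hF hG _ (hS P hP))
  exact (Finset.card_le_card hST).trans (H T hT)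

variable {V : Type}

lemma sys_iter {T : Finset (PP K)} [DecidableEq (PP K)]
    {h0 : ∀ v : Fin 2 → K, v ≠ 0 → Phi F G v ≠ 0}
    {S : Sys K V {P // P ∈ T} d} (hS : ∀ P : {P // P ∈ T}, (S.f P : PP K) = fX F G h0 P) (n : ℕ)
    (P : {P // P ∈ T}) : ((S.f^[n] P : {P // P ∈ T}) : PP K) = (fX F G h0)^[n] P := by
  induction n with
  | zero => rfl
  | succ n ih => rw [Function.iterate_succ_apply', Function.iterate_succ_apply', hS, ih]

lemma per_of_iter {ι : Type} [Fintype ι] [DecidableEq ι] (S : Sys K V ι d)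
    {x : ι} {n : ℕ} (hn : 0 < n) (h : S.f^[n] x = x) : S.Per x := by
  have h1 : ∀ k, (S.f^[n])^[k] x = x := by
    intro k
    induction k with
    | zero => rfl
    | succ k ih => rw [Function.iterate_succ_apply', ih, h]
  have h2 := h1 S.M
  rw [← Function.iterate_mul] at h2
  have h3 : ∀ k, 0 < k → (S.f^[S.M])^[k] x = S.f^[S.M] x := by
    intro k hk
    induction k with
    | zero => omega
    | succ k ih =>
      rcases Nat.eq_zero_or_pos k with h0 | h0
      · rw [h0]; rfl
      · rw [Function.iterate_succ_apply', ih h0, S.idem]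
  have h4 := h3 n hn
  rw [← Function.iterate_mul, Nat.mul_comm] at h4
  show S.f^[S.M] x = x
  rw [← h4, h2]

/-- from invariant sets to sets of periodic points -/
theorem card_per_le [DecidableEq (PP K)] (h0 : NoZero F G) (hF : F.IsHomogeneous d)
    (hG : G.IsHomogeneous d) {B : ℕ}
    (H : ∀ T : Finset (PP K), (∀ P ∈ T, fX F G (phi_ne_zero h0) P ∈ T) →
      ∃ W : Sys K V {P // P ∈ T} d,
        (∀ P : {P // P ∈ T}, (W.f P : PP K) = fX F G (phi_ne_zero h0) P) ∧ W.per.card ≤ B)
    (S : Finset (PP K)) (hS : ∀ P ∈ S, IsPer F G P) : S.card ≤ B := by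
  classical
  obtain ⟨T, hST, hT⟩ := exists_invariant (fX F G (phi_ne_zero h0)) S
    (fun P hP => preper_iter hF hG _ (preper_of_per (hS P hP)))
  obtain ⟨W, hW, hB⟩ := H T hT
  refine le_trans ?_ hB
  rw [← Fintype.card_coe S, ← Fintype.card_coe W.per]
  apply Fintype.card_le_of_injective (fun P => ⟨⟨P.1, hST P.2⟩, by
    rw [Sys.mem_per]
    obtain ⟨n, hn, h2⟩ := per_iter hF hG (phi_ne_zero h0) (hS P.1 P.2)
    apply per_of_iter W hn
    apply Subtype.ext
    rw [sys_iter hW]
    exact h2⟩)
  intro P Q hPQ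
  have := congrArg (fun z => ((z : {P // P ∈ T}) : PP K)) (congrArg Subtype.val hPQ)
  exact Subtype.ext this

end

/-! ### the example -/

/-- `X Y^(d-1) + ∏ (X - i Y)` -/
noncomputable def exF (R : Type) [CommRing R] (d : ℕ) : MvPolynomial (Fin 2) R :=
  X 0 * X 1 ^ (d - 1) + ∏ i ∈ Finset.range d, (X 0 - C (i : R) * X 1)

/-- `Y^d` -/
noncomputable def exG (R : Type) [CommRing R] (d : ℕ) : MvPolynomial (Fin 2) R := X 1 ^ d

lemma exF_map {R R' : Type} [CommRing R] [CommRing R'] (φ : R →+* R') (d : ℕ) :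
    (exF R d).map φ = exF R' d := by
  simp [exF, map_prod]

lemma exG_map {R R' : Type} [CommRing R] [CommRing R'] (φ : R →+* R') (d : ℕ) :
    (exG R d).map φ = exG R' d := by
  simp [exG]

lemma exF_hom {R : Type} [CommRing R] {d : ℕ} (hd : 2 ≤ d) : (exF R d).IsHomogeneous d := by
  unfold exF
  apply MvPolynomial.IsHomogeneous.add
  · have := (MvPolynomial.isHomogeneous_X R (0 : Fin 2)).mul
      (MvPolynomial.isHomogeneous_X_pow (R := R) (1 : Fin 2) (d - 1))
    rwa [show 1 + (d - 1) = d by omega] at this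
  · have := MvPolynomial.IsHomogeneous.prod (Finset.range d)
      (fun i : ℕ => (X 0 - C (i : R) * X 1 : MvPolynomial (Fin 2) R)) (fun _ => 1) (fun i _ => by
        apply MvPolynomial.IsHomogeneous.sub (MvPolynomial.isHomogeneous_X R (0 : Fin 2))
        simpa using (MvPolynomial.isHomogeneous_C (Fin 2) (i : R)).mul
          (MvPolynomial.isHomogeneous_X R (1 : Fin 2)))
    simpa using this

lemma exG_hom {R : Type} [CommRing R] (d : ℕ) : (exG R d).IsHomogeneous d :=
  MvPolynomial.isHomogeneous_X_pow (R := R) (1 : Fin 2) d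

lemma ex_no_zero {R : Type} [CommRing R] {L : Type*} [Field L] [Algebra R L] {d : ℕ} (hd : 2 ≤ d)
    (x : Fin 2 → L) (hx : x ≠ 0) :
    ¬ (MvPolynomial.aeval x (exF R d) = 0 ∧ MvPolynomial.aeval x (exG R d) = 0) := by
  rintro ⟨h1, h2⟩
  have h3 : x 1 = 0 := by
    have : x 1 ^ d = 0 := by simpa [exG] using h2
    exact pow_eq_zero_iff (by omega) |>.1 this
  have h4 : x 0 = 0 := by
    simp only [exF, map_add, map_mul, map_pow, aeval_X, h3, map_prod, map_sub, mul_zero,
      sub_zero, Finset.prod_const, Finset.card_range] at h1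
    rw [zero_pow (by omega), mul_zero, zero_add] at h1
    exact pow_eq_zero_iff (by omega) |>.1 h1
  apply hx
  ext i
  fin_cases i
  · exact h4
  · exact h3

section nonarch
variable {K : Type} [Field K] (a : AbsoluteValue K ℝ) (hna : ∀ x y : K, a (x + y) ≤ max (a x) (a y))

include hna in
lemma natCast_le_one (n : ℕ) : a (n : K) ≤ 1 := by
  induction n with
  | zero => simp
  | succ n ih =>
    push_cast
    exact (hna _ _).trans (max_le ih (by simp))

include hna in
lemma intCast_le_one (n : ℤ) : a (n : K) ≤ 1 := by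
  obtain ⟨m, rfl | rfl⟩ := n.eq_nat_or_neg
  · simpa using natCast_le_one a hna m
  · push_cast
    rw [AbsoluteValue.map_neg]
    exact natCast_le_one a hna m

include hna in
lemma sub_le_max (x y : K) : a (x - y) ≤ max (a x) (a y) := by
  rw [sub_eq_add_neg, ← AbsoluteValue.map_neg a y]
  exact hna _ _

include hna in
lemma add_eq_one {x y : K} (hx : a x < 1) (hy : a y = 1) : a (x + y) = 1 := by
  apply le_antisymm
  · exact (hna x y).trans (max_le hx.le hy.le)
  · have h := sub_le_max a hna (x + y) x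
    rw [add_sub_cancel_left, hy] at h
    rcases le_max_iff.1 h with h | h
    · exact h
    · linarith

include hna in
lemma ex_potGood {d : ℕ} (hd : 2 ≤ d) : PotGood a (exF K d) (exG K d) d := by
  refine ⟨K, inferInstance, Algebra.id K, a, 1, 1, exF K d, exG K d, hna, fun q => rfl, by simp,
    one_ne_zero, exF_hom hd, exG_hom d, ?_, ?_, ?_, ?_⟩
  · intro s
    rw [← exF_map (Int.castRingHom K), MvPolynomial.coeff_map]
    exact intCast_le_one a hna _
  · intro s
    rw [← exG_map (Int.castRingHom K), MvPolynomial.coeff_map]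
    exact intCast_le_one a hna _
  · intro u hu
    unfold nm at hu ⊢
    have hx : a (u 0) ≤ 1 := hu ▸ le_max_left _ _
    have hy : a (u 1) ≤ 1 := hu ▸ le_max_right _ _
    have hiy : ∀ i : ℕ, a ((i : K) * u 1) ≤ a (u 1) := by
      intro i
      rw [map_mul]
      have := natCast_le_one a hna i
      have := a.nonneg (u 1)
      nlinarith
    have eF : Phi (exF K d) (exG K d) u 0 = u 0 * u 1 ^ (d - 1) +
        ∏ i ∈ Finset.range d, (u 0 - (i : K) * u 1) := by
      simp [Phi, exF, map_prod]
    have eG : Phi (exF K d) (exG K d) u 1 = u 1 ^ d := by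
      simp [Phi, exG]
    rw [eF, eG]
    have hG1 : a (u 1 ^ d) ≤ 1 := by
      rw [map_pow]
      exact pow_le_one₀ (a.nonneg _) hy
    have hprod : a (∏ i ∈ Finset.range d, (u 0 - (i : K) * u 1)) ≤ 1 := by
      rw [map_prod]
      apply Finset.prod_le_one (fun i _ => a.nonneg _)
      intro i _
      exact (sub_le_max a hna _ _).trans (max_le hx ((hiy i).trans hy))
    have hF1 : a (u 0 * u 1 ^ (d - 1) + ∏ i ∈ Finset.range d, (u 0 - (i : K) * u 1)) ≤ 1 := by
      refine (hna _ _).trans (max_le ?_ hprod)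
      rw [map_mul, map_pow]
      exact mul_le_one₀ hx (pow_nonneg (a.nonneg _) _) (pow_le_one₀ (a.nonneg _) hy)
    apply le_antisymm (max_le hF1 hG1)
    rcases hy.eq_or_lt with hy1 | hy1
    · refine le_trans ?_ (le_max_right _ _)
      rw [map_pow, hy1, one_pow]
    · have hx1 : a (u 0) = 1 := by
        rcases max_choice (a (u 0)) (a (u 1)) with h | h
        · rw [h] at hu; exact hu
        · rw [h] at hu; linarith
      refine le_trans ?_ (le_max_left _ _)
      rw [add_eq_one a hna]
      · rw [map_mul, map_pow, hx1, one_mul]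
        exact pow_lt_one₀ (a.nonneg _) hy1 (by omega)
      · rw [map_prod]
        apply Finset.prod_eq_one
        intro i _
        rw [sub_eq_add_neg, add_comm]
        apply add_eq_one a hna _ hx1
        rw [AbsoluteValue.map_neg]
        exact lt_of_le_of_lt (hiy i) hy1
  · intro v
    rw [Matrix.one_mulVec, Matrix.one_mulVec, one_smul]
    have : (algebraMap K K) = RingHom.id K := rfl
    rw [this, exF_map, exG_map]

end nonarch

section fixedpoints
variable (K : Type) [Field K]

/-- the finite fixed points -/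
noncomputable def exPt (i : ℕ) : Projectivization K (Fin 2 → K) :=
  Projectivization.mk K ![(i : K), 1] (by
    intro h
    have : (1 : K) = 0 := congrFun h 1
    exact one_ne_zero this)

/-- the point at infinity -/
noncomputable def exInf : Projectivization K (Fin 2 → K) :=
  Projectivization.mk K ![1, 0] (by
    intro h
    have : (1 : K) = 0 := congrFun h 0
    exact one_ne_zero this)

lemma exPt_inj [CharZero K] : Function.Injective (exPt K) := by
  intro i j h
  unfold exPt at h
  rw [Projectivization.mk_eq_mk_iff'] at h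
  obtain ⟨a, ha⟩ := h
  have h1 : a * (j : K) = i := congrFun ha 0
  have h2 : a * 1 = (1 : K) := congrFun ha 1
  rw [mul_one] at h2
  rw [h2, one_mul] at h1
  exact_mod_cast h1.symm

lemma exPt_ne_inf (i : ℕ) : exPt K i ≠ exInf K := by
  intro h
  unfold exPt exInf at h
  rw [Projectivization.mk_eq_mk_iff'] at h
  obtain ⟨a, ha⟩ := h
  have h2 : a * 0 = (1 : K) := congrFun ha 1
  rw [mul_zero] at h2
  exact zero_ne_one h2

lemma ex_fixed [CharZero K] {d : ℕ} (hd : 2 ≤ d) :
    ∃ S : Finset (Projectivization K (Fin 2 → K)), S.card = d + 1 ∧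
      ∀ P ∈ S, IsFix (exF K d) (exG K d) P := by
  classical
  refine ⟨insert (exInf K) ((Finset.range d).image (exPt K)), ?_, ?_⟩
  · rw [Finset.card_insert_of_notMem, Finset.card_image_of_injective _ (exPt_inj K),
      Finset.card_range]
    intro h
    obtain ⟨i, _, hi⟩ := Finset.mem_image.1 h
    exact exPt_ne_inf K i hi
  · intro P hP
    rcases Finset.mem_insert.1 hP with rfl | hP
    · refine ⟨![1, 0], _, rfl, 1, one_ne_zero, ?_⟩
      rw [one_smul]
      unfold homMap
      ext i
      fin_cases i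
      · simp [exF, zero_pow (show d - 1 ≠ 0 by omega), map_prod]
      · simp [exG, zero_pow (show d ≠ 0 by omega)]
    · obtain ⟨i, hi, rfl⟩ := Finset.mem_image.1 hP
      refine ⟨![(i : K), 1], _, rfl, 1, one_ne_zero, ?_⟩
      rw [one_smul]
      have h0 : ∏ k ∈ Finset.range d, ((i : K) - (k : K) * 1) = 0 :=
        Finset.prod_eq_zero hi (by ring)
      unfold homMap
      ext j
      fin_cases j
      · have : MvPolynomial.eval ![(i : K), 1] (exF K d) = i := by
          simp only [exF, map_add, map_mul, map_pow, eval_X, map_prod, map_sub, eval_C,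
            Matrix.cons_val_zero, Matrix.cons_val_one, one_pow]
          rw [h0, add_zero, mul_one]
        exact this
      · simp [exG]

end fixedpoints

end Pool.Agent.TH856.PG
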