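import Pool.Agent.TH856.PG.Basin

set_option autoImplicit false

/-!
# Two periodic points
-/

namespace Pool.Agent.TH856.PG

open Finset Function

namespace Sys

variable {K : Type} [Field K] {V : Type} {ι : Type} [Fintype ι] [DecidableEq ι] {d : ℕ}
  (S : Sys K V ι d)

lemma D_one_L {R R' x : ι} (hR : S.Per R) (hR' : S.Per R') (hne : R' ≠ R)
    (hx : x ∈ S.L R) : S.D x R' = 1 :=
  S.D_eq_one (by rintro rfl; exact S.L_not_self hR' hx) (fun v => S.one_L v hR hR' hne hx)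

lemma D_one_Y {R R' y : ι} (hR' : S.Per R') (hne : R' ≠ R) (hy : y ∈ S.Y R) : S.D y R' = 1 :=
  S.D_eq_one (by rintro rfl; exact S.Y_not_self hR' hy) (fun v => S.one_Y v hR' hne hy)

lemma D_cross {R R' y z : ι} (hR' : S.Per R') (hR : S.Per R) (hne : R' ≠ R)
    (hy : y ∈ S.Y R) (hz : z ∈ S.L R') : S.D y z = 1 :=
  S.D_eq_one (by rintro rfl; exact S.Y_not_mem_L hR' hy hz) (fun v => S.cross v hR' hR hne hy hz)

/-- the product over the fibre of `R1` at a point of the fibre of `R2` -/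
lemma prod_L_m {R1 R2 x : ι} (h1 : S.Per R1) (h2 : S.Per R2) (hne : R1 ≠ R2)
    (hx : x ∈ S.L R2) : ∏ z ∈ S.L R1, S.D x z ≤ S.D R1 R2 := by
  have hfx := (S.mem_L.1 hx).2
  have h3 := S.mono (i := R1) (j := R2) (y := x) (T := insert R1 (S.L R1)) hne (by
    rw [Finset.mem_insert, not_or]
    exact ⟨by rintro rfl; exact S.L_not_self h1 hx, S.L_disj h2 h1 hne.symm hx⟩) (by
    intro v
    have := S.prod_L_le v (P := x) h1
    rwa [hfx, S.δ_f v h2 h1, S.δ_comm v R2 R1] at this)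
  rwa [Finset.prod_insert (S.L_not_self h1), S.D_one_L h2 h1 hne hx, one_mul] at h3

/-- if the fibre of `R1` contains two strictly preperiodic points, that of `R2` is small -/
lemma card_L_le_B {R1 R2 : ι} (h1 : S.Per R1) (h2 : S.Per R2) (hne : R1 ≠ R2)
    (h : 2 ≤ (S.L R1).card) : (S.L R2).card ≤ S.Bd := by
  classical
  obtain ⟨P1, hP1, P2, hP2, hP⟩ := Finset.one_lt_card.1 h
  have hm : 1 ≤ S.D R1 R2 := S.one_le_D hne
  have nP1 : P1 ≠ R1 := by rintro rfl; exact S.L_not_self h1 hP1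
  have nP1' : P1 ≠ R2 := by rintro rfl; exact S.L_not_self h2 hP1
  have nx : ∀ x ∈ S.L R2, x ≠ R1 ∧ x ≠ R2 := fun x hx =>
    ⟨by rintro rfl; exact S.L_not_self h1 hx, by rintro rfl; exact S.L_not_self h2 hx⟩
  have hbd : ∀ x ∈ S.L R2, S.D x R2 ≤ 2 * S.D R1 R2 := by
    intro x hx
    have hxP1 : x ≠ P1 := by rintro rfl; exact S.L_disj h1 h2 hne hP1 hx
    have hxP2 : x ≠ P2 := by rintro rfl; exact S.L_disj h1 h2 hne hP2 hx
    have q1 := S.one_le_D hxP1
    have q2 := S.one_le_D hxP2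
    have hpt := S.ptolemy x R2 P1 P2
    rw [S.D_comm R2 P2, S.D_comm R2 P1, S.D_one_L h1 h2 hne.symm hP1,
      S.D_one_L h1 h2 hne.symm hP2, mul_one, mul_one] at hpt
    have h12 := S.one_le_D hP
    have h4 : S.D x P1 * S.D x P2 ≤ S.D R1 R2 := by
      refine le_trans ?_ (S.prod_L_m h1 h2 hne hx)
      have hsub : ({P1, P2} : Finset ι) ⊆ S.L R1 := by
        intro z hz
        rcases Finset.mem_insert.1 hz with rfl | hz
        · exact hP1
        · rw [Finset.mem_singleton.1 hz]; exact hP2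
      rw [← Finset.prod_sdiff hsub, Finset.prod_pair hP]
      have h5 := pow_le_prod_real (S.L R1 \ {P1, P2}) (fun z => S.D x z) zero_le_one (by
        intro z hz
        apply S.one_le_D
        rintro rfl
        exact S.L_disj h1 h2 hne (Finset.mem_sdiff.1 hz).1 hx)
      rw [one_pow] at h5
      have h6 : 0 ≤ S.D x P1 * S.D x P2 := by positivity
      calc _ = 1 * (S.D x P1 * S.D x P2) := (one_mul _).symm
        _ ≤ _ := mul_le_mul_of_nonneg_right h5 h6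
    have h5 : S.D x R2 ≤ S.D x R2 * S.D P1 P2 := by
      have := S.D_nonneg x R2
      nlinarith
    nlinarith
  let z : ι → K := fun x => S.c P1 R1 * S.c x R2 / (S.c P1 R2 * S.c x R1)
  have hz1 : ∀ x ∈ S.L R2, S.nrm (z x) = S.D P1 R1 * S.D x R2 := by
    intro x hx
    have e1 := S.D_one_L h1 h2 hne.symm hP1
    have e2 := S.D_one_L h2 h1 hne hx
    have p1 := S.h_pos P1
    have p2 := S.h_pos x
    have p3 := S.h_pos R1
    have p4 := S.h_pos R2
    have c1 := S.nrm.pos (S.c_ne nP1')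
    have c2 := S.nrm.pos (S.c_ne (nx x hx).1)
    simp only [z]
    rw [map_div₀, map_mul, map_mul, div_eq_iff (by positivity)]
    unfold D at e1 e2 ⊢
    have e3 : S.nrm (S.c P1 R2) * S.nrm (S.c x R1) * (S.h P1 * S.h x * S.h R1 * S.h R2) = 1 := by
      calc _ = (S.nrm (S.c P1 R2) * (S.h P1 * S.h R2)) * (S.nrm (S.c x R1) * (S.h x * S.h R1)) := by
            ring
        _ = 1 := by rw [e1, e2, one_mul]
    linear_combination (-(S.nrm (S.c P1 R1) * S.nrm (S.c x R2))) * e3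
  have hz2 : ∀ x ∈ S.L R2, ∀ x' ∈ S.L R2, x ≠ x' →
      S.D P1 R1 * S.D R1 R2 ≤ S.nrm (z x - z x') := by
    intro x hx x' hx' hxx
    have e0 := S.D_one_L h1 h2 hne.symm hP1
    have e2 := S.D_one_L h2 h1 hne hx
    have e2' := S.D_one_L h2 h1 hne hx'
    have hd : z x - z x' = -(S.c P1 R1 * (S.c x x' * S.c R1 R2)) /
        (S.c P1 R2 * (S.c x R1 * S.c x' R1)) := by
      have n1 := S.c_ne nP1'
      have n2 := S.c_ne (nx x hx).1
      have n3 := S.c_ne (nx x' hx').1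
      simp only [z]
      rw [S.pl x x' R1 R2]
      field_simp
      ring
    have hq := S.one_le_D hxx
    have p1 := S.h_pos P1
    have p2 := S.h_pos x
    have p2' := S.h_pos x'
    have p3 := S.h_pos R1
    have p4 := S.h_pos R2
    have c1 := S.nrm.pos (S.c_ne nP1')
    have c2 := S.nrm.pos (S.c_ne (nx x hx).1)
    have c3 := S.nrm.pos (S.c_ne (nx x' hx').1)
    rw [hd, map_div₀, AbsoluteValue.map_neg, map_mul, map_mul, map_mul, map_mul,
      le_div_iff₀ (by positivity)]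
    have e3 : S.nrm (S.c P1 R2) * (S.nrm (S.c x R1) * S.nrm (S.c x' R1)) *
        (S.h P1 * S.h x * S.h x' * S.h R1 * S.h R1 * S.h R2) = 1 := by
      unfold D at e0 e2 e2'
      calc _ = (S.nrm (S.c P1 R2) * (S.h P1 * S.h R2)) * (S.nrm (S.c x R1) * (S.h x * S.h R1)) *
            (S.nrm (S.c x' R1) * (S.h x' * S.h R1)) := by ring
        _ = 1 := by rw [e0, e2, e2', one_mul, one_mul]
    have hH : 0 < S.h P1 * S.h x * S.h x' * S.h R1 * S.h R1 * S.h R2 := by positivity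
    apply le_of_mul_le_mul_right _ hH
    have e4 : S.D P1 R1 * S.D R1 R2 * (S.nrm (S.c P1 R2) * (S.nrm (S.c x R1) *
        S.nrm (S.c x' R1))) * (S.h P1 * S.h x * S.h x' * S.h R1 * S.h R1 * S.h R2) =
        S.D P1 R1 * S.D R1 R2 := by
      rw [mul_assoc, e3, mul_one]
    have e5 : S.nrm (S.c P1 R1) * (S.nrm (S.c x x') * S.nrm (S.c R1 R2)) *
        (S.h P1 * S.h x * S.h x' * S.h R1 * S.h R1 * S.h R2) =
        S.D P1 R1 * S.D R1 R2 * S.D x x' := by
      unfold D; ring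
    rw [e4, e5]
    have h6 : 0 ≤ S.D P1 R1 * S.D R1 R2 := mul_nonneg (S.D_nonneg _ _) (S.D_nonneg _ _)
    nlinarith
  have hs : 0 < S.D P1 R1 * S.D R1 R2 := mul_pos (S.D_pos nP1) (S.D_pos hne)
  have hinj : Set.InjOn z (S.L R2 : Set ι) := by
    intro x hx x' hx' hxx
    by_contra hne'
    have := hz2 x (Finset.mem_coe.1 hx) x' (Finset.mem_coe.1 hx') hne'
    rw [hxx, sub_self, map_zero] at this
    linarith
  rw [← Finset.card_image_of_injOn hinj]
  apply S.pack _ hs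
  · intro t ht
    obtain ⟨x, hx, rfl⟩ := Finset.mem_image.1 ht
    rw [hz1 x hx]
    have := hbd x hx
    have h7 := S.D_nonneg P1 R1
    nlinarith
  · intro t ht t' ht' htt
    obtain ⟨x, hx, rfl⟩ := Finset.mem_image.1 ht
    obtain ⟨x', hx', rfl⟩ := Finset.mem_image.1 ht'
    exact hz2 x hx x' hx' (fun e => htt (by rw [e]))

/-- many points of the fibre of `R1` are not at distance one from `u` -/
lemma pow_le_prod {R1 R2 u : ι} (h1 : S.Per R1) (h2 : S.Per R2) (hne : R1 ≠ R2)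
    (hu : u ≠ R2) {T : Finset ι} (hT : T ⊆ S.L R1) (huT : u ∉ T) {k : ℕ}
    (hk : k + S.mu.card ≤ T.card) : (2:ℝ) ^ k ≤ (∏ x ∈ T, S.D u x) ^ S.e := by
  classical
  have hge : ∀ x ∈ T, 1 ≤ S.D u x := fun x hx => S.one_le_D (fun e => huT (e ▸ hx))
  have hT1 : (T.filter (fun x => S.D u x ^ S.e < 2)).card ≤ S.mu.card := by
    apply S.card_le_mu hu (fun h => huT (Finset.mem_filter.1 h).1)
      (fun h => S.L_not_self h2 (hT (Finset.mem_filter.1 h).1))
    intro x hx x' hx' v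
    obtain ⟨hxT, hx2⟩ := Finset.mem_filter.1 hx
    obtain ⟨hxT', hx2'⟩ := Finset.mem_filter.1 hx'
    rw [S.one_L v h1 h2 hne.symm (hT hxT), S.one_L v h1 h2 hne.symm (hT hxT')]
    have q1 := S.one_le_Dδ v (i := x') (j := u) (fun e => huT (e ▸ hxT'))
    have q2 := S.le_one v x u
    rw [S.D_comm x' u] at q1
    have q3 : 0 < S.δ v x' u := S.δ_pos v (fun e => huT (e ▸ hxT'))
    have q4 := mul_lt_mul_of_pos_right hx2' q3
    linarith
  have h3 : (2:ℝ) ^ (T.filter (fun x => ¬ S.D u x ^ S.e < 2)).card ≤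
      ∏ x ∈ T.filter (fun x => ¬ S.D u x ^ S.e < 2), S.D u x ^ S.e := by
    apply pow_le_prod_real _ _ (by norm_num)
    intro x hx
    exact not_lt.1 (Finset.mem_filter.1 hx).2
  have h5 := Finset.card_filter_add_card_filter_not (s := T) (fun x => S.D u x ^ S.e < 2)
  rw [← Finset.prod_pow, ← Finset.prod_filter_mul_prod_filter_not T
    (fun x => S.D u x ^ S.e < 2)]
  have h4 := pow_le_prod_real (T.filter (fun x => S.D u x ^ S.e < 2))
    (fun x => S.D u x ^ S.e) zero_le_one (fun x hx =>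
      one_le_pow₀ (hge x (Finset.mem_filter.1 hx).1))
  rw [one_pow] at h4
  have h6 : (0:ℝ) < 2 ^ (T.filter (fun x => ¬ S.D u x ^ S.e < 2)).card := by positivity
  calc (2:ℝ) ^ k ≤ 2 ^ (T.filter (fun x => ¬ S.D u x ^ S.e < 2)).card :=
        pow_le_pow_right₀ (by norm_num) (by omega)
    _ ≤ ∏ x ∈ T.filter (fun x => ¬ S.D u x ^ S.e < 2), S.D u x ^ S.e := h3
    _ = 1 * ∏ x ∈ T.filter (fun x => ¬ S.D u x ^ S.e < 2), S.D u x ^ S.e := (one_mul _).symm
    _ ≤ _ := mul_le_mul_of_nonneg_right h4 (h6.le.trans h3)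

lemma m_le {R1 R2 x y : ι} (h1 : S.Per R1) (h2 : S.Per R2) (hne : R1 ≠ R2)
    (hx : x ∈ S.L R2) (hy : y ∈ S.Y R1) :
    S.D R1 R2 ≤ 1 + S.D y R1 * S.D x R2 := by
  have hpt := S.ptolemy R1 R2 x y
  have hxy : S.D x y = 1 := by
    rw [S.D_comm]
    exact S.D_cross h2 h1 hne.symm hy hx
  rw [hxy, mul_one, S.D_comm R1 x, S.D_comm R2 y, S.D_comm R1 y, S.D_comm R2 x,
    S.D_one_L h2 h1 hne hx, S.D_one_Y h2 hne.symm hy, mul_one] at hpt
  exact hpt

lemma D_le {R1 R2 x y P : ι} (h1 : S.Per R1) (h2 : S.Per R2) (hne : R1 ≠ R2)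
    (hx : x ∈ S.L R2) (hy : y ∈ S.Y R1) (hP : P ∈ S.L R1) :
    S.D y P * S.D x R2 ≤ 1 + S.D x P := by
  have hpt := S.ptolemy y P x R2
  have hxy : S.D y x = 1 := S.D_cross h2 h1 hne.symm hy hx
  rw [hxy, one_mul, S.D_one_L h1 h2 hne.symm hP, S.D_one_Y h2 hne.symm hy, one_mul,
    S.D_comm P x] at hpt
  exact hpt

/-- two fixed points -/
lemma Y_empty_fixed {R1 R2 : ι} (h1 : S.Per R1) (h2 : S.Per R2) (hne : R1 ≠ R2)
    (f1 : S.f R1 = R1) (hb : (S.L R2).Nonempty)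
    (ha : S.mu.card + 2 * S.e + 1 ≤ (S.L R1).card) : S.Y R1 = ∅ := by
  classical
  rw [Finset.eq_empty_iff_forall_notMem]
  intro y hy
  obtain ⟨x, hx⟩ := hb
  obtain ⟨P, hP, hroot⟩ := S.root f1 hy
  have e1 := S.root_eq_D h1 hy hP hroot
  have hxR2 : x ≠ R2 := by
    rintro rfl
    exact S.L_not_self h2 hx
  have hxL : x ∉ S.L R1 := S.L_disj h2 h1 hne.symm hx
  have a1 := S.m_le h1 h2 hne hx hy
  have a2 := S.D_le h1 h2 hne hx hy hP
  have a3 := S.prod_L_m h1 h2 hne hx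
  rw [← Finset.mul_prod_erase _ _ hP] at a3
  have a4 := S.pow_le_prod h1 h2 hne hxR2 (T := (S.L R1).erase P) (Finset.erase_subset _ _)
    (fun h => hxL (Finset.mem_of_mem_erase h)) (k := 2 * S.e) (by
      rw [Finset.card_erase_of_mem hP]; omega)
  have hxP : 1 ≤ S.D x P := S.one_le_D (by rintro rfl; exact hxL hP)
  rw [e1] at a2
  have hp0 : 0 ≤ ∏ z ∈ (S.L R1).erase P, S.D x z :=
    Finset.prod_nonneg (fun x _ => S.D_nonneg _ _)
  have a5 : (4:ℝ) ≤ ∏ z ∈ (S.L R1).erase P, S.D x z := by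
    apply le_of_pow_le_pow_left₀ S.he.ne' hp0
    refine le_trans (le_of_eq ?_) a4
    rw [pow_mul]; norm_num
  set p := ∏ z ∈ (S.L R1).erase P, S.D x z
  nlinarith

/-- a cycle of length two -/
lemma Y_empty_cycle {R1 R2 : ι} (h1 : S.Per R1) (h2 : S.Per R2) (hne : R1 ≠ R2)
    (f1 : S.f R1 = R2) (hY : S.Y R2 = ∅) (ha : S.mu.card + 3 * S.e ≤ (S.L R1).card)
    (ha' : 3 ≤ (S.L R1).card) :
    S.Y R1 = ∅ := by
  classical
  rw [Finset.eq_empty_iff_forall_notMem]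
  intro y hy
  have hy' := S.mem_Y.1 hy
  have hx : S.f y ∈ S.L R2 := by
    have h3 := S.non_cases hy'.2.1
    rw [e_f, hy'.2.2, f1, hY] at h3
    simpa using h3
  set x := S.f y with hxdef
  have hxR2 : x ≠ R2 := by
    intro h
    exact S.L_not_self h2 (h ▸ hx)
  have hxL : x ∉ S.L R1 := S.L_disj h2 h1 hne.symm hx
  have hyR2 : y ≠ R2 := by
    rintro rfl
    exact hy'.1 h2
  have hyR1 : y ≠ R1 := by
    rintro rfl
    exact hy'.1 h1
  have hyL := S.Y_not_mem_L h1 hy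
  have a1 := S.m_le h1 h2 hne hx hy
  have a2 : ∀ P ∈ S.L R1, S.D x R2 - 1 ≤ S.D x P := by
    intro P hP
    have h3 := S.D_le h1 h2 hne hx hy hP
    have h4 : 1 ≤ S.D y P := S.one_le_D (by rintro rfl; exact hyL hP)
    have h5 := S.D_nonneg x R2
    nlinarith
  have a3 := S.prod_L_m h1 h2 hne hx
  have a4 : S.D y R1 * ∏ z ∈ S.L R1, S.D y z ≤ S.D x R2 := by
    have := S.mono (i := x) (j := R2) (y := y) (T := insert R1 (S.L R1)) hxR2 (by
      rw [Finset.mem_insert, not_or]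
      exact ⟨hyR1, hyL⟩) (by
      intro v
      have := S.prod_L_le v (P := y) h1
      rwa [f1] at this)
    rwa [Finset.prod_insert (S.L_not_self h1)] at this
  have a6 := S.pow_le_prod h1 h2 hne hyR2 (T := S.L R1) (Finset.Subset.refl _)
    hyL (k := 3 * S.e) (by omega)
  have hp0 : 0 ≤ ∏ z ∈ S.L R1, S.D y z := Finset.prod_nonneg (fun x _ => S.D_nonneg _ _)
  have a7 : (8:ℝ) ≤ ∏ z ∈ S.L R1, S.D y z := by
    apply le_of_pow_le_pow_left₀ S.he.ne' hp0
    refine le_trans (le_of_eq ?_) a6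
    rw [pow_mul]; norm_num
  have hyR1' : 1 ≤ S.D y R1 := S.one_le_D hyR1
  have b1 : 8 ≤ S.D x R2 := by nlinarith
  have b2 : S.D y R1 ≤ S.D x R2 := by nlinarith
  -- `(q-1)^|L| ≤ m`
  have b3 : (S.D x R2 - 1) ^ (S.L R1).card ≤ ∏ z ∈ S.L R1, S.D x z :=
    pow_le_prod_real _ _ (by linarith) a2
  have b4 : (S.D x R2 - 1) ^ 3 ≤ (S.D x R2 - 1) ^ (S.L R1).card :=
    pow_le_pow_right₀ (by linarith) ha'
  set q := S.D x R2
  have b5 : (q - 1) ^ 3 ≤ 1 + q * q := by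
    have : S.D y R1 * q ≤ q * q := mul_le_mul_of_nonneg_right b2 (by linarith)
    linarith
  obtain ⟨t, ht⟩ : ∃ t, q = t + 1 := ⟨q - 1, by ring⟩
  rw [ht] at b5 b1
  have b6 : 7 ≤ t := by linarith
  have b7 : t ^ 3 ≤ 1 + (t + 1) * (t + 1) := by
    have : (t + 1 - 1) = t := by ring
    rwa [this] at b5
  nlinarith [mul_nonneg (by linarith : (0:ℝ) ≤ t - 7) (by positivity : (0:ℝ) ≤ t ^ 2)]

end Sys

end Pool.Agent.TH856.PG
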